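import Pool.Agent.H18.Col.PartI

open MeasureTheory Set Filter Measure Manifold Bundle InnerProductGeometry
open scoped ContDiff Topology ENNReal NNReal

set_option linter.unusedSectionVars false
set_option linter.style.haveILetI false

noncomputable section

namespace Pool.Agent.H18.Col

open Pool.Agent.H74.FAC

variable {M : Type} [MetricSpace M] [ChartedSpace HP M] [IsManifold (𝓡∂ 2) ∞ M] [CompactSpace M]
  [RiemannianBundle (fun x : M => TangentSpace (𝓡∂ 2) x)]
  [IsContMDiffRiemannianBundle (𝓡∂ 2) ∞ E2 (fun x : M => TangentSpace (𝓡∂ 2) x)]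
  [IsRiemannianManifold (𝓡∂ 2) M]

/-- **Isometric fillings of the circle containing an expanded round collar of width `π/4` have area
at least `2π`.** -/
theorem collar_area (ho : Orientable M) {φ : S1 → M} (hφ : IsometricFilling φ) {Ψ : collar → M}
    (hΨ : ∀ y y' : collar, angle (y : E3) y' ≤ dist (Ψ y) (Ψ y'))
    (hb : ∀ t : ℝ, Ψ ⟨_, ring_mem t⟩ = φ (t : S1)) :
    ENNReal.ofReal (2 * Real.pi) ≤ area M := by
  letI : MeasurableSpace M := borel M
  haveI : BorelSpace M := ⟨rfl⟩
  obtain ⟨A⟩ := exists_cov ho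
  refine le_trans ?_ (mu_univ_le A)
  by_cases hfin : mu A univ = ⊤
  · rw [hfin]; exact le_top
  have h1 := partI A hΨ
  have h2 := partII A hφ hΨ hb hfin
  have hpi := Real.pi_pos
  have hs2 := sqrt2_bounds
  have hKm : MeasurableSet (closure (range Ψ)) := isClosed_closure.measurableSet
  rw [← measure_add_measure_compl hKm]
  refine le_trans ?_ (add_le_add h1 h2)
  rw [← ENNReal.ofReal_add (by positivity) (mul_nonneg hpi.le (by linarith))]
  apply ENNReal.ofReal_le_ofReal
  linarith

end Pool.Agent.H18.Col
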