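import Mathlib

open MeasureTheory Set intervalIntegral

noncomputable section

namespace Pool.Agent.H18.Col

/-- a function with nonnegative derivative on `[0,∞)` vanishing at `0` is nonnegative -/
lemma nonneg_of_deriv {f f' : ℝ → ℝ} (hf : ∀ x, HasDerivAt f (f' x) x) (h0 : f 0 = 0)
    (h : ∀ x, 0 ≤ x → 0 ≤ f' x) {x : ℝ} (hx : 0 ≤ x) : 0 ≤ f x := by
  have hm : MonotoneOn f (Ici 0) := by
    apply monotoneOn_of_hasDerivWithinAt_nonneg (convex_Ici 0)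
      (fun y _ => (hf y).continuousAt.continuousWithinAt)
      (fun y _ => (hf y).hasDerivWithinAt)
    intro y hy
    rw [interior_Ici] at hy
    exact h y (le_of_lt hy)
  have := hm (Set.self_mem_Ici) (show x ∈ Ici (0 : ℝ) from hx) hx
  rwa [h0] at this

lemma cos_le_four {x : ℝ} (hx : 0 ≤ x) : Real.cos x ≤ 1 - x ^ 2 / 2 + x ^ 4 / 24 := by
  have := nonneg_of_deriv (f := fun x => 1 - x ^ 2 / 2 + x ^ 4 / 24 - Real.cos x)
    (f' := fun x => - x + x ^ 3 / 6 + Real.sin x) (fun x => by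
      have h1 := ((hasDerivAt_pow 2 x).div_const 2).const_sub 1
      have h2 := (hasDerivAt_pow 4 x).div_const 24
      have h3 := (h1.add h2).sub (Real.hasDerivAt_cos x)
      exact h3.congr_deriv (by push_cast; ring)) (by simp) (fun x hx => by have := Real.sin_ge_sub_cube hx; linarith) hx
  linarith

lemma sin_le_five {x : ℝ} (hx : 0 ≤ x) : Real.sin x ≤ x - x ^ 3 / 6 + x ^ 5 / 120 := by
  have := nonneg_of_deriv (f := fun x => x - x ^ 3 / 6 + x ^ 5 / 120 - Real.sin x)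
    (f' := fun x => 1 - x ^ 2 / 2 + x ^ 4 / 24 - Real.cos x) (fun x => by
      have h1 := (hasDerivAt_id x).sub ((hasDerivAt_pow 3 x).div_const 6)
      have h2 := (hasDerivAt_pow 5 x).div_const 120
      have h3 := (h1.add h2).sub (Real.hasDerivAt_sin x)
      exact h3.congr_deriv (by push_cast; ring)) (by simp) (fun x hx => by have := cos_le_four hx; linarith) hx
  linarith

lemma cos_ge_six' {x : ℝ} (hx : 0 ≤ x) :
    1 - x ^ 2 / 2 + x ^ 4 / 24 - x ^ 6 / 720 ≤ Real.cos x := by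
  have := nonneg_of_deriv (f := fun x => Real.cos x - (1 - x ^ 2 / 2 + x ^ 4 / 24 - x ^ 6 / 720))
    (f' := fun x => x - x ^ 3 / 6 + x ^ 5 / 120 - Real.sin x) (fun x => by
      have h1 := ((hasDerivAt_pow 2 x).div_const 2).const_sub 1
      have h2 := (hasDerivAt_pow 4 x).div_const 24
      have h4 := (hasDerivAt_pow 6 x).div_const 720
      have h3 := (Real.hasDerivAt_cos x).sub ((h1.add h2).sub h4)
      exact h3.congr_deriv (by push_cast; ring)) (by simp) (fun x hx => by have := sin_le_five hx; linarith) hx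
  linarith

lemma cos_ge_six (x : ℝ) : 1 - x ^ 2 / 2 + x ^ 4 / 24 - x ^ 6 / 720 ≤ Real.cos x := by
  rcases le_total 0 x with h | h
  · exact cos_ge_six' h
  · have := cos_ge_six' (x := -x) (by linarith)
    rw [Real.cos_neg] at this
    have e : 1 - (-x) ^ 2 / 2 + (-x) ^ 4 / 24 - (-x) ^ 6 / 720
      = 1 - x ^ 2 / 2 + x ^ 4 / 24 - x ^ 6 / 720 := by ring
    linarith

/-- the polynomial majorant of `sin²` -/
lemma sin_sq_le (y : ℝ) : Real.sin y ^ 2 ≤ y ^ 2 - y ^ 4 / 3 + 2 * y ^ 6 / 45 := by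
  have h := cos_ge_six (2 * y)
  have h2 : Real.cos (2 * y) = 1 - 2 * Real.sin y ^ 2 := by
    rw [Real.cos_two_mul, ← Real.sin_sq_add_cos_sq y]; ring
  rw [h2] at h
  nlinarith [h]

/-- integrals over a period -/
lemma int_cos_zero (k : ℕ) (hk : k ≠ 0) (c : ℝ) :
    ∫ u in (0 : ℝ)..(2 * Real.pi), Real.cos (k * u + c) = 0 := by
  have hk' : (k : ℝ) ≠ 0 := by exact_mod_cast hk
  rw [intervalIntegral.integral_comp_mul_add (fun x => Real.cos x) hk' c, integral_cos]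
  have : Real.sin ((k : ℝ) * (2 * Real.pi) + c) = Real.sin (↑k * 0 + c) := by
    rw [mul_zero, zero_add, add_comm]
    simp
  rw [this, sub_self, smul_zero]

/-- the majorant polynomial -/
def Pp (y : ℝ) : ℝ := y ^ 2 - y ^ 4 / 3 + 2 * y ^ 6 / 45

lemma Pp_fourier (κ v : ℝ) : Pp (κ * Real.cos v) = (κ ^ 2 / 2 - κ ^ 4 / 8 + κ ^ 6 / 72)
    + (κ ^ 2 / 2 - κ ^ 4 / 6 + κ ^ 6 / 48) * Real.cos (2 * v)
    + (-κ ^ 4 / 24 + κ ^ 6 / 120) * Real.cos (4 * v) + κ ^ 6 / 720 * Real.cos (6 * v) := by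
  have h2 : Real.cos (2 * v) = 2 * Real.cos v ^ 2 - 1 := Real.cos_two_mul v
  have h4 : Real.cos (4 * v) = 2 * Real.cos (2 * v) ^ 2 - 1 := by
    rw [← Real.cos_two_mul]; ring_nf
  have h6 : Real.cos (6 * v) = 4 * Real.cos (2 * v) ^ 3 - 3 * Real.cos (2 * v) := by
    rw [← Real.cos_three_mul]; ring_nf
  rw [h4, h6, h2, Pp]
  ring

lemma cos_mul_cos' (a b : ℝ) : Real.cos a * Real.cos b
    = (Real.cos (a + b) + Real.cos (a - b)) / 2 := by
  rw [Real.cos_add, Real.cos_sub]; ring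

lemma Pp_expand (κ v γ : ℝ) :
    Pp (κ * Real.cos v) * ((1 - Real.cos (4 * v + γ)) / 2)
      = ((κ ^ 2 / 2 - κ ^ 4 / 8 + κ ^ 6 / 72) / 2 - (-κ ^ 4 / 24 + κ ^ 6 / 120) / 4 * Real.cos γ)
        + (κ ^ 2 / 2 - κ ^ 4 / 6 + κ ^ 6 / 48) / 2 * Real.cos (2 * v)
        + (-κ ^ 4 / 24 + κ ^ 6 / 120) / 2 * Real.cos (4 * v)
        + (κ ^ 6 / 720) / 2 * Real.cos (6 * v)
        - (κ ^ 2 / 2 - κ ^ 4 / 8 + κ ^ 6 / 72) / 2 * Real.cos (4 * v + γ)
        - (κ ^ 2 / 2 - κ ^ 4 / 6 + κ ^ 6 / 48) / 4 * Real.cos (6 * v + γ)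
        - (κ ^ 2 / 2 - κ ^ 4 / 6 + κ ^ 6 / 48) / 4 * Real.cos (2 * v + γ)
        - (-κ ^ 4 / 24 + κ ^ 6 / 120) / 4 * Real.cos (8 * v + γ)
        - (κ ^ 6 / 720) / 4 * Real.cos (10 * v + γ)
        - (κ ^ 6 / 720) / 4 * Real.cos (2 * v + (-γ)) := by
  have h2 := cos_mul_cos' (4 * v + γ) (2 * v)
  have h4 := cos_mul_cos' (4 * v + γ) (4 * v)
  have h6 := cos_mul_cos' (6 * v) (4 * v + γ)
  rw [show 4 * v + γ + 2 * v = 6 * v + γ by ring, show 4 * v + γ - 2 * v = 2 * v + γ by ring] at h2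
  rw [show 4 * v + γ + 4 * v = 8 * v + γ by ring, show 4 * v + γ - 4 * v = γ by ring] at h4
  rw [show 6 * v + (4 * v + γ) = 10 * v + γ by ring, show 6 * v - (4 * v + γ) = 2 * v + -γ by ring] at h6
  rw [Pp_fourier]
  linear_combination (-(κ ^ 2 / 2 - κ ^ 4 / 6 + κ ^ 6 / 48) / 2) * h2
    - ((-κ ^ 4 / 24 + κ ^ 6 / 120) / 2) * h4 - (κ ^ 6 / 720 / 2) * h6

/-- the mean of `Pp (κ cos (u - u₀)) sin² (2u - α)` -/
lemma int_Pp (κ u0 γ : ℝ) :
    ∫ u in (0 : ℝ)..(2 * Real.pi), Pp (κ * Real.cos (u - u0)) * ((1 - Real.cos (4 * (u - u0) + γ)) / 2)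
      = 2 * Real.pi * ((κ ^ 2 / 2 - κ ^ 4 / 8 + κ ^ 6 / 72) / 2
        - (-κ ^ 4 / 24 + κ ^ 6 / 120) / 4 * Real.cos γ) := by
  have hz : ∀ (k : ℕ) (c c' : ℝ), k ≠ 0 →
      ∫ u in (0 : ℝ)..(2 * Real.pi), c * Real.cos (k * (u - u0) + c') = 0 := by
    intro k c c' hk
    have := int_cos_zero k hk (c' - k * u0)
    rw [intervalIntegral.integral_const_mul]
    have e : ∀ u : ℝ, (k : ℝ) * (u - u0) + c' = k * u + (c' - k * u0) := fun u => by ring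
    simp_rw [e]
    rw [this, mul_zero]
  have hz0 : ∀ (k : ℕ) (c : ℝ), k ≠ 0 →
      ∫ u in (0 : ℝ)..(2 * Real.pi), c * Real.cos (k * (u - u0)) = 0 := by
    intro k c hk
    have := hz k c 0 hk
    simpa using this
  have hi : ∀ (k : ℕ) (c c' : ℝ), IntervalIntegrable (fun u => c * Real.cos (k * (u - u0) + c'))
      volume 0 (2 * Real.pi) := fun k c c' => Continuous.intervalIntegrable (by fun_prop) _ _
  have hi0 : ∀ (k : ℕ) (c : ℝ), IntervalIntegrable (fun u => c * Real.cos (k * (u - u0)))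
      volume 0 (2 * Real.pi) := fun k c => Continuous.intervalIntegrable (by fun_prop) _ _
  simp_rw [Pp_expand κ _ γ]
  have e2 := hz0 2 ((κ ^ 2 / 2 - κ ^ 4 / 6 + κ ^ 6 / 48) / 2) (by norm_num)
  have e4 := hz0 4 ((-κ ^ 4 / 24 + κ ^ 6 / 120) / 2) (by norm_num)
  have e6 := hz0 6 ((κ ^ 6 / 720) / 2) (by norm_num)
  have f4 := hz 4 ((κ ^ 2 / 2 - κ ^ 4 / 8 + κ ^ 6 / 72) / 2) γ (by norm_num)
  have f6 := hz 6 ((κ ^ 2 / 2 - κ ^ 4 / 6 + κ ^ 6 / 48) / 4) γ (by norm_num)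
  have f2 := hz 2 ((κ ^ 2 / 2 - κ ^ 4 / 6 + κ ^ 6 / 48) / 4) γ (by norm_num)
  have f8 := hz 8 ((-κ ^ 4 / 24 + κ ^ 6 / 120) / 4) γ (by norm_num)
  have f10 := hz 10 ((κ ^ 6 / 720) / 4) γ (by norm_num)
  have f2' := hz 2 ((κ ^ 6 / 720) / 4) (-γ) (by norm_num)
  have i2 := hi0 2 ((κ ^ 2 / 2 - κ ^ 4 / 6 + κ ^ 6 / 48) / 2)
  have i4 := hi0 4 ((-κ ^ 4 / 24 + κ ^ 6 / 120) / 2)
  have i6 := hi0 6 ((κ ^ 6 / 720) / 2)
  have j4 := hi 4 ((κ ^ 2 / 2 - κ ^ 4 / 8 + κ ^ 6 / 72) / 2) γ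
  have j6 := hi 6 ((κ ^ 2 / 2 - κ ^ 4 / 6 + κ ^ 6 / 48) / 4) γ
  have j2 := hi 2 ((κ ^ 2 / 2 - κ ^ 4 / 6 + κ ^ 6 / 48) / 4) γ
  have j8 := hi 8 ((-κ ^ 4 / 24 + κ ^ 6 / 120) / 4) γ
  have j10 := hi 10 ((κ ^ 6 / 720) / 4) γ
  have j2' := hi 2 ((κ ^ 6 / 720) / 4) (-γ)
  push_cast at e2 e4 e6 f4 f6 f2 f8 f10 f2' i2 i4 i6 j4 j6 j2 j8 j10 j2'
  have ic : IntervalIntegrable (fun _ : ℝ => (κ ^ 2 / 2 - κ ^ 4 / 8 + κ ^ 6 / 72) / 2
    - (-κ ^ 4 / 24 + κ ^ 6 / 120) / 4 * Real.cos γ) volume 0 (2 * Real.pi) := by simp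
  rw [intervalIntegral.integral_sub ((((((((ic.add i2).add i4).add i6).sub j4).sub j6).sub j2).sub j8).sub j10) j2',
    intervalIntegral.integral_sub (((((((ic.add i2).add i4).add i6).sub j4).sub j6).sub j2).sub j8) j10,
    intervalIntegral.integral_sub ((((((ic.add i2).add i4).add i6).sub j4).sub j6).sub j2) j8,
    intervalIntegral.integral_sub (((((ic.add i2).add i4).add i6).sub j4).sub j6) j2,
    intervalIntegral.integral_sub ((((ic.add i2).add i4).add i6).sub j4) j6,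
    intervalIntegral.integral_sub (((ic.add i2).add i4).add i6) j4,
    intervalIntegral.integral_add ((ic.add i2).add i4) i6,
    intervalIntegral.integral_add (ic.add i2) i4,
    intervalIntegral.integral_add ic i2, e2, e4, e6, f4, f6, f2, f8, f10, f2',
    intervalIntegral.integral_const]
  simp

/-- the constant of the construction -/
def nu : ℝ := 11 / 5

lemma poly_ineq {y : ℝ} (h1 : 242 / 100 ≤ y ^ 2) (h2 : y ^ 2 ≤ 484 / 100) (hy : 0 ≤ y) :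
    (484 / 100 - y ^ 2) / 2 - 5 / 48 * (484 / 100 - y ^ 2) ^ 2 + 7 / 720 * (484 / 100 - y ^ 2) ^ 3
      ≤ 4 * y - 3 - y ^ 2 := by
  have hy1 : 155 / 100 ≤ y := by nlinarith
  have hy2 : y ≤ 220 / 100 := by nlinarith
  nlinarith [mul_nonneg (sub_nonneg.2 hy1) (sub_nonneg.2 hy2), mul_nonneg (sub_nonneg.2 h1) (sub_nonneg.2 h2),
    mul_nonneg (mul_nonneg (sub_nonneg.2 h1) (sub_nonneg.2 h2)) (sub_nonneg.2 hy1),
    mul_nonneg (mul_nonneg (sub_nonneg.2 h1) (sub_nonneg.2 h2)) (sub_nonneg.2 h2),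
    mul_nonneg (mul_nonneg (sub_nonneg.2 h1) (sub_nonneg.2 h2)) (sub_nonneg.2 h1)]

end Pool.Agent.H18.Col
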