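import Pool.Agent.H18.Col.Trig

open MeasureTheory Set intervalIntegral

noncomputable section

namespace Pool.Agent.H18.Col

/-- the pointwise inequality behind the Cauchy–Schwarz argument -/
lemma point_ineq {a b S m l c s : ℝ} (hm : 0 < m) (hl : 0 < l) (hab : a ^ 2 + b ^ 2 ≤ 1) :
    m * (1 - a) * c - b * S * s ≤ l * (m * (1 - a)) + (m * c ^ 2 + S ^ 2 * s ^ 2 / m) / (2 * l) := by
  have h1 : (1 - a) ^ 2 + b ^ 2 ≤ 2 * (1 - a) := by nlinarith
  have h2 : l * m * ((1 - a) ^ 2 + b ^ 2) / 2 ≤ l * (m * (1 - a)) := by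
    have := mul_le_mul_of_nonneg_left h1 (by positivity : 0 ≤ l * m / 2)
    nlinarith
  have h3 : l * m * ((1 - a) ^ 2 + b ^ 2) / 2 + (m * c ^ 2 + S ^ 2 * s ^ 2 / m) / (2 * l)
      - (m * (1 - a) * c - b * S * s)
      = m / (2 * l) * (l * (1 - a) - c) ^ 2 + 1 / (2 * l * m) * (l * m * b + S * s) ^ 2 := by
    field_simp
    ring
  have h4 : 0 ≤ m / (2 * l) * (l * (1 - a) - c) ^ 2 + 1 / (2 * l * m) * (l * m * b + S * s) ^ 2 := by
    positivity
  linarith

/-- if `c P + s R ≤ l X + 1/(2l)` for all unit vectors and all `l > 0` then `P² + R² ≤ 2 X` -/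
lemma sq_le_of_forall {P R X : ℝ} (hX : 0 ≤ X)
    (h : ∀ c s l : ℝ, c ^ 2 + s ^ 2 = 1 → 0 < l → c * P + s * R ≤ l * X + 1 / (2 * l)) :
    P ^ 2 + R ^ 2 ≤ 2 * X := by
  set N := Real.sqrt (P ^ 2 + R ^ 2) with hN
  have hN2 : N ^ 2 = P ^ 2 + R ^ 2 := Real.sq_sqrt (by positivity)
  have hN0 : 0 ≤ N := Real.sqrt_nonneg _
  rcases hN0.lt_or_eq with hpos | h0
  · have h1 : ∀ l, 0 < l → N ≤ l * X + 1 / (2 * l) := by
      intro l hl
      have := h (P / N) (R / N) l (by
        rw [div_pow, div_pow, ← add_div, ← hN2]; field_simp) hl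
      have e : P / N * P + R / N * R = N := by
        have : P / N * P + R / N * R = (P ^ 2 + R ^ 2) / N := by ring
        rw [this, ← hN2]; field_simp
      rwa [e] at this
    have h2 := h1 (1 / N) (by positivity)
    have e : 1 / N * X + 1 / (2 * (1 / N)) = X / N + N / 2 := by field_simp
    rw [e] at h2
    have h3 : N / 2 ≤ X / N := by linarith
    rw [le_div_iff₀ hpos] at h3
    nlinarith
  · have : P ^ 2 + R ^ 2 = 0 := by rw [← hN2, ← h0]; ring
    rw [this]; linarith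

/-- the matrix entries of the derivative -/
structure Entries (A11 A12 A21 A22 : ℝ) (X P R B : ℝ) : Prop where
  e11 : A11 = 1 + X + P
  e12 : A12 = R + B
  e21 : A21 = R - B
  e22 : A22 = 1 + X - P
  hX : 0 ≤ X
  hX3 : X ≤ 3
  hB : |B| ≤ 1
  hQ : P ^ 2 + R ^ 2 ≤ 2 * X

namespace Entries

variable {A11 A12 A21 A22 X P R B : ℝ}

lemma det_ge (h : Entries A11 A12 A21 A22 X P R B) : 1 ≤ A11 * A22 - A12 * A21 := by
  rw [h.e11, h.e12, h.e21, h.e22]
  have := h.hQ
  have := h.hX
  nlinarith [sq_nonneg X, sq_nonneg B]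

lemma quad_ge (h : Entries A11 A12 A21 A22 X P R B) (x y : ℝ) :
    (x ^ 2 + y ^ 2) / 2 ≤ x * (A11 * x + A12 * y) + y * (A21 * x + A22 * y) := by
  rw [h.e11, h.e12, h.e21, h.e22]
  have hQ := h.hQ
  have hX := h.hX
  set s := Real.sqrt (2 * X) with hs
  have hs2 : s ^ 2 = 2 * X := Real.sq_sqrt (by linarith)
  have hs0 : 0 ≤ s := Real.sqrt_nonneg _
  -- |P (x²-y²) + 2 R x y| ≤ s (x²+y²)
  have key : -(s * (x ^ 2 + y ^ 2)) ≤ P * (x ^ 2 - y ^ 2) + R * (2 * x * y) := by
    have h1 : (P * (x ^ 2 - y ^ 2) + R * (2 * x * y)) ^ 2 ≤ (s * (x ^ 2 + y ^ 2)) ^ 2 := by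
      have : (P * (x ^ 2 - y ^ 2) + R * (2 * x * y)) ^ 2 ≤ (P ^ 2 + R ^ 2) * (x ^ 2 + y ^ 2) ^ 2 := by
        nlinarith [sq_nonneg (P * (2 * x * y) - R * (x ^ 2 - y ^ 2))]
      refine this.trans ?_
      rw [mul_pow, hs2]
      exact mul_le_mul_of_nonneg_right hQ (by positivity)
    have := abs_le_of_sq_le_sq h1 (by positivity)
    exact (abs_le.1 this).1
  have e : x * ((1 + X + P) * x + (R + B) * y) + y * ((R - B) * x + (1 + X - P) * y)
      = (1 + X) * (x ^ 2 + y ^ 2) + (P * (x ^ 2 - y ^ 2) + R * (2 * x * y)) := by ring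
  rw [e]
  have h2 : 1 / 2 ≤ 1 + X - s := by nlinarith [sq_nonneg (s - 1)]
  nlinarith [mul_le_mul_of_nonneg_right h2 (by positivity : 0 ≤ x ^ 2 + y ^ 2)]

lemma bound (h : Entries A11 A12 A21 A22 X P R B) :
    |A11| ≤ 10 ∧ |A12| ≤ 10 ∧ |A21| ≤ 10 ∧ |A22| ≤ 10 := by
  have hQ := h.hQ
  have hX := h.hX
  have hX3 := h.hX3
  have hP : |P| ≤ 3 := abs_le_of_sq_le_sq (by nlinarith [sq_nonneg R]) (by norm_num)
  have hR : |R| ≤ 3 := abs_le_of_sq_le_sq (by nlinarith [sq_nonneg P]) (by norm_num)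
  have hB := h.hB
  rw [abs_le] at hP hR hB
  rw [h.e11, h.e12, h.e21, h.e22, abs_le, abs_le, abs_le, abs_le]
  refine ⟨⟨?_, ?_⟩, ⟨?_, ?_⟩, ⟨?_, ?_⟩, ⟨?_, ?_⟩⟩ <;> linarith [hP.1, hP.2, hR.1, hR.2, hB.1, hB.2]

end Entries

lemma hc1 : ∫ _u in (0 : ℝ)..(2 * Real.pi), (1 : ℝ) = 2 * Real.pi := by simp

lemma int_sin_two : ∫ u in (0 : ℝ)..(2 * Real.pi), Real.sin (2 * u) = 0 := by
  refine Eq.trans ?_ (int_cos_zero 2 (by norm_num) (-(Real.pi / 2)))
  apply intervalIntegral.integral_congr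
  intro u _
  simp only
  push_cast
  rw [← sub_eq_add_neg, Real.cos_sub_pi_div_two]

lemma int_cos_two : ∫ u in (0 : ℝ)..(2 * Real.pi), Real.cos (2 * u) = 0 := by
  refine Eq.trans ?_ (int_cos_zero 2 (by norm_num) 0)
  apply intervalIntegral.integral_congr
  intro u _
  simp

section
variable {x y : ℝ → ℝ}

/-- mean over a period -/
def av (f : ℝ → ℝ) : ℝ := 1 / (2 * Real.pi) * ∫ u in (0 : ℝ)..(2 * Real.pi), f u

lemma av_add {f g : ℝ → ℝ} (hf : Continuous f) (hg : Continuous g) :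
    av (fun u => f u + g u) = av f + av g := by
  rw [av, av, av, intervalIntegral.integral_add (hf.intervalIntegrable _ _)
    (hg.intervalIntegrable _ _)]
  ring

lemma av_const_mul (c : ℝ) (f : ℝ → ℝ) : av (fun u => c * f u) = c * av f := by
  rw [av, av, intervalIntegral.integral_const_mul]
  ring

lemma av_one : av (fun _ => 1) = 1 := by
  have := Real.pi_pos
  rw [av, hc1]; field_simp

lemma av_cos_two : av (fun u => Real.cos (2 * u)) = 0 := by rw [av, int_cos_two, mul_zero]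

lemma av_sin_two : av (fun u => Real.sin (2 * u)) = 0 := by rw [av, int_sin_two, mul_zero]

lemma av_mono {f g : ℝ → ℝ} (hf : Continuous f) (hg : Continuous g) (h : ∀ u, f u ≤ g u) :
    av f ≤ av g := by
  have hpi := Real.pi_pos
  rw [av, av]
  apply mul_le_mul_of_nonneg_left _ (by positivity)
  exact intervalIntegral.integral_mono_on (by positivity) (hf.intervalIntegrable _ _)
    (hg.intervalIntegrable _ _) fun u _ => h u

lemma pi_av (f : ℝ → ℝ) : 1 / Real.pi * ∫ u in (0 : ℝ)..(2 * Real.pi), f u = 2 * av f := by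
  have := Real.pi_pos
  rw [av]; field_simp

variable (hx : Continuous x) (hy : Continuous y)
include hx hy

lemma A11_eq : 1 / Real.pi * ∫ u in (0 : ℝ)..(2 * Real.pi), Real.cos u *
        ((1 + x u) * Real.cos u - y u * Real.sin u)
      = 1 + av x + av (fun u => x u * Real.cos (2 * u) - y u * Real.sin (2 * u)) := by
  rw [pi_av, ← av_const_mul]
  have e : (fun u => 2 * (Real.cos u * ((1 + x u) * Real.cos u - y u * Real.sin u)))
      = fun u => ((1 + x u) + Real.cos (2 * u))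
        + (x u * Real.cos (2 * u) - y u * Real.sin (2 * u)) := by
    funext u
    rw [Real.cos_two_mul, Real.sin_two_mul]
    ring
  rw [e, av_add (by fun_prop) (by fun_prop), av_add (by fun_prop) (by fun_prop),
    av_add (by fun_prop) (by fun_prop), av_cos_two, av_one, add_zero]

lemma A12_eq : 1 / Real.pi * ∫ u in (0 : ℝ)..(2 * Real.pi), Real.cos u *
        ((1 + x u) * Real.sin u + y u * Real.cos u)
      = av (fun u => x u * Real.sin (2 * u) + y u * Real.cos (2 * u)) + av y := by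
  rw [pi_av, ← av_const_mul]
  have e : (fun u => 2 * (Real.cos u * ((1 + x u) * Real.sin u + y u * Real.cos u)))
      = fun u => (Real.sin (2 * u) + (x u * Real.sin (2 * u) + y u * Real.cos (2 * u))) + y u := by
    funext u
    rw [Real.cos_two_mul, Real.sin_two_mul]
    ring
  rw [e, av_add (by fun_prop) (by fun_prop), av_add (by fun_prop) (by fun_prop), av_sin_two,
    zero_add]

lemma A21_eq : 1 / Real.pi * ∫ u in (0 : ℝ)..(2 * Real.pi), Real.sin u *
        ((1 + x u) * Real.cos u - y u * Real.sin u)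
      = av (fun u => x u * Real.sin (2 * u) + y u * Real.cos (2 * u)) - av y := by
  rw [pi_av, ← av_const_mul]
  have e : (fun u => 2 * (Real.sin u * ((1 + x u) * Real.cos u - y u * Real.sin u)))
      = fun u => (Real.sin (2 * u) + (x u * Real.sin (2 * u) + y u * Real.cos (2 * u)))
        + (-1) * y u := by
    funext u
    have h2 := Real.sin_sq_add_cos_sq u
    rw [Real.cos_two_mul, Real.sin_two_mul]
    linear_combination (-2 * y u) * h2
  rw [e, av_add (by fun_prop) (by fun_prop), av_add (by fun_prop) (by fun_prop), av_sin_two,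
    av_const_mul]
  ring

lemma A22_eq : 1 / Real.pi * ∫ u in (0 : ℝ)..(2 * Real.pi), Real.sin u *
        ((1 + x u) * Real.sin u + y u * Real.cos u)
      = 1 + av x - av (fun u => x u * Real.cos (2 * u) - y u * Real.sin (2 * u)) := by
  rw [pi_av, ← av_const_mul]
  have e : (fun u => 2 * (Real.sin u * ((1 + x u) * Real.sin u + y u * Real.cos u)))
      = fun u => ((1 + x u) + (-1) * Real.cos (2 * u))
        + (-1) * (x u * Real.cos (2 * u) - y u * Real.sin (2 * u)) := by
    funext u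
    have h2 := Real.sin_sq_add_cos_sq u
    rw [Real.cos_two_mul, Real.sin_two_mul]
    linear_combination 2 * (1 + x u) * h2
  rw [e, av_add (by fun_prop) (by fun_prop), av_add (by fun_prop) (by fun_prop),
    av_add (by fun_prop) (by fun_prop), av_const_mul, av_const_mul, av_cos_two, av_one]
  ring

end

/-- the four averages satisfy the estimates -/
lemma entries_of {a b S : ℝ → ℝ} (ha : Continuous a) (hb : Continuous b) (hS : Continuous S)
    (hab : ∀ u, a u ^ 2 + b u ^ 2 ≤ 1) (hS1 : ∀ u, |S u| ≤ 1) {m : ℝ} (hm : 0 < m)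
    (hm2 : m ≤ 3 / 2)
    (hK : ∀ γ : ℝ, av (fun u =>
      m * Real.cos (2 * u - γ) ^ 2 + S u ^ 2 * Real.sin (2 * u - γ) ^ 2 / m) ≤ 1) :
    ∃ X P R B, Entries
      (1 / Real.pi * ∫ u in (0 : ℝ)..(2 * Real.pi), Real.cos u *
        ((1 + m * (1 - a u)) * Real.cos u - b u * S u * Real.sin u))
      (1 / Real.pi * ∫ u in (0 : ℝ)..(2 * Real.pi), Real.cos u *
        ((1 + m * (1 - a u)) * Real.sin u + b u * S u * Real.cos u))
      (1 / Real.pi * ∫ u in (0 : ℝ)..(2 * Real.pi), Real.sin u *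
        ((1 + m * (1 - a u)) * Real.cos u - b u * S u * Real.sin u))
      (1 / Real.pi * ∫ u in (0 : ℝ)..(2 * Real.pi), Real.sin u *
        ((1 + m * (1 - a u)) * Real.sin u + b u * S u * Real.cos u)) X P R B := by
  have hpi := Real.pi_pos
  have ha1 : ∀ u, |a u| ≤ 1 := fun u => abs_le_of_sq_le_sq (by nlinarith [hab u, sq_nonneg (b u)]) (by norm_num)
  have hb1 : ∀ u, |b u| ≤ 1 := fun u => abs_le_of_sq_le_sq (by nlinarith [hab u, sq_nonneg (a u)]) (by norm_num)
  have hx : Continuous fun u => m * (1 - a u) := by fun_prop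
  have hy : Continuous fun u => b u * S u := by fun_prop
  have hX0 : 0 ≤ av (fun u => m * (1 - a u)) := by
    have := av_mono (f := fun _ => (0 : ℝ)) (by fun_prop) hx (fun u => by
      have := abs_le.1 (ha1 u)
      exact mul_nonneg hm.le (by linarith [this.2]))
    simpa [av] using this
  refine ⟨_, _, _, _, A11_eq hx hy, A12_eq hx hy, A21_eq hx hy, A22_eq hx hy, hX0, ?_, ?_, ?_⟩
  · have := av_mono (g := fun _ => (3 : ℝ) * 1) hx (by fun_prop) (fun u => by
      have := abs_le.1 (ha1 u)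
      nlinarith [this.1])
    rw [av_const_mul 3 (fun _ => 1), av_one] at this
    linarith
  · rw [abs_le]
    have hbS : ∀ u, |b u * S u| ≤ 1 := fun u => by
      rw [abs_mul]
      calc |b u| * |S u| ≤ 1 * 1 := mul_le_mul (hb1 u) (hS1 u) (abs_nonneg _) zero_le_one
        _ = 1 := by norm_num
    constructor
    · have := av_mono (f := fun _ => (-1 : ℝ) * 1) (by fun_prop) hy (fun u => by
        have := abs_le.1 (hbS u); linarith [this.1])
      rw [av_const_mul, av_one] at this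
      linarith
    · have := av_mono (g := fun _ => (1 : ℝ)) hy (by fun_prop) (fun u => by
        have := abs_le.1 (hbS u); linarith [this.2])
      rw [av_one] at this
      linarith
  · -- the quadratic inequality
    apply sq_le_of_forall hX0
    intro c s l hcs hl
    obtain ⟨γ, hγc, hγs⟩ : ∃ γ : ℝ, Real.cos γ = c ∧ Real.sin γ = s := by
      have : ‖(⟨c, s⟩ : ℂ)‖ = 1 := by
        rw [Complex.norm_eq_sqrt_sq_add_sq]
        simp [hcs]
      refine ⟨Complex.arg ⟨c, s⟩, ?_, ?_⟩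
      · have h0 : (⟨c, s⟩ : ℂ) ≠ 0 := by
          intro h; rw [h] at this; simp at this
        rw [Complex.cos_arg h0, this]; simp
      · rw [Complex.sin_arg, this]; simp
    have e : (fun u => m * (1 - a u) * Real.cos (2 * u - γ) - b u * S u * Real.sin (2 * u - γ))
        = fun u => c * (m * (1 - a u) * Real.cos (2 * u) - b u * S u * Real.sin (2 * u))
          + s * (m * (1 - a u) * Real.sin (2 * u) + b u * S u * Real.cos (2 * u)) := by
      funext u
      rw [Real.cos_sub, Real.sin_sub, hγc, hγs]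
      ring
    have e2 := congrArg av e
    rw [av_add (by fun_prop) (by fun_prop), av_const_mul, av_const_mul] at e2
    rw [← e2]
    have h3 := av_mono (f := fun u => m * (1 - a u) * Real.cos (2 * u - γ)
        - b u * S u * Real.sin (2 * u - γ)) (g := fun u => l * (m * (1 - a u)) + 1 / (2 * l) *
          (m * Real.cos (2 * u - γ) ^ 2 + S u ^ 2 * Real.sin (2 * u - γ) ^ 2 / m))
        (by fun_prop) (by fun_prop) (fun u => by
      have := point_ineq (S := S u) (c := Real.cos (2 * u - γ)) (s := Real.sin (2 * u - γ)) hm hl (hab u)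
      rw [one_div, mul_comm (2 * l)⁻¹, ← div_eq_mul_inv]
      exact this)
    rw [av_add (by fun_prop) (by fun_prop), av_const_mul l (fun u => m * (1 - a u)),
      av_const_mul (1 / (2 * l))] at h3
    refine h3.trans ?_
    have := mul_le_mul_of_nonneg_left (hK γ) (by positivity : 0 ≤ 1 / (2 * l))
    linarith

/-- the trigonometric inequality `K ≤ 1` -/
lemma K_le {X0 X1 h : ℝ} (hX : X0 ^ 2 + X1 ^ 2 + h ^ 2 = 1) (hh : 1 / 2 ≤ h ^ 2) (h0 : 0 ≤ h)
    (γ : ℝ) : av (fun u => (nu * h - 1) * Real.cos (2 * u - γ) ^ 2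
      + Real.sin (nu * (X0 * Real.cos u + X1 * Real.sin u)) ^ 2 * Real.sin (2 * u - γ) ^ 2
        / (nu * h - 1)) ≤ 1 := by
  have hpi := Real.pi_pos
  set m := nu * h - 1 with hm
  have hy2 : 242 / 100 ≤ (nu * h) ^ 2 := by rw [nu, mul_pow]; nlinarith
  have hy3 : (nu * h) ^ 2 ≤ 484 / 100 := by rw [nu, mul_pow]; nlinarith [sq_nonneg X0, sq_nonneg X1]
  have hy0 : 0 ≤ nu * h := by rw [nu]; positivity
  have hy1 : 155 / 100 ≤ nu * h := by nlinarith
  have hm0 : 0 < m := by rw [hm]; linarith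
  -- polar coordinates
  obtain ⟨κ, u0, hκ0, hκ1⟩ : ∃ κ u0 : ℝ, nu * X0 = κ * Real.cos u0 ∧ nu * X1 = κ * Real.sin u0 := by
    refine ⟨‖(⟨nu * X0, nu * X1⟩ : ℂ)‖, Complex.arg ⟨nu * X0, nu * X1⟩, ?_, ?_⟩
    · rw [Complex.norm_mul_cos_arg]
    · rw [Complex.norm_mul_sin_arg]
  have hκ2 : κ ^ 2 = 484 / 100 - (nu * h) ^ 2 := by
    have : κ ^ 2 = (nu * X0) ^ 2 + (nu * X1) ^ 2 := by
      rw [hκ0, hκ1]
      have := Real.sin_sq_add_cos_sq u0
      linear_combination (-κ ^ 2) * this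
    rw [this, nu]
    nlinarith
  have harg : ∀ u, nu * (X0 * Real.cos u + X1 * Real.sin u) = κ * Real.cos (u - u0) := by
    intro u
    rw [Real.cos_sub]
    linear_combination Real.cos u * hκ0 + Real.sin u * hκ1
  -- the two averages
  have h1 : av (fun u => Real.cos (2 * u - γ) ^ 2) = 1 / 2 := by
    have e : (fun u => Real.cos (2 * u - γ) ^ 2)
        = fun u => (1 / 2) * 1 + 1 / 2 * Real.cos (4 * u + (-(2 * γ))) := by
      funext u
      have : Real.cos (4 * u + (-(2 * γ))) = Real.cos (2 * (2 * u - γ)) := by ring_nf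
      rw [this, Real.cos_two_mul]
      ring
    rw [e, av_add (by fun_prop) (by fun_prop), av_const_mul, av_const_mul, av_one]
    have : av (fun u => Real.cos (4 * u + (-(2 * γ)))) = 0 := by
      have := int_cos_zero 4 (by norm_num) (-(2 * γ))
      push_cast at this
      rw [av, this, mul_zero]
    rw [this]; norm_num
  set t := κ ^ 2 with ht
  have h2 : av (fun u => Real.sin (κ * Real.cos (u - u0)) ^ 2 * Real.sin (2 * u - γ) ^ 2)
      ≤ t / 4 - 5 / 96 * t ^ 2 + 7 / 1440 * t ^ 3 := by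
    set γ' := 4 * u0 - 2 * γ with hγ'
    have hle : av (fun u => Real.sin (κ * Real.cos (u - u0)) ^ 2 * Real.sin (2 * u - γ) ^ 2)
        ≤ av (fun u => Pp (κ * Real.cos (u - u0)) * ((1 - Real.cos (4 * (u - u0) + γ')) / 2)) := by
      have hPc : Continuous Pp := by unfold Pp; fun_prop
      apply av_mono (by fun_prop) (by fun_prop)
      intro u
      have e1 : (1 - Real.cos (4 * (u - u0) + γ')) / 2 = Real.sin (2 * u - γ) ^ 2 := by
        have : 4 * (u - u0) + γ' = 2 * (2 * u - γ) := by rw [hγ']; ring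
        rw [this, Real.cos_two_mul]
        have := Real.sin_sq_add_cos_sq (2 * u - γ)
        linarith
      rw [e1]
      exact mul_le_mul_of_nonneg_right (sin_sq_le _) (sq_nonneg _)
    refine hle.trans ?_
    rw [av, int_Pp]
    have e3 : 1 / (2 * Real.pi) * (2 * Real.pi * ((κ ^ 2 / 2 - κ ^ 4 / 8 + κ ^ 6 / 72) / 2
        - (-κ ^ 4 / 24 + κ ^ 6 / 120) / 4 * Real.cos γ'))
        = (t / 2 - t ^ 2 / 8 + t ^ 3 / 72) / 2 + (t ^ 2 / 24 - t ^ 3 / 120) / 4 * Real.cos γ' := by
      rw [ht]; field_simp; ring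
    rw [e3]
    have ht0 : 0 ≤ t := by positivity
    have ht5 : t ≤ 5 := by rw [hκ2]; linarith
    have h5 : 0 ≤ (t ^ 2 / 24 - t ^ 3 / 120) / 4 := by
      have : (t ^ 2 / 24 - t ^ 3 / 120) / 4 = t ^ 2 * (5 - t) / 480 := by ring
      rw [this]
      have := mul_nonneg (sq_nonneg t) (sub_nonneg.2 ht5)
      linarith
    have h6 := mul_le_mul_of_nonneg_left (Real.cos_le_one γ') h5
    linarith
  have e4 : (fun u => m * Real.cos (2 * u - γ) ^ 2
      + Real.sin (nu * (X0 * Real.cos u + X1 * Real.sin u)) ^ 2 * Real.sin (2 * u - γ) ^ 2 / m)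
      = fun u => m * Real.cos (2 * u - γ) ^ 2 + (1 / m) *
        (Real.sin (κ * Real.cos (u - u0)) ^ 2 * Real.sin (2 * u - γ) ^ 2) := by
    funext u
    rw [harg]; ring
  rw [e4, av_add (by fun_prop) (by fun_prop), av_const_mul, av_const_mul, h1]
  have h7 := poly_ineq hy2 hy3 hy0
  rw [← hκ2] at h7
  have h8 : t / 4 - 5 / 96 * t ^ 2 + 7 / 1440 * t ^ 3 ≤ m - m ^ 2 / 2 := by
    have : m - m ^ 2 / 2 = (4 * (nu * h) - 3 - (nu * h) ^ 2) / 2 := by rw [hm]; ring
    rw [this]
    linarith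
  have h9 := mul_le_mul_of_nonneg_left (h2.trans h8) (by positivity : 0 ≤ 1 / m)
  have h10 : 1 / m * (m - m ^ 2 / 2) = 1 - m / 2 := by field_simp
  rw [h10] at h9
  linarith

end Pool.Agent.H18.Col
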