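import Pool.Agent.H18.Col.Lam

open MeasureTheory Set
open scoped Topology ContDiff ENNReal

noncomputable section

namespace Pool.Agent.H18.Col

open Pool.Agent.H74.FAC (E2 bv pt det_E2 pt_zero pt_one pt_eq)

/-- the kernel: a cone-type bump of total mass one supported in the ball of radius `ε` -/
def bet (ε : ℝ) (y : E2) : ℝ := 2 / (Real.pi * ε ^ 2) * max 0 (1 - ‖y‖ ^ 2 / ε ^ 2)

lemma bet_nonneg {ε : ℝ} (y : E2) : 0 ≤ bet ε y := by
  have := Real.pi_pos
  unfold bet
  positivity

lemma continuous_bet (ε : ℝ) : Continuous (bet ε) := by unfold bet; fun_prop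

lemma bet_zero {ε : ℝ} (hε : 0 < ε) {y : E2} (hy : ε ≤ ‖y‖) : bet ε y = 0 := by
  have : 1 - ‖y‖ ^ 2 / ε ^ 2 ≤ 0 := by
    rw [sub_nonpos, le_div_iff₀ (by positivity), one_mul]
    exact pow_le_pow_left₀ hε.le hy 2
  rw [bet, max_eq_left this, mul_zero]

lemma integral_bet {ε : ℝ} (hε : 0 < ε) : ∫ y : E2, bet ε y = 1 := by
  have hpi := Real.pi_pos
  have h := MeasureTheory.integral_fun_norm_addHaar (volume : Measure E2)
    (fun r : ℝ => 2 / (Real.pi * ε ^ 2) * max 0 (1 - r ^ 2 / ε ^ 2))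
  have e : (fun y : E2 => bet ε y) = fun y : E2 => 2 / (Real.pi * ε ^ 2) * max 0 (1 - ‖y‖ ^ 2 / ε ^ 2) :=
    rfl
  rw [e, h]
  have hdim : Module.finrank ℝ E2 = 2 := by simp
  have hball : (volume : Measure E2).real (Metric.ball 0 1) = Real.pi := by
    rw [measureReal_def, EuclideanSpace.volume_ball_fin_two]
    simp [hpi.le]
  rw [hdim, hball]
  have hint : ∫ y in Ioi (0 : ℝ), y ^ (2 - 1) • (2 / (Real.pi * ε ^ 2) * max 0 (1 - y ^ 2 / ε ^ 2))
      = 1 / (2 * Real.pi) := by
    have e2 : ∫ y in Ioi (0 : ℝ), y ^ (2 - 1) • (2 / (Real.pi * ε ^ 2) * max 0 (1 - y ^ 2 / ε ^ 2))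
        = ∫ y in Ioc (0 : ℝ) ε, 2 / (Real.pi * ε ^ 2) * (y - y ^ 3 / ε ^ 2) := by
      have e3 : ∫ y in Ioi (0 : ℝ), y ^ (2 - 1) • (2 / (Real.pi * ε ^ 2) * max 0 (1 - y ^ 2 / ε ^ 2))
          = ∫ y in Ioc (0 : ℝ) ε, y ^ (2 - 1) • (2 / (Real.pi * ε ^ 2) * max 0 (1 - y ^ 2 / ε ^ 2)) := by
        apply setIntegral_eq_of_subset_of_forall_sdiff_eq_zero measurableSet_Ioi Ioc_subset_Ioi_self
        intro y hy
        have h2 : ε < y := by
          by_contra hcon
          exact hy.2 ⟨hy.1, not_lt.1 hcon⟩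
        have h1 : 1 - y ^ 2 / ε ^ 2 ≤ 0 := by
          rw [sub_nonpos, le_div_iff₀ (by positivity), one_mul]
          exact pow_le_pow_left₀ hε.le h2.le 2
        rw [max_eq_left h1, mul_zero, smul_zero]
      rw [e3]
      apply setIntegral_congr_fun measurableSet_Ioc
      intro y hy
      have h1 : 0 ≤ 1 - y ^ 2 / ε ^ 2 := by
        rw [sub_nonneg, div_le_one (by positivity)]
        exact pow_le_pow_left₀ hy.1.le hy.2 2
      simp only [smul_eq_mul, max_eq_right h1]
      ring
    rw [e2, ← intervalIntegral.integral_of_le hε.le, intervalIntegral.integral_const_mul,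
      intervalIntegral.integral_sub (by simp) ((Continuous.intervalIntegrable (by fun_prop)) _ _),
      intervalIntegral.integral_div, integral_id, integral_pow]
    field_simp
    ring
  rw [hint]
  simp only [smul_eq_mul, nsmul_eq_mul]
  field_simp
  norm_num

lemma hasCompactSupport_bet {ε : ℝ} (hε : 0 < ε) : HasCompactSupport (bet ε) := by
  apply HasCompactSupport.of_support_subset_isCompact (isCompact_closedBall (0 : E2) ε)
  intro y hy
  by_contra h
  apply hy
  apply bet_zero hε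
  simp only [Metric.mem_closedBall, dist_zero_right, not_le] at h
  exact h.le

lemma lintegral_bet {ε : ℝ} (hε : 0 < ε) : ∫⁻ y : E2, ENNReal.ofReal (bet ε y) = 1 := by
  rw [← ofReal_integral_eq_lintegral_ofReal
    ((continuous_bet ε).integrable_of_hasCompactSupport (hasCompactSupport_bet hε))
    (Filter.Eventually.of_forall fun y => bet_nonneg y), integral_bet hε, ENNReal.ofReal_one]

lemma isClosed_Dsc : IsClosed Dsc := by
  have h0 : Continuous (fun x : E2 => x 0) := by fun_prop
  have h1 : Continuous (fun x : E2 => x 1) := by fun_prop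
  exact isClosed_le (by fun_prop) continuous_const

section
variable {w : E3 → ℝ} (hw : Adm w)
include hw

lemma continuousOn_FF : ContinuousOn (FF w) Dsc := fun _ hx =>
  (differentiableAt_FF hw hx).continuousAt.continuousWithinAt

/-- `F` is injective where it is small -/
lemma injOn_FF : InjOn (FF w) (Dsc ∩ {x | ‖FF w x‖ < 1}) := by
  rintro x ⟨hx, hx1⟩ y ⟨hy, hy1⟩ hxy
  have hX := XX_cap hx
  have hY := XX_cap hy
  have h0 : Fc w (XX x) = Fc w (XX y) := by
    have := congrArg (fun v : E2 => v 0) hxy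
    simpa [FF] using this
  have h1 : Fs w (XX x) = Fs w (XX y) := by
    have := congrArg (fun v : E2 => v 1) hxy
    simpa [FF] using this
  have hm := mono_smooth hw (norm_nonneg (FF w x)) (f1 := Fc w (XX x)) (f2 := Fs w (XX x))
    (by rw [FF, norm_pt_sq]) (le_of_lt hx1) hX hY
  rw [← h0, ← h1] at hm
  simp only [sub_self, zero_mul, add_zero] at hm
  have hr : 0 < (1 - ‖FF w x‖) / 2 := by
    have : ‖FF w x‖ < 1 := hx1
    linarith
  have hc : 1 - inner ℝ (XX x) (XX y) ^ 2 ≤ 0 := by
    by_contra hcon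
    have := mul_pos hr (not_le.1 hcon)
    linarith
  have hXn : ‖XX x‖ = 1 := by
    have := norm3_sq (XX x); rw [hX.unit] at this
    nlinarith [norm_nonneg (XX x)]
  have hYn : ‖XX y‖ = 1 := by
    have := norm3_sq (XX y); rw [hY.unit] at this
    nlinarith [norm_nonneg (XX y)]
  have hc1 : inner ℝ (XX x) (XX y) ≤ (1 : ℝ) := by
    have := real_inner_le_norm (XX x) (XX y)
    rwa [hXn, hYn, one_mul] at this
  have hc0 : 0 ≤ inner ℝ (XX x) (XX y) := by
    rw [inner3]
    have h1 := hX.unit; have h2 := hY.unit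
    have h3 := hX.half; have h4 := hY.half
    have h5 : 1 / 2 ≤ XX x 2 * XX y 2 := by
      have := mul_le_mul hX.le hY.le (Real.sqrt_nonneg _) hX.nonneg
      rwa [Real.mul_self_sqrt (by norm_num)] at this
    nlinarith [sq_nonneg (XX x 0 + XX y 0), sq_nonneg (XX x 1 + XX y 1)]
  have hc2 : inner ℝ (XX x) (XX y) = (1 : ℝ) := by nlinarith
  rw [inner_eq_one_iff_of_norm_eq_one hXn hYn] at hc2
  exact XX_inj (Dsc_lt hy) hc2

/-- the area estimate for smooth functions -/
lemma area_smooth {ε : ℝ} (hε : 0 < ε) (hε1 : ε ≤ 1 / 100) :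
    ENNReal.ofReal (1 - 100 * ε) * ∫⁻ x in Dsc, ENNReal.ofReal (bet ε (FF w x)) ≤ 1 := by
  set s : Set E2 := Dsc ∩ (FF w) ⁻¹' (Metric.ball 0 ε) with hs
  have hsm : MeasurableSet s := by
    obtain ⟨U, hU, hU2⟩ := (continuousOn_iff'.1 (continuousOn_FF hw)) _ (Metric.isOpen_ball (x := (0 : E2)) (ε := ε))
    rw [hs, inter_comm, hU2]
    exact hU.measurableSet.inter isClosed_Dsc.measurableSet
  have hsD : s ⊆ Dsc := inter_subset_left
  have h1 : ∫⁻ x in Dsc, ENNReal.ofReal (bet ε (FF w x)) = ∫⁻ x in s, ENNReal.ofReal (bet ε (FF w x)) := by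
    symm
    rw [← lintegral_indicator hsm, ← lintegral_indicator isClosed_Dsc.measurableSet]
    congr 1
    funext x
    by_cases hx : x ∈ s
    · rw [indicator_of_mem hx, indicator_of_mem (hsD hx)]
    · rw [indicator_of_notMem hx]
      by_cases hxD : x ∈ Dsc
      · rw [indicator_of_mem hxD]
        have : ε ≤ ‖FF w x‖ := by
          by_contra hcon
          exact hx ⟨hxD, by simpa using hcon⟩
        rw [bet_zero hε this, ENNReal.ofReal_zero]
      · rw [indicator_of_notMem hxD]
  rw [h1, ← lintegral_const_mul' _ _ ENNReal.ofReal_ne_top]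
  have h2 : ∀ x ∈ s, ENNReal.ofReal (1 - 100 * ε) * ENNReal.ofReal (bet ε (FF w x))
      ≤ ENNReal.ofReal |(fderiv ℝ (FF w) x).det| * ENNReal.ofReal (bet ε (FF w x)) := by
    intro x hx
    have hx2 : ‖FF w x‖ ≤ ε := by
      have := hx.2
      simp only [mem_preimage, Metric.mem_ball, dist_zero_right] at this
      exact this.le
    gcongr
    exact (det_FF hw hx.1 hx2).trans (le_abs_self _)
  refine (setLIntegral_mono' hsm h2).trans ?_
  have hinj : InjOn (FF w) s := by
    apply (injOn_FF hw).mono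
    intro x hx
    refine ⟨hx.1, ?_⟩
    have := hx.2
    simp only [mem_preimage, Metric.mem_ball, dist_zero_right] at this
    show ‖FF w x‖ < 1
    linarith
  rw [← lintegral_image_eq_lintegral_abs_det_fderiv_mul volume hsm
    (fun x hx => (differentiableAt_FF hw (hsD hx)).hasFDerivAt.hasFDerivWithinAt) hinj
    (fun y => ENNReal.ofReal (bet ε y))]
  exact (setLIntegral_le_lintegral _ _).trans (lintegral_bet hε).le

end

end Pool.Agent.H18.Col
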