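import Pool.Agent.H18.Col.Moll

open MeasureTheory Set InnerProductGeometry
open scoped Topology NNReal

noncomputable section

namespace Pool.Agent.H18.Col

section
variable {M ι : Type} [MetricSpace M] [Nonempty ι] (a : ι → E3) (b : ι → M)

/-- the McShane type extension of the spherical distance functions -/
def Wf (p : M) (Z : E3) : ℝ := Real.pi / 2 - ⨅ i, (angle Z (a i) + dist (b i) p)

omit [Nonempty ι] in
lemma Wf_bdd (p : M) (Z : E3) : BddBelow (range fun i => angle Z (a i) + dist (b i) p) :=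
  ⟨0, by rintro _ ⟨i, rfl⟩; exact add_nonneg (angle_nonneg _ _) dist_nonneg⟩

lemma Wf_lipS (p : M) : LipS (Wf a b p) := by
  have key : ∀ Z Z' : E3, ‖Z‖ = 1 → ‖Z'‖ = 1 → Wf a b p Z - Wf a b p Z' ≤ angle Z Z' := by
    intro Z Z' hZ hZ'
    have h : (⨅ i, (angle Z' (a i) + dist (b i) p)) - angle Z Z'
        ≤ ⨅ i, (angle Z (a i) + dist (b i) p) := by
      apply le_ciInf
      intro i
      have h1 := ciInf_le (Wf_bdd a b p Z') i
      have h2 : angle Z' (a i) ≤ angle Z' Z + angle Z (a i) := angle_le_angle_add_angle _ _ _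
      rw [angle_comm Z' Z] at h2
      linarith
    rw [Wf, Wf]
    linarith
  intro Z Z' hZ hZ'
  rw [abs_le]
  constructor
  · have := key Z' Z hZ' hZ
    rw [angle_comm] at this
    linarith
  · exact key Z Z' hZ hZ'

lemma Wf_lip (Z : E3) : LipschitzWith 1 (fun p => Wf a b p Z) := by
  apply LipschitzWith.of_dist_le_mul
  intro p q
  rw [NNReal.coe_one, one_mul]
  have key : ∀ p q : M, Wf a b p Z - Wf a b q Z ≤ dist p q := by
    intro p q
    have h : (⨅ i, (angle Z (a i) + dist (b i) q)) - dist p q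
        ≤ ⨅ i, (angle Z (a i) + dist (b i) p) := by
      apply le_ciInf
      intro i
      have h1 := ciInf_le (Wf_bdd a b q Z) i
      have h2 : dist (b i) q ≤ dist (b i) p + dist p q := dist_triangle _ _ _
      linarith
    rw [Wf, Wf]
    linarith
  rw [Real.dist_eq, abs_le]
  constructor
  · have := key q p
    rw [dist_comm] at this
    linarith
  · exact key p q

lemma Wf_val (hab : ∀ i j, angle (a i) (a j) ≤ dist (b i) (b j)) (j : ι) (Z : E3) :
    Wf a b (b j) Z = Real.pi / 2 - angle Z (a j) := by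
  rw [Wf]
  congr 1
  apply le_antisymm
  · have := ciInf_le (Wf_bdd a b (b j) Z) j
    simpa using this
  · apply le_ciInf
    intro i
    have h1 := hab i j
    have h2 : angle Z (a j) ≤ angle Z (a i) + angle (a i) (a j) := angle_le_angle_add_angle _ _ _
    linarith

/-- uniform bound -/
lemma Wf_bound [BoundedSpace M] :
    ∃ C : ℝ, 0 ≤ C ∧ ∀ p Z, |Wf a b p Z| ≤ C := by
  obtain ⟨D, hD⟩ := (Metric.isBounded_iff.1 (Bornology.IsBounded.all (univ : Set M)))
  have hpi := Real.pi_pos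
  refine ⟨3 * Real.pi + |D|, by positivity, fun p Z => ?_⟩
  obtain ⟨i0⟩ := (inferInstance : Nonempty ι)
  have h1 := ciInf_le (Wf_bdd a b p Z) i0
  have h2 : 0 ≤ ⨅ i, (angle Z (a i) + dist (b i) p) :=
    le_ciInf fun i => add_nonneg (angle_nonneg _ _) dist_nonneg
  have h3 := hD (mem_univ (b i0)) (mem_univ p)
  have h4 := angle_le_pi Z (a i0)
  have h5 := le_abs_self D
  rw [Wf, abs_le]
  constructor <;> linarith

end

/-- the radial projection of the hemisphere minus the cap to the boundary of the cap -/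
def proj (y : E3) : E3 := v3 (y 0 / Real.sqrt (2 * (y 0 ^ 2 + y 1 ^ 2)))
  (y 1 / Real.sqrt (2 * (y 0 ^ 2 + y 1 ^ 2))) (1 / Real.sqrt 2)

/-- the collar of width `π/4` of the unit hemisphere -/
def collar : Set E3 := {y | ‖y‖ = 1 ∧ 0 ≤ y 2 ∧ y 2 ≤ Real.sqrt 2 / 2}

lemma collar_sq {y : E3} (hy : y ∈ collar) : y 0 ^ 2 + y 1 ^ 2 + y 2 ^ 2 = 1 := by
  rw [← norm3_sq, hy.1]; norm_num

lemma collar_half {y : E3} (hy : y ∈ collar) : 1 / 2 ≤ y 0 ^ 2 + y 1 ^ 2 := by
  have h1 := collar_sq hy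
  have h2 : y 2 ^ 2 ≤ (Real.sqrt 2 / 2) ^ 2 := pow_le_pow_left₀ hy.2.1 hy.2.2 2
  rw [div_pow, Real.sq_sqrt (by norm_num)] at h2
  linarith

lemma norm_proj {y : E3} (hy : y ∈ collar) : ‖proj y‖ = 1 := by
  have h1 := collar_half hy
  have h2 : ‖proj y‖ ^ 2 = 1 := by
    rw [norm3_sq, proj]
    simp only [v3_zero, v3_one, v3_two, div_pow]
    rw [Real.sq_sqrt (by linarith), Real.sq_sqrt (by norm_num)]
    field_simp
    ring
  nlinarith [norm_nonneg (proj y)]

/-- the projection does not increase angles -/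
lemma angle_proj_le {y z : E3} (hy : y ∈ collar) (hz : z ∈ collar) :
    angle (proj y) (proj z) ≤ angle y z := by
  rw [angle, angle, norm_proj hy, norm_proj hz, hy.1, hz.1]
  apply Real.arccos_le_arccos
  apply div_le_div_of_nonneg_right _ (by norm_num)
  rw [inner3, inner3, proj, proj]
  simp only [v3_zero, v3_one, v3_two]
  have h1 := collar_half hy
  have h2 := collar_half hz
  have h3 := collar_sq hy
  have h4 := collar_sq hz
  set r := Real.sqrt (y 0 ^ 2 + y 1 ^ 2) with hr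
  set s := Real.sqrt (z 0 ^ 2 + z 1 ^ 2) with hs
  have hr2 : r ^ 2 = y 0 ^ 2 + y 1 ^ 2 := Real.sq_sqrt (by linarith)
  have hs2 : s ^ 2 = z 0 ^ 2 + z 1 ^ 2 := Real.sq_sqrt (by linarith)
  have hr0 : 0 < r := Real.sqrt_pos.2 (by linarith)
  have hs0 : 0 < s := Real.sqrt_pos.2 (by linarith)
  have e1 : Real.sqrt (2 * (y 0 ^ 2 + y 1 ^ 2)) = Real.sqrt 2 * r := by
    rw [Real.sqrt_mul (by norm_num)]
  have e2 : Real.sqrt (2 * (z 0 ^ 2 + z 1 ^ 2)) = Real.sqrt 2 * s := by
    rw [Real.sqrt_mul (by norm_num)]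
  rw [e1, e2]
  have h22 : Real.sqrt 2 ^ 2 = 2 := Real.sq_sqrt (by norm_num)
  have h20 : 0 < Real.sqrt 2 := Real.sqrt_pos.2 (by norm_num)
  set D := y 0 * z 0 + y 1 * z 1 with hD
  have e3 : y 0 / (Real.sqrt 2 * r) * (z 0 / (Real.sqrt 2 * s))
      + y 1 / (Real.sqrt 2 * r) * (z 1 / (Real.sqrt 2 * s)) + 1 / Real.sqrt 2 * (1 / Real.sqrt 2)
      = D / (2 * (r * s)) + 1 / 2 := by
    have e4 : ∀ q : ℝ, q ≠ 0 → q ^ 2 = 2 → y 0 / (q * r) * (z 0 / (q * s))
      + y 1 / (q * r) * (z 1 / (q * s)) + 1 / q * (1 / q)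
      = D / (2 * (r * s)) + 1 / 2 := by
      intro q hq hq2
      have e5 : y 0 / (q * r) * (z 0 / (q * s)) + y 1 / (q * r) * (z 1 / (q * s)) + 1 / q * (1 / q)
        = D / (q ^ 2 * (r * s)) + 1 / q ^ 2 := by
        rw [hD]
        field_simp
      rw [e5, hq2]
    exact e4 _ h20.ne' h22
  rw [e3]
  have hDle : D ≤ r * s := by
    apply le_of_sq_le_sq _ (mul_pos hr0 hs0).le
    rw [mul_pow, hr2, hs2, hD]
    nlinarith [sq_nonneg (y 0 * z 1 - y 1 * z 0)]
  have hrs : 1 / 2 ≤ r * s := by nlinarith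
  have hyz : y 2 * z 2 ≤ 1 - r * s := by nlinarith [sq_nonneg (y 2 - z 2), sq_nonneg (r - s)]
  have hrs0 : 0 < r * s := mul_pos hr0 hs0
  have h5 : D * (1 - 1 / (2 * (r * s))) ≤ (r * s) * (1 - 1 / (2 * (r * s))) := by
    apply mul_le_mul_of_nonneg_right hDle
    rw [sub_nonneg, div_le_one (by linarith)]
    linarith
  have h6 : (r * s) * (1 - 1 / (2 * (r * s))) = r * s - 1 / 2 := by field_simp
  have h7 : D * (1 - 1 / (2 * (r * s))) = D - D / (2 * (r * s)) := by ring
  linarith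

end Pool.Agent.H18.Col
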