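import Pool.Agent.H18.Col.LipArea
import Pool.Agent.H18.Col.Wfun

open MeasureTheory Set InnerProductGeometry Filter
open scoped Topology ContDiff ENNReal

noncomputable section

namespace Pool.Agent.H18.Col

open Pool.Agent.H74.FAC (E2 bv pt det_E2 pt_zero pt_one pt_eq)

/-- points of the boundary circle of the cap -/
structure OnBd (Y : E3) : Prop where
  unit : Y 0 ^ 2 + Y 1 ^ 2 + Y 2 ^ 2 = 1
  nonneg : 0 ≤ Y 2
  half : Y 2 ^ 2 = 1 / 2

lemma OnBd.cap {Y : E3} (h : OnBd Y) : InCap Y := ⟨h.unit, h.nonneg, h.half.ge⟩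

lemma OnBd.two {Y : E3} (h : OnBd Y) : Y 2 = Real.sqrt (1 / 2) := by
  rw [← h.half, Real.sqrt_sq h.nonneg]

lemma norm_of_unit {Z : E3} (h : Z 0 ^ 2 + Z 1 ^ 2 + Z 2 ^ 2 = 1) : ‖Z‖ = 1 := by
  rw [← norm3_sq] at h
  nlinarith [norm_nonneg Z]

lemma proj_bd {y : E3} (hy : y ∈ collar) : OnBd (proj y) := by
  have h1 := norm_proj hy
  refine ⟨?_, ?_, ?_⟩
  · rw [← norm3_sq, h1]; norm_num
  · rw [proj, v3_two]; positivity
  · rw [proj, v3_two, div_pow, Real.sq_sqrt (by norm_num)]; norm_num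

lemma pi_sub_angle {Z Y : E3} (hZ : ‖Z‖ = 1) (hY : ‖Y‖ = 1) :
    Real.pi / 2 - angle Z Y = Real.arcsin (inner ℝ Z Y) := by
  rw [angle, hZ, hY, mul_one, div_one, Real.arccos]
  ring

/-- the integral of `cos · tau` -/
lemma int_cos_tau (Y : E3) :
    ∫ u in (0 : ℝ)..(2 * Real.pi), Real.cos u * (nu * tau Y u) = nu * Real.pi * Y 0 := by
  have e : ∀ u, Real.cos u * (nu * tau Y u)
      = nu * Y 0 * Real.cos u ^ 2 + nu * Y 1 * (Real.sin u * Real.cos u) := by
    intro u; rw [tau]; ring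
  simp only [e]
  rw [intervalIntegral.integral_add (Continuous.intervalIntegrable (by fun_prop) _ _)
    (Continuous.intervalIntegrable (by fun_prop) _ _), intervalIntegral.integral_const_mul,
    intervalIntegral.integral_const_mul, integral_cos_sq, integral_sin_mul_cos₁]
  simp
  ring

lemma int_sin_tau (Y : E3) :
    ∫ u in (0 : ℝ)..(2 * Real.pi), Real.sin u * (nu * tau Y u) = nu * Real.pi * Y 1 := by
  have e : ∀ u, Real.sin u * (nu * tau Y u)
      = nu * Y 1 * Real.sin u ^ 2 + nu * Y 0 * (Real.sin u * Real.cos u) := by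
    intro u; rw [tau]; ring
  simp only [e]
  rw [intervalIntegral.integral_add (Continuous.intervalIntegrable (by fun_prop) _ _)
    (Continuous.intervalIntegrable (by fun_prop) _ _), intervalIntegral.integral_const_mul,
    intervalIntegral.integral_const_mul, integral_sin_sq, integral_sin_mul_cos₁]
  simp
  ring

/-- the map `F` of the distance function from a boundary point vanishes there -/
lemma F_zero {Y : E3} (hY : OnBd Y) {w : E3 → ℝ}
    (hw : ∀ Z : E3, ‖Z‖ = 1 → w Z = Real.pi / 2 - angle Z Y) :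
    Fc w Y = 0 ∧ Fs w Y = 0 := by
  have hpi := Real.pi_gt_d2
  have hYn := norm_of_unit hY.unit
  have hp := hY.cap.pos
  have hval : ∀ u, w (ZZ Y u) = nu * tau Y u := by
    intro u
    have hZ := norm_ZZ hY.unit hp u
    rw [hw _ hZ, pi_sub_angle hZ hYn, ZZ, inner_add_left, real_inner_smul_left,
      real_inner_smul_left, inner_X_X hY.unit, real_inner_comm, inner_X_dd hY.unit hp, mul_one,
      mul_zero, add_zero]
    have h1 : tau Y u ^ 2 ≤ 1 / 2 := by
      have h2 := Real.sin_sq_add_cos_sq u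
      have h3 := hY.unit
      have h4 := hY.half
      have h5 : tau Y u ^ 2 + tau' Y u ^ 2 = Y 0 ^ 2 + Y 1 ^ 2 := by
        simp only [tau, tau']; linear_combination (Y 0 ^ 2 + Y 1 ^ 2) * h2
      nlinarith [sq_nonneg (tau' Y u)]
    have h6 : |nu * tau Y u| ≤ 157 / 100 := by
      apply abs_le_of_sq_le_sq _ (by norm_num)
      rw [mul_pow, nu]
      nlinarith
    have h7 := abs_le.1 h6
    exact Real.arcsin_sin (by linarith [h7.1]) (by linarith [h7.2])
  have h0 := Real.pi_pos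
  constructor
  · rw [Fc]
    simp only [hval]
    rw [int_cos_tau]
    field_simp
    ring
  · rw [Fs]
    simp only [hval]
    rw [int_sin_tau]
    field_simp
    ring

/-- the frame components of a unit vector -/
lemma frame_sq {X Y : E3} (hX : InCap X) (hY : ‖Y‖ = 1) :
    (inner ℝ (dd X 0) Y : ℝ) ^ 2 + (inner ℝ (jd X 0) Y : ℝ) ^ 2 = 1 - (inner ℝ X Y : ℝ) ^ 2 := by
  set V : E3 := Y - (inner ℝ X Y : ℝ) • X with hV
  have hXX := inner_X_X hX.unit
  have hXV : inner ℝ X V = (0 : ℝ) := by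
    rw [hV, inner_sub_right, real_inner_smul_right, hXX]; ring
  have hXV' : X 0 * V 0 + X 1 * V 1 + X 2 * V 2 = 0 := by rw [← inner3]; exact hXV
  have h1 := norm_V_sq hX.unit hX.pos hXV'
  have e1 : d1 X V = inner ℝ (dd X 0) Y := by
    rw [d1, hV, inner_sub_right, real_inner_smul_right, real_inner_comm X (dd X 0),
      inner_X_dd hX.unit hX.pos]
    ring
  have e2 : d2 X V = inner ℝ (jd X 0) Y := by
    rw [d2, hV, inner_sub_right, real_inner_smul_right, real_inner_comm X (jd X 0),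
      inner_X_jd hX.unit hX.pos]
    ring
  rw [e1, e2] at h1
  rw [← h1, ← real_inner_self_eq_norm_sq, hV, inner_sub_left, inner_sub_right, inner_sub_right,
    real_inner_smul_right, real_inner_smul_left, real_inner_smul_left, real_inner_smul_right,
    hXX, real_inner_self_eq_norm_sq, hY, real_inner_comm X Y]
  ring

/-- separation between interior points and boundary points of the cap -/
lemma sep_bd {X Y : E3} (hX : InCap X) (hY : OnBd Y) :
    (X 2 - Real.sqrt (1 / 2)) ^ 2 / 2 ≤ 1 - (inner ℝ X Y : ℝ) ^ 2 := by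
  have h1 := hX.unit
  have h2 := hY.unit
  have h3 := hY.half
  have h4 := hX.half
  have h5 := hY.two
  rw [← h5, inner3]
  have h6 : 0 ≤ X 0 * Y 0 + X 1 * Y 1 + X 2 * Y 2 := by
    have h7 : 1 / 2 ≤ X 2 * Y 2 := by
      apply le_of_sq_le_sq _ (mul_nonneg hX.nonneg hY.nonneg)
      rw [mul_pow, h3]
      nlinarith
    have h8 : |X 0 * Y 0 + X 1 * Y 1| ≤ 1 / 2 := by
      apply abs_le_of_sq_le_sq _ (by norm_num)
      have : (X 0 * Y 0 + X 1 * Y 1) ^ 2 ≤ (X 0 ^ 2 + X 1 ^ 2) * (Y 0 ^ 2 + Y 1 ^ 2) := by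
        nlinarith [sq_nonneg (X 0 * Y 1 - X 1 * Y 0)]
      have h9 : Y 0 ^ 2 + Y 1 ^ 2 = 1 / 2 := by linarith
      have h10 : X 0 ^ 2 + X 1 ^ 2 ≤ 1 / 2 := by linarith
      rw [h9] at this
      nlinarith
    have := (abs_le.1 h8).1
    linarith
  have h7 : X 0 * Y 0 + X 1 * Y 1 + X 2 * Y 2 ≤ 1 - (X 2 - Y 2) ^ 2 / 2 := by
    nlinarith [sq_nonneg (X 0 - Y 0), sq_nonneg (X 1 - Y 1)]
  have h8 : 0 ≤ (X 2 - Y 2) ^ 2 := sq_nonneg _
  nlinarith

/-- the key boundary estimate -/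
lemma F_bd {w : E3 → ℝ} (hw : LipS w) {X Y : E3} (hX : InCap X) (hY : OnBd Y)
    (hwY : ∀ Z : E3, ‖Z‖ = 1 → w Z = Real.pi / 2 - angle Z Y) :
    (X 2 - Real.sqrt (1 / 2)) ^ 2 / 4 ≤
      Fc w X * inner ℝ (dd X 0) Y + Fs w X * inner ℝ (jd X 0) Y := by
  have h1 := mono_lip hw hX hY.cap
  obtain ⟨h2, h3⟩ := F_zero hY hwY
  rw [h2, h3] at h1
  have h4 := sep_bd hX hY
  linarith

/-- the lower bound for the norm of `F` -/
lemma F_norm_bd {w : E3 → ℝ} (hw : LipS w) {X Y : E3} (hX : InCap X) (hY : OnBd Y)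
    (hwY : ∀ Z : E3, ‖Z‖ = 1 → w Z = Real.pi / 2 - angle Z Y) :
    (X 2 - Real.sqrt (1 / 2)) ^ 2 / 4 ≤ ‖pt (Fc w X) (Fs w X)‖ := by
  have h1 := F_bd hw hX hY hwY
  have h2 := frame_sq hX (norm_of_unit hY.unit)
  apply le_of_sq_le_sq _ (norm_nonneg _)
  rw [norm_pt_sq]
  set a : ℝ := inner ℝ (dd X 0) Y
  set b : ℝ := inner ℝ (jd X 0) Y
  have h3 : a ^ 2 + b ^ 2 ≤ 1 := by rw [h2]; nlinarith [sq_nonneg (inner ℝ X Y : ℝ)]
  have h4 : 0 ≤ (X 2 - Real.sqrt (1 / 2)) ^ 2 / 4 := by positivity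
  calc ((X 2 - Real.sqrt (1 / 2)) ^ 2 / 4) ^ 2 ≤ (Fc w X * a + Fs w X * b) ^ 2 :=
        pow_le_pow_left₀ h4 h1 2
    _ ≤ (Fc w X ^ 2 + Fs w X ^ 2) * (a ^ 2 + b ^ 2) := by
        nlinarith [sq_nonneg (Fc w X * b - Fs w X * a)]
    _ ≤ (Fc w X ^ 2 + Fs w X ^ 2) * 1 := mul_le_mul_of_nonneg_left h3 (by positivity)
    _ = Fc w X ^ 2 + Fs w X ^ 2 := mul_one _

/-- the boundary circle of the cap -/
def cc (t : ℝ) : E3 :=
  v3 (Real.sqrt (1 / 2) * Real.cos t) (Real.sqrt (1 / 2) * Real.sin t) (Real.sqrt (1 / 2))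

lemma cc_bd (t : ℝ) : OnBd (cc t) := by
  have h := Real.sin_sq_add_cos_sq t
  have h2 : Real.sqrt (1 / 2) ^ 2 = 1 / 2 := Real.sq_sqrt (by norm_num)
  refine ⟨?_, ?_, ?_⟩
  · simp only [cc, v3_zero, v3_one, v3_two]
    linear_combination (Real.sin t ^ 2 + Real.cos t ^ 2) * h2 + 1 / 2 * h + h2
  · simp only [cc, v3_two]; positivity
  · simp only [cc, v3_two]; exact h2

/-- positivity of the angle between the frame components of `cc t` and the radial vector -/
lemma frame_pos {X : E3} (hX : InCap X) (h : Real.sqrt (1 / 2) < X 2) (t : ℝ) :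
    0 < inner ℝ (dd X 0) (cc t) * Real.cos t + inner ℝ (jd X 0) (cc t) * Real.sin t := by
  have e : inner ℝ (dd X 0) (cc t) * Real.cos t + inner ℝ (jd X 0) (cc t) * Real.sin t
      = (inner ℝ (dd X t) (cc t) : ℝ) := by
    rw [inner_dd_eq X (cc t) t, d1, d2]; ring
  rw [e, inner3, dd, cc]
  simp only [v3_zero, v3_one, v3_two]
  have hp := hX.pos
  have hu := hX.unit
  have hsc := Real.sin_sq_add_cos_sq t
  set q := Real.sqrt (1 / 2) with hq
  have hq2 : q ^ 2 = 1 / 2 := Real.sq_sqrt (by norm_num)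
  have hq0 : 0 < q := Real.sqrt_pos.2 (by norm_num)
  have e2 : (Real.cos t - tau X t * X 0 / (1 + X 2)) * (q * Real.cos t)
      + (Real.sin t - tau X t * X 1 / (1 + X 2)) * (q * Real.sin t) + -tau X t * q
      = q * (1 - tau X t ^ 2 / (1 + X 2) - tau X t) := by
    have : tau X t = X 0 * Real.cos t + X 1 * Real.sin t := rfl
    have e3 : (Real.cos t - tau X t * X 0 / (1 + X 2)) * (q * Real.cos t)
      + (Real.sin t - tau X t * X 1 / (1 + X 2)) * (q * Real.sin t) + -tau X t * q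
      = q * ((Real.sin t ^ 2 + Real.cos t ^ 2)
        - tau X t * (X 0 * Real.cos t + X 1 * Real.sin t) / (1 + X 2) - tau X t) := by ring
    rw [e3, hsc, ← this]
    ring
  rw [e2]
  apply mul_pos hq0
  have h5 : tau X t ^ 2 + tau' X t ^ 2 = X 0 ^ 2 + X 1 ^ 2 := by
    simp only [tau, tau']; linear_combination (X 0 ^ 2 + X 1 ^ 2) * hsc
  have h6 : tau X t ^ 2 ≤ 1 - X 2 ^ 2 := by nlinarith [sq_nonneg (tau' X t)]
  have h7 : tau X t ^ 2 / (1 + X 2) ≤ 1 - X 2 := by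
    rw [div_le_iff₀ hp]; nlinarith
  have h8 : |tau X t| < X 2 := by
    apply abs_lt_of_sq_lt_sq _ hX.nonneg
    nlinarith
  have h9 := (abs_lt.1 h8).2
  linarith

end Pool.Agent.H18.Col
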