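import Mathlib

open MeasureTheory Set
open scoped Topology NNReal

noncomputable section

namespace Pool.Agent.H18.Col

/-- bounded and Lipschitz on the basic interval -/
def BL (f : ℝ → ℝ) : Prop := ∃ C : ℝ, 0 ≤ C ∧ (∀ t ∈ Icc (0 : ℝ) (2 * Real.pi), |f t| ≤ C) ∧
  ∀ s ∈ Icc (0 : ℝ) (2 * Real.pi), ∀ t ∈ Icc (0 : ℝ) (2 * Real.pi), |f s - f t| ≤ C * |s - t|

lemma BL.of_lip {K : ℝ≥0} {f : ℝ → ℝ} (hf : LipschitzWith K f) : BL f := by
  obtain ⟨C, hC⟩ := (isCompact_Icc (a := (0 : ℝ)) (b := 2 * Real.pi)).exists_bound_of_continuousOn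
    hf.continuous.continuousOn
  refine ⟨max (max C K) 0, le_max_right _ _, fun t ht => ?_, fun s _ t _ => ?_⟩
  · exact (hC t ht).trans ((le_max_left _ _).trans (le_max_left _ _))
  · have h1 := hf.dist_le_mul s t
    rw [Real.dist_eq, Real.dist_eq] at h1
    refine h1.trans (mul_le_mul_of_nonneg_right ?_ (abs_nonneg _))
    exact (le_max_right _ _).trans (le_max_left _ _)

lemma BL.add {f g : ℝ → ℝ} (hf : BL f) (hg : BL g) : BL (fun t => f t + g t) := by
  obtain ⟨C, hC0, hC1, hC2⟩ := hf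
  obtain ⟨D, hD0, hD1, hD2⟩ := hg
  refine ⟨C + D, by positivity, fun t ht => ?_, fun s hs t ht => ?_⟩
  · exact (abs_add_le _ _).trans (add_le_add (hC1 t ht) (hD1 t ht))
  · have e : f s + g s - (f t + g t) = (f s - f t) + (g s - g t) := by ring
    rw [e, add_mul]
    exact (abs_add_le _ _).trans (add_le_add (hC2 s hs t ht) (hD2 s hs t ht))

lemma BL.neg {f : ℝ → ℝ} (hf : BL f) : BL (fun t => -f t) := by
  obtain ⟨C, hC0, hC1, hC2⟩ := hf
  refine ⟨C, hC0, fun t ht => by rw [abs_neg]; exact hC1 t ht, fun s hs t ht => ?_⟩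
  have e : -f s - -f t = -(f s - f t) := by ring
  rw [e, abs_neg]
  exact hC2 s hs t ht

lemma BL.sub {f g : ℝ → ℝ} (hf : BL f) (hg : BL g) : BL (fun t => f t - g t) := by
  have := hf.add hg.neg
  simpa only [← sub_eq_add_neg] using this

lemma BL.mul {f g : ℝ → ℝ} (hf : BL f) (hg : BL g) : BL (fun t => f t * g t) := by
  obtain ⟨C, hC0, hC1, hC2⟩ := hf
  obtain ⟨D, hD0, hD1, hD2⟩ := hg
  refine ⟨2 * (C * D), by positivity, fun t ht => ?_, fun s hs t ht => ?_⟩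
  · rw [abs_mul]
    have := mul_le_mul (hC1 t ht) (hD1 t ht) (abs_nonneg _) hC0
    nlinarith [mul_nonneg hC0 hD0]
  · have e : f s * g s - f t * g t = (f s - f t) * g s + f t * (g s - g t) := by ring
    rw [e]
    refine (abs_add_le _ _).trans ?_
    rw [abs_mul, abs_mul]
    have h1 := mul_le_mul (hC2 s hs t ht) (hD1 s hs) (abs_nonneg _) (by positivity)
    have h2 := mul_le_mul (hC1 t ht) (hD2 s hs t ht) (abs_nonneg _) hC0
    linarith

lemma BL.continuousOn {f : ℝ → ℝ} (hf : BL f) : ContinuousOn f (Icc 0 (2 * Real.pi)) := by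
  obtain ⟨C, hC0, hC1, hC2⟩ := hf
  have : LipschitzOnWith C.toNNReal f (Icc 0 (2 * Real.pi)) := by
    apply LipschitzOnWith.of_dist_le_mul
    intro s hs t ht
    rw [Real.dist_eq, Real.dist_eq, Real.coe_toNNReal _ hC0]
    exact hC2 s hs t ht
  exact this.continuousOn

lemma BL.low {f : ℝ → ℝ} (hf : BL f) (hpos : ∀ t ∈ Icc (0 : ℝ) (2 * Real.pi), 0 < f t) :
    ∃ δ : ℝ, 0 < δ ∧ ∀ t ∈ Icc (0 : ℝ) (2 * Real.pi), δ ≤ f t := by
  have hpi := Real.pi_pos
  obtain ⟨t0, ht0, hmin⟩ := (isCompact_Icc (a := (0 : ℝ)) (b := 2 * Real.pi)).exists_isMinOn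
    ⟨0, by constructor <;> positivity⟩ hf.continuousOn
  exact ⟨f t0, hpos t0 ht0, fun t ht => hmin ht⟩

lemma BL.inv {f : ℝ → ℝ} (hf : BL f) (hpos : ∀ t ∈ Icc (0 : ℝ) (2 * Real.pi), 0 < f t) :
    BL (fun t => (f t)⁻¹) := by
  obtain ⟨δ, hδ, hlow⟩ := hf.low hpos
  obtain ⟨C, hC0, hC1, hC2⟩ := hf
  refine ⟨1 / δ + C / δ ^ 2, by positivity, fun t ht => ?_, fun s hs t ht => ?_⟩
  · have h1 := hlow t ht
    rw [abs_of_pos (inv_pos.2 (hpos t ht))]
    have : (f t)⁻¹ ≤ 1 / δ := by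
      rw [one_div]
      exact inv_anti₀ hδ h1
    have : 0 ≤ C / δ ^ 2 := by positivity
    linarith
  · have h1 := hlow t ht
    have h2 := hlow s hs
    have p1 := hpos t ht
    have p2 := hpos s hs
    have e : (f s)⁻¹ - (f t)⁻¹ = -((f s - f t) / (f s * f t)) := by field_simp; ring
    rw [e, abs_neg, abs_div, abs_of_pos (mul_pos p2 p1), div_le_iff₀ (mul_pos p2 p1)]
    have h3 : δ ^ 2 ≤ f s * f t := by nlinarith
    calc |f s - f t| ≤ C * |s - t| := hC2 s hs t ht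
      _ = C / δ ^ 2 * |s - t| * δ ^ 2 := by field_simp
      _ ≤ (1 / δ + C / δ ^ 2) * |s - t| * (f s * f t) := by
          apply mul_le_mul _ h3 (by positivity) (by positivity)
          apply mul_le_mul_of_nonneg_right _ (abs_nonneg _)
          have : 0 ≤ 1 / δ := by positivity
          linarith

lemma abs_arctan_sub (x y : ℝ) : |Real.arctan x - Real.arctan y| ≤ |x - y| := by
  have h : LipschitzWith 1 Real.arctan := by
    apply lipschitzWith_of_nnnorm_deriv_le Real.differentiable_arctan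
    intro x
    rw [← NNReal.coe_le_coe, coe_nnnorm, Real.deriv_arctan, Real.norm_eq_abs,
      abs_of_pos (by positivity), NNReal.coe_one, div_le_one (by positivity)]
    nlinarith [sq_nonneg x]
  have := h.dist_le_mul x y
  rw [Real.dist_eq, Real.dist_eq, NNReal.coe_one, one_mul] at this
  exact this

/-- the angular form -/
def wom (f1 f2 : ℝ → ℝ) (t : ℝ) : ℝ :=
  (f1 t * deriv f2 t - f2 t * deriv f1 t) / (f1 t ^ 2 + f2 t ^ 2)

lemma wom_integrable {f1 f2 : ℝ → ℝ} {K : ℝ≥0} (h1 : LipschitzWith K f1) (h2 : LipschitzWith K f2)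
    (hpos : ∀ t, 0 < f1 t ^ 2 + f2 t ^ 2) :
    IntervalIntegrable (wom f1 f2) volume 0 (2 * Real.pi) := by
  have hpi := Real.pi_pos
  have b1 := BL.of_lip h1
  have b2 := BL.of_lip h2
  have bq : BL (fun t => f1 t ^ 2 + f2 t ^ 2) := by
    have := (b1.mul b1).add (b2.mul b2)
    simpa only [← pow_two] using this
  obtain ⟨δ, hδ, hlow⟩ := bq.low (fun t _ => hpos t)
  obtain ⟨C, hC0, hC1, -⟩ := b1
  obtain ⟨D, hD0, hD1, -⟩ := b2
  rw [intervalIntegrable_iff]
  apply Measure.integrableOn_of_bounded (M := (C * K + D * K) / δ)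
    (by rw [Real.volume_uIoc]; exact ENNReal.ofReal_ne_top)
  · exact (((h1.continuous.measurable.mul (measurable_deriv _)).sub
        (h2.continuous.measurable.mul (measurable_deriv _))).div
        ((h1.continuous.pow 2).add (h2.continuous.pow 2)).measurable).aestronglyMeasurable
  · rw [ae_restrict_iff' measurableSet_uIoc]
    filter_upwards with t ht
    have ht' : t ∈ Icc (0 : ℝ) (2 * Real.pi) := by
      rw [uIoc_of_le (by positivity)] at ht
      exact Ioc_subset_Icc_self ht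
    have d1 : |deriv f1 t| ≤ K := norm_deriv_le_of_lipschitz h1
    have d2 : |deriv f2 t| ≤ K := norm_deriv_le_of_lipschitz h2
    rw [wom, norm_div, Real.norm_eq_abs, Real.norm_eq_abs, abs_of_pos (hpos t)]
    have hnum : |f1 t * deriv f2 t - f2 t * deriv f1 t| ≤ C * K + D * K := by
      refine (abs_sub _ _).trans ?_
      rw [abs_mul, abs_mul]
      exact add_le_add (mul_le_mul (hC1 t ht') d2 (abs_nonneg _) hC0)
        (mul_le_mul (hD1 t ht') d1 (abs_nonneg _) hD0)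
    exact div_le_div₀ (by positivity) hnum hδ (hlow t ht')

lemma wind_alg {f1 f2 g1 g2 p1 p2 q1 q2 : ℝ} (hf : 0 < f1 ^ 2 + f2 ^ 2) (hg : 0 < g1 ^ 2 + g2 ^ 2)
    (hD : 0 < f1 * g1 + f2 * g2) :
    1 / (1 + ((f1 * g2 - f2 * g1) * (f1 * g1 + f2 * g2)⁻¹) ^ 2) *
      ((p1 * g2 + f1 * q2 - (p2 * g1 + f2 * q1)) * (f1 * g1 + f2 * g2)⁻¹ +
        (f1 * g2 - f2 * g1) * (-(p1 * g1 + f1 * q1 + (p2 * g2 + f2 * q2)) /
            (f1 * g1 + f2 * g2) ^ 2))
    = (g1 * q2 - g2 * q1) / (g1 ^ 2 + g2 ^ 2) - (f1 * p2 - f2 * p1) / (f1 ^ 2 + f2 ^ 2) := by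
  have aux : ∀ N D N' D' : ℝ, 0 < D → 1 / (1 + (N * D⁻¹) ^ 2) * (N' * D⁻¹ + N * (-D' / D ^ 2))
      = (N' * D - N * D') / (D ^ 2 + N ^ 2) := by
    intro N D N' D' hD
    have : 0 < D ^ 2 + N ^ 2 := by positivity
    field_simp
    ring
  rw [aux _ _ _ _ hD]
  have e1 : (f1 * g1 + f2 * g2) ^ 2 + (f1 * g2 - f2 * g1) ^ 2
      = (f1 ^ 2 + f2 ^ 2) * (g1 ^ 2 + g2 ^ 2) := by ring
  have e2 : (p1 * g2 + f1 * q2 - (p2 * g1 + f2 * q1)) * (f1 * g1 + f2 * g2)
      - (f1 * g2 - f2 * g1) * (p1 * g1 + f1 * q1 + (p2 * g2 + f2 * q2))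
      = (f1 ^ 2 + f2 ^ 2) * (g1 * q2 - g2 * q1) - (g1 ^ 2 + g2 ^ 2) * (f1 * p2 - f2 * p1) := by ring
  rw [e1, e2]
  field_simp

/-- two Lipschitz loops at acute angles have the same winding number -/
theorem wind_eq {f1 f2 g1 g2 : ℝ → ℝ} {K : ℝ≥0} (hf1 : LipschitzWith K f1)
    (hf2 : LipschitzWith K f2) (hg1 : LipschitzWith K g1) (hg2 : LipschitzWith K g2)
    (pf1 : f1 (2 * Real.pi) = f1 0) (pf2 : f2 (2 * Real.pi) = f2 0)
    (pg1 : g1 (2 * Real.pi) = g1 0) (pg2 : g2 (2 * Real.pi) = g2 0)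
    (hpos : ∀ t, 0 < f1 t * g1 t + f2 t * g2 t) :
    ∫ t in (0 : ℝ)..(2 * Real.pi), wom f1 f2 t = ∫ t in (0 : ℝ)..(2 * Real.pi), wom g1 g2 t := by
  have hpi := Real.pi_pos
  have hf : ∀ t, 0 < f1 t ^ 2 + f2 t ^ 2 := by
    intro t
    rcases (by positivity : 0 ≤ f1 t ^ 2 + f2 t ^ 2).lt_or_eq with h | h
    · exact h
    · have a1 : f1 t = 0 := by nlinarith [sq_nonneg (f1 t), sq_nonneg (f2 t)]
      have a2 : f2 t = 0 := by nlinarith [sq_nonneg (f1 t), sq_nonneg (f2 t)]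
      have := hpos t
      rw [a1, a2] at this
      simp at this
  have hg : ∀ t, 0 < g1 t ^ 2 + g2 t ^ 2 := by
    intro t
    rcases (by positivity : 0 ≤ g1 t ^ 2 + g2 t ^ 2).lt_or_eq with h | h
    · exact h
    · have a1 : g1 t = 0 := by nlinarith [sq_nonneg (g1 t), sq_nonneg (g2 t)]
      have a2 : g2 t = 0 := by nlinarith [sq_nonneg (g1 t), sq_nonneg (g2 t)]
      have := hpos t
      rw [a1, a2] at this
      simp at this
  have b1 := BL.of_lip hf1
  have b2 := BL.of_lip hf2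
  have c1 := BL.of_lip hg1
  have c2 := BL.of_lip hg2
  have bN := (b1.mul c2).sub (b2.mul c1)
  have bD := (b1.mul c1).add (b2.mul c2)
  have bQ := bN.mul (bD.inv fun t _ => hpos t)
  set θ : ℝ → ℝ := fun t => Real.arctan ((f1 t * g2 t - f2 t * g1 t)
    * (f1 t * g1 t + f2 t * g2 t)⁻¹) with hθ
  have hac : AbsolutelyContinuousOnInterval θ 0 (2 * Real.pi) := by
    obtain ⟨C, hC0, -, hC2⟩ := bQ
    apply LipschitzOnWith.absolutelyContinuousOnInterval (K := C.toNNReal)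
    apply LipschitzOnWith.of_dist_le_mul
    rw [uIcc_of_le (by positivity)]
    intro s hs t ht
    rw [Real.dist_eq, Real.dist_eq, Real.coe_toNNReal _ hC0, hθ]
    exact (abs_arctan_sub _ _).trans (hC2 s hs t ht)
  have h1 := hac.integral_deriv_eq_sub
  have h2 : θ (2 * Real.pi) - θ 0 = 0 := by
    simp only [hθ]
    rw [pf1, pf2, pg1, pg2, sub_self]
  rw [h2] at h1
  have h3 : ∫ t in (0 : ℝ)..(2 * Real.pi), deriv θ t
      = ∫ t in (0 : ℝ)..(2 * Real.pi), (wom g1 g2 t - wom f1 f2 t) := by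
    apply intervalIntegral.integral_congr_ae
    filter_upwards [hf1.ae_differentiableAt, hf2.ae_differentiableAt, hg1.ae_differentiableAt,
      hg2.ae_differentiableAt] with t d1 d2 e1 e2 _
    have d1 := d1.hasDerivAt
    have d2 := d2.hasDerivAt
    have e1 := e1.hasDerivAt
    have e2 := e2.hasDerivAt
    have hD := hpos t
    have hd : HasDerivAt θ (wom g1 g2 t - wom f1 f2 t) t := by
      have hN := (d1.fun_mul e2).fun_sub (d2.fun_mul e1)
      have hDn := (d1.fun_mul e1).fun_add (d2.fun_mul e2)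
      have hq := (hN.fun_mul (hDn.fun_inv hD.ne')).arctan
      exact hq.congr_deriv (wind_alg (hf t) (hg t) hD)
    exact hd.deriv
  rw [h3, intervalIntegral.integral_sub (wom_integrable hg1 hg2 hg) (wom_integrable hf1 hf2 hf)] at h1
  linarith

end Pool.Agent.H18.Col
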