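import Pool.Agent.H18.Col.Meas
import Pool.Agent.H18.Col.Area
import Pool.Agent.H18.Col.Wind

open MeasureTheory Set Filter
open scoped ContDiff Topology ENNReal NNReal

noncomputable section

namespace Pool.Agent.H18.Col

open Pool.Agent.H74.FAC (E2 bv pt det_E2 pt_zero pt_one pt_eq)

/-- the radial profile -/
def Bf (c s : ℝ) : ℝ := 1 / (2 * Real.pi) * (1 / max s c + (max s c - s) / c ^ 2)

def Bf' (c s : ℝ) : ℝ := 1 / (2 * Real.pi) * (-1 / (max s c) ^ 2)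

section
variable {c : ℝ} (hc : 0 < c)
include hc

lemma hasDerivAt_Bf (s : ℝ) : HasDerivAt (Bf c) (Bf' c s) s := by
  have hlow : s ≤ c → HasDerivWithinAt (Bf c) (Bf' c s) (Iic c) s := by
    intro hs
    have h1 : HasDerivAt (fun s : ℝ => 1 / (2 * Real.pi) * (1 / c + (c - s) / c ^ 2))
        (1 / (2 * Real.pi) * (-1 / c ^ 2)) s := by
      have := ((((hasDerivAt_id s).const_sub c).div_const (c ^ 2)).const_add (1 / c)).const_mul
        (1 / (2 * Real.pi))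
      exact this
    rw [Bf', max_eq_right hs]
    apply h1.hasDerivWithinAt.congr
    · intro t ht
      rw [Bf, max_eq_right (show t ≤ c from ht)]
    · rw [Bf, max_eq_right hs]
  have hhigh : c ≤ s → HasDerivWithinAt (Bf c) (Bf' c s) (Ici c) s := by
    intro hs
    have h1 : HasDerivAt (fun s : ℝ => 1 / (2 * Real.pi) * s⁻¹)
        (1 / (2 * Real.pi) * (-1 / s ^ 2)) s := by
      have := (hasDerivAt_inv (hc.trans_le hs).ne').const_mul (1 / (2 * Real.pi))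
      refine this.congr_deriv ?_
      ring
    rw [Bf', max_eq_left hs]
    apply h1.hasDerivWithinAt.congr
    · intro t ht
      rw [Bf, max_eq_left (show c ≤ t from ht), sub_self, zero_div, add_zero, one_div t]
    · rw [Bf, max_eq_left hs, sub_self, zero_div, add_zero, one_div s]
  rcases lt_trichotomy s c with h | h | h
  · exact (hlow h.le).hasDerivAt (Iic_mem_nhds h)
  · have h1 := (hlow h.le).union (hhigh h.ge)
    rwa [Iic_union_Ici, hasDerivWithinAt_univ] at h1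
  · exact (hhigh h.le).hasDerivAt (Ici_mem_nhds h)

lemma contDiff_Bf : ContDiff ℝ 1 (Bf c) := by
  rw [contDiff_one_iff_deriv]
  refine ⟨fun s => (hasDerivAt_Bf hc s).differentiableAt, ?_⟩
  have e : deriv (Bf c) = Bf' c := funext fun s => (hasDerivAt_Bf hc s).deriv
  rw [e]
  unfold Bf'
  have h1 : Continuous fun s : ℝ => (max s c) ^ 2 := by fun_prop
  have h2 : ∀ s : ℝ, (max s c) ^ 2 ≠ 0 := fun s => (pow_pos (hc.trans_le (le_max_right _ _)) 2).ne'
  exact continuous_const.mul (continuous_const.div h1 h2)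

omit hc in
lemma Bf_high {s : ℝ} (hs : c ≤ s) : Bf c s = 1 / (2 * Real.pi) * (1 / s) := by
  rw [Bf, max_eq_left hs, sub_self, zero_div, add_zero]

/-- the exterior derivative of the radial form -/
lemma Bf_ext {s : ℝ} :
    2 * Bf' c s * s + 2 * Bf c s = 2 / (Real.pi * c) * max 0 (1 - s / c) := by
  have hpi := Real.pi_pos
  rcases le_total s c with h | h
  · rw [Bf, Bf', max_eq_right h, max_eq_right]
    · field_simp
      ring
    · rw [sub_nonneg, div_le_one hc]; exact h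
  · have hs0 : 0 < s := hc.trans_le h
    rw [Bf, Bf', max_eq_left h, max_eq_left]
    · field_simp
      ring
    · rw [sub_nonpos, one_le_div hc]; exact h

end

lemma bet_pt {ε a b : ℝ} :
    bet ε (pt a b) = 2 / (Real.pi * ε ^ 2) * max 0 (1 - (a ^ 2 + b ^ 2) / ε ^ 2) := by
  rw [bet, norm_pt_sq]

/-- affine functions -/
def Gf {N : ℕ} (c : Fin N → ℝ) (a : ℝ) (y : Fin N → ℝ) : ℝ := ∑ j, c j * y j - a

lemma Gf_add {N : ℕ} (c : Fin N → ℝ) (a : ℝ) (y : Fin N → ℝ) (j : Fin N) (t : ℝ) :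
    Gf c a (y + t • Pi.single j 1) = Gf c a y + t * c j := by
  rw [Gf, Gf]
  have : ∀ i, c i * (y + t • (Pi.single j 1 : Fin N → ℝ)) i
      = c i * y i + (if i = j then t * c j else 0) := by
    intro i
    by_cases h : i = j
    · subst h; simp; ring
    · simp [h]
  rw [Finset.sum_congr rfl fun i _ => this i, Finset.sum_add_distrib, Finset.sum_ite_eq']
  simp
  ring

lemma contDiff_Gf {N : ℕ} (c : Fin N → ℝ) (a : ℝ) : ContDiff ℝ 1 (Gf c a) := by
  unfold Gf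
  fun_prop

/-- the coefficient functions of the calibrating form -/
def bf {N : ℕ} (ε : ℝ) (c1 c2 : Fin N → ℝ) (a1 a2 : ℝ) (i : Fin N) (y : Fin N → ℝ) : ℝ :=
  Bf (ε ^ 2) (Gf c1 a1 y ^ 2 + Gf c2 a2 y ^ 2) * (Gf c1 a1 y * c2 i - Gf c2 a2 y * c1 i)

section
variable {N : ℕ} {ε : ℝ} (hε : 0 < ε) (c1 c2 : Fin N → ℝ) (a1 a2 : ℝ)
include hε

lemma contDiff_bf (i : Fin N) : ContDiff ℝ 1 (bf ε c1 c2 a1 a2 i) := by
  have h1 := contDiff_Gf c1 a1
  have h2 := contDiff_Gf c2 a2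
  have h3 : ContDiff ℝ 1 (fun y => Bf (ε ^ 2) (Gf c1 a1 y ^ 2 + Gf c2 a2 y ^ 2)) :=
    (contDiff_Bf (by positivity)).comp ((h1.pow 2).add (h2.pow 2))
  exact h3.mul ((h1.mul contDiff_const).sub (h2.mul contDiff_const))

lemma fderiv_bf (i j : Fin N) (y : Fin N → ℝ) :
    fderiv ℝ (bf ε c1 c2 a1 a2 i) y (Pi.single j 1)
      = 2 * Bf' (ε ^ 2) (Gf c1 a1 y ^ 2 + Gf c2 a2 y ^ 2) * (Gf c1 a1 y * c1 j + Gf c2 a2 y * c2 j)
          * (Gf c1 a1 y * c2 i - Gf c2 a2 y * c1 i)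
        + Bf (ε ^ 2) (Gf c1 a1 y ^ 2 + Gf c2 a2 y ^ 2) * (c1 j * c2 i - c2 j * c1 i) := by
  have hd := ((contDiff_bf hε c1 c2 a1 a2 i).differentiable (by simp)) y
  have hcurve : HasDerivAt (fun t : ℝ => y + t • (Pi.single j 1 : Fin N → ℝ)) (Pi.single j 1) 0 := by
    have := ((hasDerivAt_id (0 : ℝ)).smul_const (Pi.single j 1 : Fin N → ℝ)).const_add y
    simpa using this
  have h0 : HasFDerivAt (bf ε c1 c2 a1 a2 i) (fderiv ℝ (bf ε c1 c2 a1 a2 i) y)
      (y + (0 : ℝ) • (Pi.single j 1 : Fin N → ℝ)) := by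
    simpa using hd.hasFDerivAt
  have h1 := h0.comp_hasDerivAt (0 : ℝ) hcurve
  have g1 : HasDerivAt (fun t : ℝ => Gf c1 a1 y + t * c1 j) (c1 j) 0 := by
    have := ((hasDerivAt_id (0 : ℝ)).mul_const (c1 j)).const_add (Gf c1 a1 y)
    simpa using this
  have g2 : HasDerivAt (fun t : ℝ => Gf c2 a2 y + t * c2 j) (c2 j) 0 := by
    have := ((hasDerivAt_id (0 : ℝ)).mul_const (c2 j)).const_add (Gf c2 a2 y)
    simpa using this
  have hq := (g1.fun_pow 2).fun_add (g2.fun_pow 2)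
  have hB := (hasDerivAt_Bf (c := ε ^ 2) (by positivity)
    ((Gf c1 a1 y + 0 * c1 j) ^ 2 + (Gf c2 a2 y + 0 * c2 j) ^ 2)).comp (0 : ℝ) hq
  have hl := (g1.mul_const (c2 i)).fun_sub (g2.mul_const (c1 i))
  have h2 := hB.fun_mul hl
  have e : (bf ε c1 c2 a1 a2 i ∘ fun t : ℝ => y + t • (Pi.single j 1 : Fin N → ℝ))
      = fun t => (Bf (ε ^ 2) ∘ fun t => (Gf c1 a1 y + t * c1 j) ^ 2 + (Gf c2 a2 y + t * c2 j) ^ 2) t
        * ((Gf c1 a1 y + t * c1 j) * c2 i - (Gf c2 a2 y + t * c2 j) * c1 i) := by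
    funext t
    simp only [Function.comp_apply, bf, Gf_add]
  rw [e] at h1
  have h3 := h1.unique h2
  rw [h3]
  simp only [Function.comp_apply, zero_mul, add_zero]
  push_cast
  ring

/-- the comass of the calibrating form -/
lemma comass_bf (y X Y : Fin N → ℝ) (hd : |(∑ i, c1 i * X i) * (∑ i, c2 i * Y i)
      - (∑ i, c2 i * X i) * (∑ i, c1 i * Y i)| ≤ 1) :
    |∑ i, ∑ j, fderiv ℝ (bf ε c1 c2 a1 a2 i) y (Pi.single j 1) * (X j * Y i - Y j * X i)|
      ≤ bet ε (pt (Gf c1 a1 y) (Gf c2 a2 y)) := by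
  set g1 := Gf c1 a1 y with hg1
  set g2 := Gf c2 a2 y with hg2
  set s := g1 ^ 2 + g2 ^ 2 with hs
  set α1 := ∑ i, c1 i * X i with hα1
  set α2 := ∑ i, c2 i * X i with hα2
  set β1 := ∑ i, c1 i * Y i with hβ1
  set β2 := ∑ i, c2 i * Y i with hβ2
  have hval : ∑ i, ∑ j, fderiv ℝ (bf ε c1 c2 a1 a2 i) y (Pi.single j 1) * (X j * Y i - Y j * X i)
      = (2 * Bf' (ε ^ 2) s * s + 2 * Bf (ε ^ 2) s) * (α1 * β2 - α2 * β1) := by
    have h1 : ∀ i j, fderiv ℝ (bf ε c1 c2 a1 a2 i) y (Pi.single j 1) * (X j * Y i - Y j * X i)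
        = 2 * Bf' (ε ^ 2) s * ((g1 * (c2 i * Y i) - g2 * (c1 i * Y i)) *
              (g1 * (c1 j * X j) + g2 * (c2 j * X j)))
          - 2 * Bf' (ε ^ 2) s * ((g1 * (c2 i * X i) - g2 * (c1 i * X i)) *
              (g1 * (c1 j * Y j) + g2 * (c2 j * Y j)))
          + Bf (ε ^ 2) s * ((c2 i * Y i) * (c1 j * X j) - (c1 i * Y i) * (c2 j * X j)
              - (c2 i * X i) * (c1 j * Y j) + (c1 i * X i) * (c2 j * Y j)) := by
      intro i j
      rw [fderiv_bf hε]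
      ring
    have h2 : ∀ i, ∑ j, fderiv ℝ (bf ε c1 c2 a1 a2 i) y (Pi.single j 1) * (X j * Y i - Y j * X i)
        = 2 * Bf' (ε ^ 2) s * ((g1 * (c2 i * Y i) - g2 * (c1 i * Y i)) * (g1 * α1 + g2 * α2))
          - 2 * Bf' (ε ^ 2) s * ((g1 * (c2 i * X i) - g2 * (c1 i * X i)) * (g1 * β1 + g2 * β2))
          + Bf (ε ^ 2) s * ((c2 i * Y i) * α1 - (c1 i * Y i) * α2
              - (c2 i * X i) * β1 + (c1 i * X i) * β2) := by
      intro i
      rw [Finset.sum_congr rfl fun j _ => h1 i j]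
      simp only [hα1, hα2, hβ1, hβ2, Finset.sum_add_distrib, Finset.sum_sub_distrib,
        ← Finset.mul_sum]
    rw [Finset.sum_congr rfl fun i _ => h2 i]
    simp only [Finset.sum_add_distrib, Finset.sum_sub_distrib, ← Finset.mul_sum, ← Finset.sum_mul]
    rw [← hα1, ← hα2, ← hβ1, ← hβ2]
    rw [hs]
    ring
  rw [hval, Bf_ext (by positivity), abs_mul, bet_pt, ← hs]
  have h0 : 0 ≤ 2 / (Real.pi * ε ^ 2) * max 0 (1 - s / ε ^ 2) := by
    have := Real.pi_pos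
    positivity
  rw [abs_of_nonneg h0]
  exact mul_le_of_le_one_right h0 hd

end

end Pool.Agent.H18.Col
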