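import Pool.Agent.H18.Col.Bfun

open MeasureTheory Set Filter Measure Manifold Bundle
open scoped ContDiff Topology ENNReal NNReal

set_option linter.unusedSectionVars false
set_option linter.style.haveILetI false

noncomputable section

namespace Pool.Agent.H18.Col

open Pool.Agent.H74.FAC

lemma det_le {N : ℕ} {c1 c2 X Y : Fin N → ℝ} {κ : ℝ} (hκ0 : 0 ≤ κ)
    (hκ : ∀ i, c1 i ^ 2 + c2 i ^ 2 ≤ κ ^ 2) (hN : N * κ ≤ 2) (hXY : ∀ i, X i ^ 2 + Y i ^ 2 ≤ 1) :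
    |(∑ i, c1 i * X i) * (∑ i, c2 i * Y i) - (∑ i, c2 i * X i) * (∑ i, c1 i * Y i)| ≤ 1 := by
  have key : ∀ p q : Fin N → ℝ, (∀ i, p i ^ 2 + q i ^ 2 ≤ κ ^ 2) →
      (∑ i, p i) ^ 2 + (∑ i, q i) ^ 2 ≤ 4 := by
    intro p q h
    have h1 : ‖∑ i, (⟨p i, q i⟩ : ℂ)‖ ≤ ∑ i : Fin N, κ := by
      refine (norm_sum_le _ _).trans (Finset.sum_le_sum fun i _ => ?_)
      rw [Complex.norm_def]
      apply Real.sqrt_le_iff.2 ⟨hκ0, ?_⟩
      rw [Complex.normSq_mk]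
      nlinarith [h i]
    rw [Finset.sum_const, Finset.card_univ, Fintype.card_fin, nsmul_eq_mul] at h1
    have h2 := h1.trans hN
    have e : (∑ i, (⟨p i, q i⟩ : ℂ)) = ⟨∑ i, p i, ∑ i, q i⟩ := by
      apply Complex.ext <;> simp
    have h3 : ‖∑ i, (⟨p i, q i⟩ : ℂ)‖ ^ 2 = (∑ i, p i) ^ 2 + (∑ i, q i) ^ 2 := by
      rw [e, ← Complex.normSq_eq_norm_sq, Complex.normSq_mk]; ring
    rw [← h3]
    nlinarith [norm_nonneg (∑ i, (⟨p i, q i⟩ : ℂ))]
  have hb : ∀ i, (c1 i ^ 2 + c2 i ^ 2) * (X i ^ 2 + Y i ^ 2) ≤ κ ^ 2 := by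
    intro i
    calc _ ≤ κ ^ 2 * 1 := mul_le_mul (hκ i) (hXY i) (by positivity) (by positivity)
      _ = κ ^ 2 := mul_one _
  have k1 := key (fun i => c1 i * X i + c2 i * Y i) (fun i => c2 i * X i - c1 i * Y i) (by
    intro i
    have : (c1 i * X i + c2 i * Y i) ^ 2 + (c2 i * X i - c1 i * Y i) ^ 2
      = (c1 i ^ 2 + c2 i ^ 2) * (X i ^ 2 + Y i ^ 2) := by ring
    rw [this]; exact hb i)
  have k2 := key (fun i => c1 i * X i - c2 i * Y i) (fun i => c2 i * X i + c1 i * Y i) (by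
    intro i
    have : (c1 i * X i - c2 i * Y i) ^ 2 + (c2 i * X i + c1 i * Y i) ^ 2
      = (c1 i ^ 2 + c2 i ^ 2) * (X i ^ 2 + Y i ^ 2) := by ring
    rw [this]; exact hb i)
  simp only [Finset.sum_add_distrib, Finset.sum_sub_distrib] at k1 k2
  rw [abs_le]
  constructor
  · nlinarith [sq_nonneg (∑ i, c1 i * X i + ∑ i, c2 i * Y i),
      sq_nonneg (∑ i, c2 i * X i - ∑ i, c1 i * Y i)]
  · nlinarith [sq_nonneg (∑ i, c1 i * X i - ∑ i, c2 i * Y i),
      sq_nonneg (∑ i, c2 i * X i + ∑ i, c1 i * Y i)]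

variable {M : Type} [MetricSpace M] [ChartedSpace HP M] [IsManifold (𝓡∂ 2) ∞ M] [CompactSpace M]
  [RiemannianBundle (fun x : M => TangentSpace (𝓡∂ 2) x)]
  [IsContMDiffRiemannianBundle (𝓡∂ 2) ∞ E2 (fun x : M => TangentSpace (𝓡∂ 2) x)]
  [IsRiemannianManifold (𝓡∂ 2) M] [MeasurableSpace M] [BorelSpace M]

omit [ChartedSpace HP M] [IsManifold (𝓡∂ 2) ∞ M] [CompactSpace M]
  [RiemannianBundle (fun x : M => TangentSpace (𝓡∂ 2) x)]
  [IsContMDiffRiemannianBundle (𝓡∂ 2) ∞ E2 (fun x : M => TangentSpace (𝓡∂ 2) x)]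
  [IsRiemannianManifold (𝓡∂ 2) M] [MeasurableSpace M] [BorelSpace M] in
lemma continuous_Gf_comp {N : ℕ} {f : Fin N → M → ℝ} (hf : ∀ i, LipschitzWith 1 (f i))
    (c : Fin N → ℝ) (a : ℝ) : Continuous fun x => Gf c a (fun k => f k x) := by
  unfold Gf
  have := fun i => (hf i).continuous
  fun_prop

/-- the degree inequality -/
theorem deg_ineq (A : Cov M) {φ : S1 → M} (hφ : IsometricFilling φ) {N : ℕ}
    {f : Fin N → M → ℝ} (hf : ∀ i, LipschitzWith 1 (f i)) {c1 c2 : Fin N → ℝ} {κ : ℝ}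
    (hκ0 : 0 ≤ κ) (hκ : ∀ i, c1 i ^ 2 + c2 i ^ 2 ≤ κ ^ 2) (hN : N * κ ≤ 2) (a1 a2 : ℝ)
    {ε : ℝ} (hε : 0 < ε)
    (hb : ∀ t : ℝ, ε ^ 2 ≤ Gf c1 a1 (fun k => f k (φ (t : S1))) ^ 2
      + Gf c2 a2 (fun k => f k (φ (t : S1))) ^ 2)
    (hw : ∫ t in (0 : ℝ)..(2 * Real.pi), wom (fun t : ℝ => Gf c1 a1 (fun k => f k (φ (t : S1))))
      (fun t : ℝ => Gf c2 a2 (fun k => f k (φ (t : S1)))) t = 2 * Real.pi) :
    1 ≤ ∫⁻ x, ENNReal.ofReal (bet ε (pt (Gf c1 a1 (fun k => f k x)) (Gf c2 a2 (fun k => f k x))))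
      ∂(mu A) := by
  have hpi := Real.pi_pos
  have hcont : Continuous fun x => bet ε (pt (Gf c1 a1 (fun k => f k x)) (Gf c2 a2 (fun k => f k x))) := by
    have h1 := continuous_Gf_comp hf c1 a1
    have h2 := continuous_Gf_comp hf c2 a2
    simp only [bet_pt]
    fun_prop
  have hcal := calib A hφ hf (b := bf ε c1 c2 a1 a2) (contDiff_bf hε c1 c2 a1 a2) hcont
    (fun x X Y hXY => comass_bf hε c1 c2 a1 a2 _ X Y (det_le hκ0 hκ hN hXY))
  refine le_trans ?_ hcal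
  have hsum : ∑ i, bint φ (fun x => bf ε c1 c2 a1 a2 i (fun k => f k x)) (f i) = 1 := by
    have hL : ∀ i, ∃ C : ℝ≥0, LipschitzWith C (fun x => bf ε c1 c2 a1 a2 i (fun k => f k x)) :=
      fun i => lip_comp hf (contDiff_bf hε c1 c2 a1 a2 i)
    have hi : ∀ i, IntervalIntegrable (fun t : ℝ => bf ε c1 c2 a1 a2 i (fun k => f k (φ (t : S1)))
        * deriv (fun t : ℝ => f i (φ (t : S1))) t) volume 0 (2 * Real.pi) := by
      intro i
      obtain ⟨C, hC⟩ := hL i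
      exact Cov.bint_integrand_int hφ hC (hf i) _ _
    have e1 : ∑ i, bint φ (fun x => bf ε c1 c2 a1 a2 i (fun k => f k x)) (f i)
        = ∫ t in (0 : ℝ)..(2 * Real.pi), ∑ i, bf ε c1 c2 a1 a2 i (fun k => f k (φ (t : S1)))
        * deriv (fun t : ℝ => f i (φ (t : S1))) t := by
      rw [intervalIntegral.integral_finsetSum fun i _ => hi i]
      rfl
    rw [e1]
    have e2 : ∫ t in (0 : ℝ)..(2 * Real.pi), ∑ i, bf ε c1 c2 a1 a2 i (fun k => f k (φ (t : S1)))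
        * deriv (fun t : ℝ => f i (φ (t : S1))) t
        = ∫ t in (0 : ℝ)..(2 * Real.pi), 1 / (2 * Real.pi) *
          wom (fun t : ℝ => Gf c1 a1 (fun k => f k (φ (t : S1))))
            (fun t : ℝ => Gf c2 a2 (fun k => f k (φ (t : S1)))) t := by
      apply intervalIntegral.integral_congr_ae
      have hae : ∀ᵐ t : ℝ, ∀ i, DifferentiableAt ℝ (fun t : ℝ => f i (φ (t : S1))) t :=
        ae_all_iff.2 fun i => (hat_lip hφ (hf i)).ae_differentiableAt
      filter_upwards [hae] with t ht _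
      have hder : ∀ (c : Fin N → ℝ) (a : ℝ), deriv (fun t : ℝ => Gf c a (fun k => f k (φ (t : S1)))) t
          = ∑ i, c i * deriv (fun t : ℝ => f i (φ (t : S1))) t := by
        intro c a
        have h := HasDerivAt.fun_sum (u := Finset.univ) fun i _ => ((ht i).hasDerivAt.const_mul (c i))
        exact (h.sub_const a).deriv
      rw [wom, hder, hder]
      set g1 := Gf c1 a1 (fun k => f k (φ (t : S1))) with hg1
      set g2 := Gf c2 a2 (fun k => f k (φ (t : S1))) with hg2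
      have hs := hb t
      have hBf := Bf_high (c := ε ^ 2) hs
      have e3 : ∀ i, bf ε c1 c2 a1 a2 i (fun k => f k (φ (t : S1)))
          * deriv (fun t : ℝ => f i (φ (t : S1))) t
          = 1 / (2 * Real.pi) * (1 / (g1 ^ 2 + g2 ^ 2)) *
            (g1 * (c2 i * deriv (fun t : ℝ => f i (φ (t : S1))) t)
              - g2 * (c1 i * deriv (fun t : ℝ => f i (φ (t : S1))) t)) := by
        intro i
        rw [bf, ← hg1, ← hg2, hBf]
        ring
      rw [Finset.sum_congr rfl fun i _ => e3 i, ← Finset.mul_sum, Finset.sum_sub_distrib,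
        ← Finset.mul_sum, ← Finset.mul_sum]
      ring
    rw [e2, intervalIntegral.integral_const_mul, hw]
    field_simp
  rw [hsum, abs_one, ENNReal.ofReal_one]

end Pool.Agent.H18.Col
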