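import Pool.Agent.H18.Col.Riem

open MeasureTheory Set Filter Measure Manifold Bundle InnerProductGeometry
open scoped ContDiff Topology ENNReal NNReal

set_option linter.unusedSectionVars false
set_option linter.style.haveILetI false

noncomputable section

namespace Pool.Agent.H18.Col

open Pool.Agent.H74.FAC

lemma ring_mem (t : ℝ) : v3 (Real.cos t) (Real.sin t) 0 ∈ collar := by
  refine ⟨?_, ?_, ?_⟩
  · apply norm_of_unit
    simp only [v3_zero, v3_one, v3_two]
    linear_combination Real.sin_sq_add_cos_sq t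
  · simp only [v3_two]; exact le_rfl
  · simp only [v3_two]; positivity

instance : Nonempty collar := ⟨⟨_, ring_mem 0⟩⟩

lemma proj_ring (t : ℝ) : proj (v3 (Real.cos t) (Real.sin t) 0) = cc t := by
  rw [proj, cc]
  simp only [v3_zero, v3_one]
  have h : 2 * (Real.cos t ^ 2 + Real.sin t ^ 2) = 2 := by
    rw [Real.cos_sq_add_sin_sq, mul_one]
  have h2 : Real.sqrt (1 / 2) = 1 / Real.sqrt 2 := by
    rw [Real.sqrt_div zero_le_one, Real.sqrt_one]
  rw [h, h2]
  congr 1
  · ring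
  · ring

section
variable {M : Type} [MetricSpace M] (Ψ : collar → M)

/-- the first family of functions -/
def WP (p : M) (Z : E3) : ℝ := Wf (fun i : collar => proj i) Ψ p Z

/-- the map `F` on the surface -/
def FM (X : E3) (p : M) : E2 := pt (Fc (WP Ψ p) X) (Fs (WP Ψ p) X)

lemma WP_lipS (p : M) : LipS (WP Ψ p) := Wf_lipS _ _ p

lemma WP_val (hΨ : ∀ y y' : collar, angle (y : E3) y' ≤ dist (Ψ y) (Ψ y')) (y : collar) (Z : E3) :
    WP Ψ (Ψ y) Z = Real.pi / 2 - angle Z (proj y) :=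
  Wf_val _ _ (fun i j => (angle_proj_le i.2 j.2).trans (hΨ i j)) y Z

lemma WP_diff (p q : M) (Z : E3) : |WP Ψ q Z - WP Ψ p Z| ≤ dist p q := by
  have := (Wf_lip (fun i : collar => proj i) Ψ Z).dist_le_mul q p
  rw [Real.dist_eq, NNReal.coe_one, one_mul, dist_comm] at this
  exact this

lemma FM_lip {X : E3} (hX : InCap X) (p q : M) : ‖FM Ψ X q - FM Ψ X p‖ ≤ 4 * dist p q :=
  F_lip (WP_lipS Ψ p) (WP_lipS Ψ q) hX.unit hX.pos (fun Z _ => WP_diff Ψ p q Z)

lemma continuous_FM {X : E3} (hX : InCap X) : Continuous (FM Ψ X) := by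
  have : LipschitzWith 4 (FM Ψ X) := by
    apply LipschitzWith.of_dist_le_mul
    intro p q
    rw [dist_eq_norm, dist_comm p q]
    exact FM_lip Ψ hX q p
  exact this.continuous

/-- lower bound on the closure of the image -/
lemma FM_low (hΨ : ∀ y y' : collar, angle (y : E3) y' ≤ dist (Ψ y) (Ψ y')) {X : E3} (hX : InCap X)
    {p : M} (hp : p ∈ closure (range Ψ)) :
    (X 2 - Real.sqrt (1 / 2)) ^ 2 / 4 ≤ ‖FM Ψ X p‖ := by
  have hcl : IsClosed {p : M | (X 2 - Real.sqrt (1 / 2)) ^ 2 / 4 ≤ ‖FM Ψ X p‖} :=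
    isClosed_le continuous_const (continuous_FM Ψ hX).norm
  have hsub : range Ψ ⊆ {p : M | (X 2 - Real.sqrt (1 / 2)) ^ 2 / 4 ≤ ‖FM Ψ X p‖} := by
    rintro _ ⟨y, rfl⟩
    exact F_norm_bd (WP_lipS Ψ _) hX (proj_bd y.2) (fun Z _ => WP_val Ψ hΨ y Z)
  exact closure_minimal hsub hcl hp

end

lemma sum_abs_k1 {n : ℕ} (hn : 0 < n) : ∑ k : Fin n, |k1 n k| ≤ 2 := by
  have hn' : (0 : ℝ) < n := by exact_mod_cast hn
  have : ∀ k ∈ (Finset.univ : Finset (Fin n)), |k1 n k| ≤ 2 / n := by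
    intro k _
    rw [k1, abs_mul, abs_of_pos (by positivity)]
    exact mul_le_of_le_one_right (by positivity) (Real.abs_cos_le_one _)
  refine (Finset.sum_le_sum this).trans ?_
  rw [Finset.sum_const, Finset.card_univ, Fintype.card_fin, nsmul_eq_mul]
  apply le_of_eq; field_simp

lemma sum_abs_k2 {n : ℕ} (hn : 0 < n) : ∑ k : Fin n, |k2 n k| ≤ 2 := by
  have hn' : (0 : ℝ) < n := by exact_mod_cast hn
  have : ∀ k ∈ (Finset.univ : Finset (Fin n)), |k2 n k| ≤ 2 / n := by
    intro k _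
    rw [k2, abs_mul, abs_of_pos (by positivity)]
    exact mul_le_of_le_one_right (by positivity) (Real.abs_sin_le_one _)
  refine (Finset.sum_le_sum this).trans ?_
  rw [Finset.sum_const, Finset.card_univ, Fintype.card_fin, nsmul_eq_mul]
  apply le_of_eq; field_simp

lemma cc_lip (s t : ℝ) : ‖cc s - cc t‖ ≤ |s - t| := by
  apply le_of_sq_le_sq _ (abs_nonneg _)
  rw [norm3_sq, sq_abs]
  have h1 := Real.abs_cos_sub_cos_le s t
  have h2 := Real.abs_sin_sub_sin_le s t
  have h3 := sq_le_sq.2 h1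
  have h4 := sq_le_sq.2 h2
  have hq2 : Real.sqrt (1 / 2) ^ 2 = 1 / 2 := Real.sq_sqrt (by norm_num)
  simp only [PiLp.sub_apply, cc, v3_zero, v3_one, v3_two]
  have e : (Real.sqrt (1 / 2) * Real.cos s - Real.sqrt (1 / 2) * Real.cos t) ^ 2
      + (Real.sqrt (1 / 2) * Real.sin s - Real.sqrt (1 / 2) * Real.sin t) ^ 2
      + (Real.sqrt (1 / 2) - Real.sqrt (1 / 2)) ^ 2
      = 1 / 2 * (Real.cos s - Real.cos t) ^ 2 + 1 / 2 * (Real.sin s - Real.sin t) ^ 2 := by
    linear_combination ((Real.cos s - Real.cos t) ^ 2 + (Real.sin s - Real.sin t) ^ 2) * hq2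
  rw [e]
  linarith

lemma frame_lip (V : E3) (hV : ‖V‖ = 1) :
    LipschitzWith 2 (fun t : ℝ => (inner ℝ V (cc t) : ℝ)) := by
  apply LipschitzWith.of_dist_le_mul
  intro s t
  rw [Real.dist_eq, Real.dist_eq, ← inner_sub_right]
  have h1 := abs_real_inner_le_norm V (cc s - cc t)
  rw [hV, one_mul] at h1
  have h2 := cc_lip s t
  have h3 := abs_nonneg (s - t)
  push_cast
  linarith

lemma cc_periodic : cc (2 * Real.pi) = cc 0 := by
  rw [cc, cc, Real.cos_two_pi, Real.sin_two_pi, Real.cos_zero, Real.sin_zero]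

lemma wom_circle : ∫ t in (0 : ℝ)..(2 * Real.pi), wom Real.cos Real.sin t = 2 * Real.pi := by
  have : ∀ t, wom Real.cos Real.sin t = 1 := by
    intro t
    rw [wom, Real.deriv_sin, Real.deriv_cos]
    have h := Real.sin_sq_add_cos_sq t
    have h2 : Real.cos t ^ 2 + Real.sin t ^ 2 = 1 := by linarith
    rw [h2, div_one]
    nlinarith
  simp only [this]
  simp

lemma norm_dd {X : E3} (hX : InCap X) : ‖dd X 0‖ = 1 := by
  have h := inner_dd_dd hX.unit hX.pos 0
  rw [real_inner_self_eq_norm_sq] at h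
  nlinarith [norm_nonneg (dd X 0)]

lemma norm_jd {X : E3} (hX : InCap X) : ‖jd X 0‖ = 1 := by
  have h := inner_jd_jd hX.unit hX.pos 0
  rw [real_inner_self_eq_norm_sq] at h
  nlinarith [norm_nonneg (jd X 0)]

section
variable {M : Type} [MetricSpace M] [ChartedSpace HP M] [IsManifold (𝓡∂ 2) ∞ M] [CompactSpace M]
  [RiemannianBundle (fun x : M => TangentSpace (𝓡∂ 2) x)]
  [IsContMDiffRiemannianBundle (𝓡∂ 2) ∞ E2 (fun x : M => TangentSpace (𝓡∂ 2) x)]
  [IsRiemannianManifold (𝓡∂ 2) M] [MeasurableSpace M] [BorelSpace M]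

/-- **The degree inequality for `F`.** -/
theorem deg_F (A : Cov M) {φ : S1 → M} (hφ : IsometricFilling φ) {Ψ : collar → M}
    (hΨ : ∀ y y' : collar, angle (y : E3) y' ≤ dist (Ψ y) (Ψ y'))
    (hb : ∀ t : ℝ, Ψ ⟨_, ring_mem t⟩ = φ (t : S1)) (hfin : mu A univ ≠ ⊤)
    {X : E3} (hX : InCap X) (hX2 : Real.sqrt (1 / 2) < X 2) {ε : ℝ} (hε : 0 < ε)
    (hε2 : ε ≤ (X 2 - Real.sqrt (1 / 2)) ^ 2 / 8) :
    1 ≤ ∫⁻ p, ENNReal.ofReal (bet ε (FM Ψ X p)) ∂(mu A) := by
  have hpi := Real.pi_pos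
  obtain ⟨C0, hC0, hCb⟩ := Wf_bound (fun i : collar => proj i) Ψ
  set κ := (X 2 - Real.sqrt (1 / 2)) ^ 2 with hκ
  have hκ0 : 0 < κ := by rw [hκ]; exact pow_pos (by linarith) 2
  set D := 4 * Real.pi * (C0 + 6) with hD
  have hD0 : 0 < D := by positivity
  -- the discretised functions
  set f : (n : ℕ) → Fin n → M → ℝ := fun n k p => WP Ψ p (ZZ X (2 * Real.pi * k / n)) with hf
  have hfl : ∀ n k, LipschitzWith 1 (f n k) := fun n k => Wf_lip _ _ _
  set G1 : ℕ → M → ℝ := fun n p => Gf (k1 n) (nu * X 0) (fun k => f n k p) with hG1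
  set G2 : ℕ → M → ℝ := fun n p => Gf (k2 n) (nu * X 1) (fun k => f n k p) with hG2
  have hcl : ∀ n, 0 < n → ∀ p, |G1 n p - Fc (WP Ψ p) X| ≤ D / n ∧ |G2 n p - Fs (WP Ψ p) X| ≤ D / n :=
    fun n hn p => G_close (WP_lipS Ψ p) hC0 (fun Z _ => hCb p Z) hX.unit hX.pos hn
  -- the main inequality for large n
  have hmain : ∀ᶠ n : ℕ in atTop, 1 ≤ ∫⁻ p, ENNReal.ofReal (bet ε (pt (G1 n p) (G2 n p))) ∂(mu A) := by
    have hlarge : ∀ᶠ n : ℕ in atTop, D / n < κ / 16 := by
      have h1 : Tendsto (fun n : ℕ => D / (n : ℝ)) atTop (𝓝 0) :=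
        tendsto_const_nhds.div_atTop tendsto_natCast_atTop_atTop
      exact h1.eventually (gt_mem_nhds (by positivity))
    filter_upwards [hlarge, eventually_gt_atTop 0] with n hn hn0
    have hn' : (0 : ℝ) < n := by exact_mod_cast hn0
    -- positivity on the boundary
    have hT : ∀ t : ℝ, κ / 8 ≤ G1 n (φ (t : S1)) * inner ℝ (dd X 0) (cc t)
        + G2 n (φ (t : S1)) * inner ℝ (jd X 0) (cc t) := by
      intro t
      have hv : ∀ Z : E3, WP Ψ (φ (t : S1)) Z = Real.pi / 2 - angle Z (cc t) := by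
        intro Z
        rw [← hb t, WP_val Ψ hΨ, proj_ring]
      have h1 := F_bd (WP_lipS Ψ (φ (t : S1))) hX (cc_bd t) (fun Z _ => hv Z)
      obtain ⟨h2, h3⟩ := hcl n hn0 (φ (t : S1))
      have h4 := frame_sq hX (norm_of_unit (cc_bd t).unit)
      set a : ℝ := inner ℝ (dd X 0) (cc t)
      set b : ℝ := inner ℝ (jd X 0) (cc t)
      have ha : |a| ≤ 1 := abs_le_of_sq_le_sq (by nlinarith [sq_nonneg b, sq_nonneg (inner ℝ X (cc t) : ℝ)]) zero_le_one
      have hb' : |b| ≤ 1 := abs_le_of_sq_le_sq (by nlinarith [sq_nonneg a, sq_nonneg (inner ℝ X (cc t) : ℝ)]) zero_le_one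
      have h5 : |(G1 n (φ (t : S1)) - Fc (WP Ψ (φ (t : S1))) X) * a| ≤ D / n * 1 := by
        rw [abs_mul]
        exact mul_le_mul h2 ha (abs_nonneg _) (by positivity)
      have h6 : |(G2 n (φ (t : S1)) - Fs (WP Ψ (φ (t : S1))) X) * b| ≤ D / n * 1 := by
        rw [abs_mul]
        exact mul_le_mul h3 hb' (abs_nonneg _) (by positivity)
      have h7 := (abs_le.1 h5).1
      have h8 := (abs_le.1 h6).1
      linarith
    have hT1 : ∀ t : ℝ, (inner ℝ (dd X 0) (cc t) : ℝ) ^ 2 + (inner ℝ (jd X 0) (cc t) : ℝ) ^ 2 ≤ 1 := by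
      intro t
      rw [frame_sq hX (norm_of_unit (cc_bd t).unit)]
      nlinarith [sq_nonneg (inner ℝ X (cc t) : ℝ)]
    have hlow : ∀ t : ℝ, ε ^ 2 ≤ G1 n (φ (t : S1)) ^ 2 + G2 n (φ (t : S1)) ^ 2 := by
      intro t
      have h1 := hT t
      have h2 := hT1 t
      set a : ℝ := inner ℝ (dd X 0) (cc t)
      set b : ℝ := inner ℝ (jd X 0) (cc t)
      set g := G1 n (φ (t : S1))
      set g' := G2 n (φ (t : S1))
      calc ε ^ 2 ≤ (κ / 8) ^ 2 := pow_le_pow_left₀ hε.le hε2 2
        _ ≤ (g * a + g' * b) ^ 2 := pow_le_pow_left₀ (by positivity) h1 2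
        _ ≤ (g ^ 2 + g' ^ 2) * (a ^ 2 + b ^ 2) := by nlinarith [sq_nonneg (g * b - g' * a)]
        _ ≤ (g ^ 2 + g' ^ 2) * 1 := mul_le_mul_of_nonneg_left h2 (by positivity)
        _ = g ^ 2 + g' ^ 2 := mul_one _
    -- the winding number
    have hhat : ∀ k, LipschitzWith 1 (fun t : ℝ => f n k (φ (t : S1))) := fun k =>
      hat_lip hφ (hfl n k)
    have hGl : ∀ (c : Fin n → ℝ) (a : ℝ), ∑ k, |c k| ≤ 2 →
        LipschitzWith 2 (fun t : ℝ => Gf c a (fun k => f n k (φ (t : S1)))) := by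
      intro c a hc
      apply LipschitzWith.of_dist_le_mul
      intro s t
      rw [Real.dist_eq, Real.dist_eq, Gf, Gf]
      have e : ∑ j, c j * f n j (φ (s : S1)) - a - (∑ j, c j * f n j (φ (t : S1)) - a)
          = ∑ j, c j * (f n j (φ (s : S1)) - f n j (φ (t : S1))) := by
        simp only [mul_sub, Finset.sum_sub_distrib]; ring
      rw [e]
      refine (Finset.abs_sum_le_sum_abs _ _).trans ?_
      have h1 : ∀ j ∈ (Finset.univ : Finset (Fin n)),
          |c j * (f n j (φ (s : S1)) - f n j (φ (t : S1)))| ≤ |c j| * |s - t| := by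
        intro j _
        rw [abs_mul]
        apply mul_le_mul_of_nonneg_left _ (abs_nonneg _)
        have := (hhat j).dist_le_mul s t
        rw [Real.dist_eq, Real.dist_eq, NNReal.coe_one, one_mul] at this
        exact this
      refine (Finset.sum_le_sum h1).trans ?_
      rw [← Finset.sum_mul]
      exact mul_le_mul_of_nonneg_right hc (abs_nonneg _)
    have hper : ((2 * Real.pi : ℝ) : S1) = ((0 : ℝ) : S1) := by
      have := coe_add_period 0
      rwa [zero_add] at this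
    have hw : ∫ t in (0 : ℝ)..(2 * Real.pi), wom (fun t : ℝ => G1 n (φ (t : S1)))
        (fun t : ℝ => G2 n (φ (t : S1))) t = 2 * Real.pi := by
      rw [wind_eq (g1 := fun t => inner ℝ (dd X 0) (cc t)) (g2 := fun t => inner ℝ (jd X 0) (cc t))
        (K := 2) (hGl _ _ (sum_abs_k1 hn0)) (hGl _ _ (sum_abs_k2 hn0))
        (frame_lip _ (norm_dd hX)) (frame_lip _ (norm_jd hX))
        (by simp only [hper]) (by simp only [hper]) (by simp only [cc_periodic])
        (by simp only [cc_periodic]) (fun t => lt_of_lt_of_le (by positivity) (hT t))]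
      rw [wind_eq (g1 := Real.cos) (g2 := Real.sin)
        (K := 2) (frame_lip _ (norm_dd hX)) (frame_lip _ (norm_jd hX))
        (Real.lipschitzWith_cos.weaken (by norm_num)) (Real.lipschitzWith_sin.weaken (by norm_num))
        (by simp only [cc_periodic]) (by simp only [cc_periodic]) (by simp) (by simp)
        (fun t => frame_pos hX hX2 t)]
      exact wom_circle
    exact deg_ineq A hφ (hfl n) (κ := 2 / n) (by positivity) (fun k => by
        rw [k1, k2]
        have := Real.sin_sq_add_cos_sq (2 * Real.pi * (k : ℕ) / n)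
        apply le_of_eq
        linear_combination (2 / (n : ℝ)) ^ 2 * this) (by apply le_of_eq; field_simp)
        (nu * X 0) (nu * X 1) hε hlow hw
  -- the limit
  have hlim : Tendsto (fun n => ∫⁻ p, ENNReal.ofReal (bet ε (pt (G1 n p) (G2 n p))) ∂(mu A)) atTop
      (𝓝 (∫⁻ p, ENNReal.ofReal (bet ε (FM Ψ X p)) ∂(mu A))) := by
    apply tendsto_lintegral_of_dominated_convergence (fun _ => ENNReal.ofReal (2 / (Real.pi * ε ^ 2)))
    · intro n
      have h1 : Continuous (G1 n) := continuous_Gf_comp (hfl n) _ _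
      have h2 : Continuous (G2 n) := continuous_Gf_comp (hfl n) _ _
      have h3 : Continuous fun p => bet ε (pt (G1 n p) (G2 n p)) := by
        simp only [bet_pt]
        fun_prop
      exact h3.measurable.ennreal_ofReal
    · intro n
      refine Eventually.of_forall fun p => ENNReal.ofReal_le_ofReal ?_
      rw [bet]
      apply mul_le_of_le_one_right (by positivity)
      apply max_le zero_le_one
      have : 0 ≤ ‖pt (G1 n p) (G2 n p)‖ ^ 2 / ε ^ 2 := by positivity
      linarith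
    · rw [lintegral_const]
      exact ENNReal.mul_ne_top ENNReal.ofReal_ne_top hfin
    · refine Eventually.of_forall fun p => ?_
      apply ENNReal.tendsto_ofReal
      refine ((continuous_bet ε).tendsto _).comp ?_
      rw [tendsto_iff_norm_sub_tendsto_zero]
      have h0 : Tendsto (fun n : ℕ => 2 * (D / (n : ℝ))) atTop (𝓝 0) := by
        have h1 : Tendsto (fun n : ℕ => D / (n : ℝ)) atTop (𝓝 0) :=
          tendsto_const_nhds.div_atTop tendsto_natCast_atTop_atTop
        have := h1.const_mul 2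
        rwa [mul_zero] at this
      apply squeeze_zero' (Eventually.of_forall fun n => norm_nonneg _) _ h0
      filter_upwards [eventually_gt_atTop 0] with n hn
      obtain ⟨h2, h3⟩ := hcl n hn p
      have e : pt (G1 n p) (G2 n p) - FM Ψ X p
          = pt (G1 n p - Fc (WP Ψ p) X) (G2 n p - Fs (WP Ψ p) X) := by
        rw [FM]
        ext i
        fin_cases i <;> simp
      rw [e]
      refine (norm_pt_le _ _).trans ?_
      linarith
  exact ge_of_tendsto hlim hmain

end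

end Pool.Agent.H18.Col
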