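import Pool.Agent.H18.Col.Sph

open MeasureTheory Set
open scoped Topology ContDiff

noncomputable section

namespace Pool.Agent.H18.Col

/-- differentiation of a parametric integral of a `C¹` function -/
lemma hasFDerivAt_param {E : Type*} [NormedAddCommGroup E] [NormedSpace ℝ E] [ProperSpace E]
    {U : Set E} (hU : IsOpen U) {G : E × ℝ → ℝ} (hG : ContDiffOn ℝ 1 G (U ×ˢ univ)) {x : E}
    (hx : x ∈ U) {a b : ℝ} :
    HasFDerivAt (fun y => ∫ u in a..b, G (y, u))
      (∫ u in a..b, (fderiv ℝ G (x, u)).comp (ContinuousLinearMap.inl ℝ E ℝ)) x := by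
  obtain ⟨r, hr, hrU⟩ := Metric.isOpen_iff.1 hU x hx
  have hO : IsOpen (U ×ˢ (univ : Set ℝ)) := hU.prod isOpen_univ
  have hsub : Metric.closedBall x (r / 2) ⊆ U :=
    (Metric.closedBall_subset_ball (by linarith)).trans hrU
  have hK : IsCompact (Metric.closedBall x (r / 2) ×ˢ uIcc a b) :=
    (isCompact_closedBall x (r / 2)).prod isCompact_uIcc
  have hKs : Metric.closedBall x (r / 2) ×ˢ uIcc a b ⊆ U ×ˢ univ := prod_mono hsub (subset_univ _)
  have hfc : ContinuousOn (fderiv ℝ G) (U ×ˢ univ) := hG.continuousOn_fderiv_of_isOpen hO le_rfl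
  obtain ⟨C, hC⟩ := hK.exists_bound_of_continuousOn (hfc.mono hKs)
  have hcont : ∀ y ∈ U, Continuous fun u => G (y, u) := by
    intro y hy
    rw [← continuousOn_univ]
    exact hG.continuousOn.comp (by fun_prop) (fun u _ => ⟨hy, mem_univ _⟩)
  have hcont' : ∀ y ∈ U, Continuous fun u => (fderiv ℝ G (y, u)).comp
      (ContinuousLinearMap.inl ℝ E ℝ) := by
    intro y hy
    have h1 : Continuous fun u => fderiv ℝ G (y, u) := by
      rw [← continuousOn_univ]
      exact hfc.comp (by fun_prop) (fun u _ => ⟨hy, mem_univ _⟩)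
    exact h1.clm_comp continuous_const
  have hdiff : ∀ y ∈ U, ∀ u, HasFDerivAt (fun y => G (y, u))
      ((fderiv ℝ G (y, u)).comp (ContinuousLinearMap.inl ℝ E ℝ)) y := by
    intro y hy u
    have h1 : HasFDerivAt G (fderiv ℝ G (y, u)) (y, u) :=
      ((hG.differentiableOn (by simp)).differentiableAt (hO.mem_nhds ⟨hy, mem_univ _⟩)).hasFDerivAt
    exact h1.comp y (hasFDerivAt_prodMk_left y u)
  refine intervalIntegral.hasFDerivAt_integral_of_dominated_of_fderiv_le (𝕜 := ℝ)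
    (s := Metric.ball x (r / 2)) (bound := fun _ => C * ‖ContinuousLinearMap.inl ℝ E ℝ‖)
    (F' := fun y u => (fderiv ℝ G (y, u)).comp (ContinuousLinearMap.inl ℝ E ℝ))
    (Metric.ball_mem_nhds x (by linarith)) ?_ ?_ ?_ ?_ ?_ ?_
  · filter_upwards [hU.mem_nhds hx] with y hy
    exact (hcont y hy).aestronglyMeasurable
  · exact (hcont x hx).intervalIntegrable _ _
  · exact (hcont' x hx).aestronglyMeasurable
  · refine Filter.Eventually.of_forall fun u hu y hy => ?_
    refine (ContinuousLinearMap.opNorm_comp_le _ _).trans ?_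
    have := hC (y, u) ⟨Metric.ball_subset_closedBall hy, uIoc_subset_uIcc hu⟩
    gcongr
  · exact intervalIntegrable_const
  · refine Filter.Eventually.of_forall fun u _ y hy => ?_
    exact hdiff y (hsub (Metric.ball_subset_closedBall hy)) u

/-- the open set where everything is smooth -/
def UU : Set E3 := {X | 0 < 1 + X 2}

lemma continuous_coord3 (i : Fin 3) : Continuous (fun X : E3 => X i) := by fun_prop

lemma isOpen_UU : IsOpen UU := by
  have : Continuous fun X : E3 => 1 + X 2 := continuous_const.add (continuous_coord3 2)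
  exact isOpen_lt continuous_const this

lemma v3_eq (x y z : ℝ) : v3 x y z = x • v3 1 0 0 + y • v3 0 1 0 + z • v3 0 0 1 := by
  apply ext3 <;> simp [v3]

lemma contDiff_coord3 (i : Fin 3) : ContDiff ℝ 1 (fun X : E3 => X i) :=
  (EuclideanSpace.proj (𝕜 := ℝ) i : E3 →L[ℝ] ℝ).contDiff

lemma contDiffOn_ZZ : ContDiffOn ℝ 1 (fun q : E3 × ℝ => ZZ q.1 q.2) (UU ×ˢ univ) := by
  have hc : ∀ i : Fin 3, ContDiff ℝ 1 (fun q : E3 × ℝ => q.1 i) := fun i =>
    (contDiff_coord3 i).comp contDiff_fst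
  have hcos : ContDiff ℝ 1 (fun q : E3 × ℝ => Real.cos q.2) := Real.contDiff_cos.comp contDiff_snd
  have hsin : ContDiff ℝ 1 (fun q : E3 × ℝ => Real.sin q.2) := Real.contDiff_sin.comp contDiff_snd
  have hτ : ContDiff ℝ 1 (fun q : E3 × ℝ => tau q.1 q.2) :=
    ((hc 0).mul hcos).add ((hc 1).mul hsin)
  have hH : ContDiff ℝ 1 (fun q : E3 × ℝ => 1 + q.1 2) := contDiff_const.add (hc 2)
  have hne : ∀ q ∈ UU ×ˢ (univ : Set ℝ), 1 + q.1 2 ≠ 0 := fun q hq => (hq.1 : 0 < 1 + q.1 2).ne'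
  have h0 : ContDiffOn ℝ 1 (fun q : E3 × ℝ => Real.cos q.2 - tau q.1 q.2 * q.1 0 / (1 + q.1 2))
      (UU ×ˢ univ) :=
    hcos.contDiffOn.sub (((hτ.mul (hc 0)).contDiffOn).div hH.contDiffOn hne)
  have h1 : ContDiffOn ℝ 1 (fun q : E3 × ℝ => Real.sin q.2 - tau q.1 q.2 * q.1 1 / (1 + q.1 2))
      (UU ×ˢ univ) :=
    hsin.contDiffOn.sub (((hτ.mul (hc 1)).contDiffOn).div hH.contDiffOn hne)
  have hdd : ContDiffOn ℝ 1 (fun q : E3 × ℝ => dd q.1 q.2) (UU ×ˢ univ) := by
    have e : (fun q : E3 × ℝ => dd q.1 q.2) = fun q : E3 × ℝ =>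
        (Real.cos q.2 - tau q.1 q.2 * q.1 0 / (1 + q.1 2)) • v3 1 0 0
        + (Real.sin q.2 - tau q.1 q.2 * q.1 1 / (1 + q.1 2)) • v3 0 1 0
        + (-tau q.1 q.2) • v3 0 0 1 := by
      funext q
      rw [dd, v3_eq]
    rw [e]
    exact ((h0.smul contDiffOn_const).add (h1.smul contDiffOn_const)).add
      (hτ.neg.contDiffOn.smul contDiffOn_const)
  have hA : ContDiff ℝ 1 (fun q : E3 × ℝ => nu * tau q.1 q.2) := contDiff_const.mul hτ
  have hsA : ContDiff ℝ 1 (fun q : E3 × ℝ => Real.sin (nu * tau q.1 q.2)) :=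
    Real.contDiff_sin.comp hA
  have hcA : ContDiff ℝ 1 (fun q : E3 × ℝ => Real.cos (nu * tau q.1 q.2)) :=
    Real.contDiff_cos.comp hA
  exact (hsA.contDiffOn.smul contDiff_fst.contDiffOn).add (hcA.contDiffOn.smul hdd)

lemma continuousOn_ZZ : ContinuousOn (fun q : E3 × ℝ => ZZ q.1 q.2) (UU ×ˢ univ) :=
  contDiffOn_ZZ.continuousOn

lemma continuous_ZZ_u {X : E3} (hX : X ∈ UU) : Continuous fun u => ZZ X u := by
  rw [← continuousOn_univ]
  exact continuousOn_ZZ.comp (f := fun u : ℝ => (X, u)) (by fun_prop) (fun u _ => ⟨hX, mem_univ _⟩)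

lemma ZZ_periodic (X : E3) (u : ℝ) : ZZ X (u + 2 * Real.pi) = ZZ X u := by
  have : tau X (u + 2 * Real.pi) = tau X u := by
    rw [tau, tau, Real.cos_add_two_pi, Real.sin_add_two_pi]
  rw [ZZ, ZZ, dd, dd, this, Real.cos_add_two_pi, Real.sin_add_two_pi]

/-- the two components of the map `F` -/
def Fc (w : E3 → ℝ) (X : E3) : ℝ :=
  1 / Real.pi * (∫ u in (0 : ℝ)..(2 * Real.pi), Real.cos u * w (ZZ X u)) - nu * X 0
def Fs (w : E3 → ℝ) (X : E3) : ℝ :=
  1 / Real.pi * (∫ u in (0 : ℝ)..(2 * Real.pi), Real.sin u * w (ZZ X u)) - nu * X 1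

/-- an admissible smooth function: tangential gradient at most one on the unit sphere -/
structure Adm (w : E3 → ℝ) : Prop where
  smooth : ContDiff ℝ 1 w
  grad : ∀ Z : E3, ‖Z‖ = 1 → ∀ ζ : E3, |fderiv ℝ w Z ζ| ≤ ‖ζ‖

def aa (w : E3 → ℝ) (X : E3) (u : ℝ) : ℝ := fderiv ℝ w (ZZ X u) (nn X u)
def bb (w : E3 → ℝ) (X : E3) (u : ℝ) : ℝ := -fderiv ℝ w (ZZ X u) (jd X u)
def SS (X : E3) (u : ℝ) : ℝ := Real.sin (nu * tau X u)
def mm (X : E3) : ℝ := nu * X 2 - 1

def A11 (w : E3 → ℝ) (X : E3) : ℝ := 1 / Real.pi * ∫ u in (0 : ℝ)..(2 * Real.pi), Real.cos u *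
        ((1 + mm X * (1 - aa w X u)) * Real.cos u - bb w X u * SS X u * Real.sin u)
def A12 (w : E3 → ℝ) (X : E3) : ℝ := 1 / Real.pi * ∫ u in (0 : ℝ)..(2 * Real.pi), Real.cos u *
        ((1 + mm X * (1 - aa w X u)) * Real.sin u + bb w X u * SS X u * Real.cos u)
def A21 (w : E3 → ℝ) (X : E3) : ℝ := 1 / Real.pi * ∫ u in (0 : ℝ)..(2 * Real.pi), Real.sin u *
        ((1 + mm X * (1 - aa w X u)) * Real.cos u - bb w X u * SS X u * Real.sin u)
def A22 (w : E3 → ℝ) (X : E3) : ℝ := 1 / Real.pi * ∫ u in (0 : ℝ)..(2 * Real.pi), Real.sin u *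
        ((1 + mm X * (1 - aa w X u)) * Real.sin u + bb w X u * SS X u * Real.cos u)

lemma continuous_tau (X : E3) : Continuous (tau X) := by unfold tau; fun_prop
lemma continuous_tau' (X : E3) : Continuous (tau' X) := by unfold tau'; fun_prop

lemma continuous_SS (X : E3) : Continuous (SS X) := by
  have := continuous_tau X
  unfold SS; fun_prop

lemma continuous_dd (X : E3) : Continuous (dd X) := by
  have h := continuous_tau X
  have e : dd X = fun u => (Real.cos u - tau X u * X 0 / (1 + X 2)) • v3 1 0 0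
        + (Real.sin u - tau X u * X 1 / (1 + X 2)) • v3 0 1 0 + (-tau X u) • v3 0 0 1 := by
    funext u; rw [dd, v3_eq]
  rw [e]; fun_prop

lemma continuous_jd (X : E3) : Continuous (jd X) := by
  have h := continuous_tau' X
  have e : jd X = fun u => (-Real.sin u - tau' X u * X 0 / (1 + X 2)) • v3 1 0 0
        + (Real.cos u - tau' X u * X 1 / (1 + X 2)) • v3 0 1 0 + (-tau' X u) • v3 0 0 1 := by
    funext u; rw [jd, v3_eq]
  rw [e]; fun_prop

lemma continuous_nn (X : E3) : Continuous (nn X) := by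
  have h := continuous_tau X
  have h2 := continuous_dd X
  unfold nn; fun_prop

section
variable {w : E3 → ℝ} (hw : Adm w) {X V : E3}
include hw

lemma continuous_fderiv_ZZ (hX : X ∈ UU) : Continuous fun u => fderiv ℝ w (ZZ X u) :=
  (hw.smooth.continuous_fderiv (by simp)).comp (continuous_ZZ_u hX)

lemma continuous_aa (hX : X ∈ UU) : Continuous (aa w X) :=
  (continuous_fderiv_ZZ hw hX).clm_apply (continuous_nn X)

lemma continuous_bb (hX : X ∈ UU) : Continuous (bb w X) :=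
  ((continuous_fderiv_ZZ hw hX).clm_apply (continuous_jd X)).neg

lemma aabb_le (hX : X 0 ^ 2 + X 1 ^ 2 + X 2 ^ 2 = 1) (hp : 0 < 1 + X 2) (u : ℝ) :
    aa w X u ^ 2 + bb w X u ^ 2 ≤ 1 := by
  have h1 := hw.grad (ZZ X u) (norm_ZZ hX hp u) (aa w X u • nn X u + (-bb w X u) • jd X u)
  rw [map_add, map_smul, map_smul, smul_eq_mul, smul_eq_mul] at h1
  have e : aa w X u * fderiv ℝ w (ZZ X u) (nn X u) + (-bb w X u) * fderiv ℝ w (ZZ X u) (jd X u)
      = aa w X u ^ 2 + bb w X u ^ 2 := by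
    rw [show fderiv ℝ w (ZZ X u) (nn X u) = aa w X u from rfl,
      show fderiv ℝ w (ZZ X u) (jd X u) = -bb w X u by rw [bb, neg_neg]]
    ring
  rw [e] at h1
  have h2 := norm_nn_jd hX hp u (aa w X u) (-bb w X u)
  have h3 := (abs_le.1 h1).2
  set s := aa w X u ^ 2 + bb w X u ^ 2 with hs
  have hs0 : 0 ≤ s := by positivity
  have h4 : s ^ 2 ≤ s := by
    calc s ^ 2 ≤ ‖aa w X u • nn X u + (-bb w X u) • jd X u‖ ^ 2 := pow_le_pow_left₀ hs0 h3 2
      _ = s := by rw [h2, hs]; ring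
  nlinarith

/-- the general derivative formula for the weighted integrals -/
lemma fderiv_int {g g' : ℝ → ℝ} (hg : ContDiff ℝ 1 g) (hgd : ∀ u, HasDerivAt g (g' u) u)
    (hgc : Continuous g') (hgp : g (2 * Real.pi) = g 0)
    (hX : X 0 ^ 2 + X 1 ^ 2 + X 2 ^ 2 = 1) (hp : 0 < 1 + X 2)
    (hV : X 0 * V 0 + X 1 * V 1 + X 2 * V 2 = 0) :
    DifferentiableAt ℝ (fun X => ∫ u in (0 : ℝ)..(2 * Real.pi), g u * w (ZZ X u)) X ∧
    fderiv ℝ (fun X => ∫ u in (0 : ℝ)..(2 * Real.pi), g u * w (ZZ X u)) X V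
      = (∫ u in (0 : ℝ)..(2 * Real.pi), g u * (mm X * inner ℝ (dd X u) V * aa w X u
          - inner ℝ (jd X u) V * SS X u * bb w X u))
        - om X V * ∫ u in (0 : ℝ)..(2 * Real.pi), g' u * w (ZZ X u) := by
  have hXU : X ∈ UU := hp
  have hG : ContDiffOn ℝ 1 (fun q : E3 × ℝ => g q.2 * w (ZZ q.1 q.2)) (UU ×ˢ univ) :=
    (hg.comp contDiff_snd).contDiffOn.mul (hw.smooth.comp_contDiffOn contDiffOn_ZZ)
  have hF := hasFDerivAt_param isOpen_UU hG hXU (a := 0) (b := 2 * Real.pi)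
  refine ⟨hF.differentiableAt, ?_⟩
  rw [hF.fderiv]
  have hO : IsOpen (UU ×ˢ (univ : Set ℝ)) := isOpen_UU.prod isOpen_univ
  have hfc : Continuous fun u => (fderiv ℝ (fun q : E3 × ℝ => g q.2 * w (ZZ q.1 q.2)) (X, u)).comp
      (ContinuousLinearMap.inl ℝ E3 ℝ) := by
    have h1 : Continuous fun u => fderiv ℝ (fun q : E3 × ℝ => g q.2 * w (ZZ q.1 q.2)) (X, u) := by
      rw [← continuousOn_univ]
      exact (hG.continuousOn_fderiv_of_isOpen hO le_rfl).comp (by fun_prop)
        (fun u _ => ⟨hXU, mem_univ _⟩)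
    exact h1.clm_comp continuous_const
  have e1 : (∫ u in (0 : ℝ)..(2 * Real.pi),
      (fderiv ℝ (fun q : E3 × ℝ => g q.2 * w (ZZ q.1 q.2)) (X, u)).comp
        (ContinuousLinearMap.inl ℝ E3 ℝ)) V
      = ∫ u in (0 : ℝ)..(2 * Real.pi),
        (fderiv ℝ (fun q : E3 × ℝ => g q.2 * w (ZZ q.1 q.2)) (X, u)).comp
        (ContinuousLinearMap.inl ℝ E3 ℝ) V := by
    have := (ContinuousLinearMap.apply ℝ ℝ V).intervalIntegral_comp_comm
      (hfc.intervalIntegrable (μ := volume) 0 (2 * Real.pi))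
    simpa using this.symm
  rw [e1]
  -- the pointwise derivative
  have e2 : ∀ u, (fderiv ℝ (fun q : E3 × ℝ => g q.2 * w (ZZ q.1 q.2)) (X, u)).comp
        (ContinuousLinearMap.inl ℝ E3 ℝ) V
      = g u * (mm X * inner ℝ (dd X u) V * aa w X u - inner ℝ (jd X u) V * SS X u * bb w X u)
        + om X V * (g u * (nu * tau' X u * aa w X u - Real.cos (nu * tau X u) * bb w X u)) := by
    intro u
    have hcurve : HasDerivAt (fun t : ℝ => X + t • V) V 0 := by
      have := ((hasDerivAt_id (0 : ℝ)).smul_const V).const_add X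
      simpa using this
    have h1 : HasFDerivAt (fun q : E3 × ℝ => g q.2 * w (ZZ q.1 q.2))
        (fderiv ℝ (fun q : E3 × ℝ => g q.2 * w (ZZ q.1 q.2)) (X, u)) (X, u) :=
      ((hG.differentiableOn (by simp)).differentiableAt (hO.mem_nhds ⟨hXU, mem_univ _⟩)).hasFDerivAt
    have hc2 : HasDerivAt (fun t : ℝ => (X + t • V, u)) (V, (0 : ℝ)) 0 :=
      hcurve.prodMk (hasDerivAt_const _ _)
    have h2 : HasDerivAt (fun t : ℝ => g u * w (ZZ (X + t • V) u))
        ((fderiv ℝ (fun q : E3 × ℝ => g q.2 * w (ZZ q.1 q.2)) (X, u)) (V, 0)) 0 := by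
      have h1' : HasFDerivAt (fun q : E3 × ℝ => g q.2 * w (ZZ q.1 q.2))
        (fderiv ℝ (fun q : E3 × ℝ => g q.2 * w (ZZ q.1 q.2)) (X, u)) (X + (0 : ℝ) • V, u) := by
        simpa using h1
      exact h1'.comp_hasDerivAt (0 : ℝ) hc2
    have hX' : (fun t : ℝ => X + t • V) 0 0 ^ 2 + (fun t : ℝ => X + t • V) 0 1 ^ 2
        + (fun t : ℝ => X + t • V) 0 2 ^ 2 = 1 := by simpa using hX
    have hZ := hasDerivAt_ZZ (X := fun t : ℝ => X + t • V) (t := 0) hcurve (by simpa using hX)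
      (by simpa using hp) (by simpa using hV) u
    simp only [zero_smul, add_zero] at hZ
    have hw1 : HasFDerivAt w (fderiv ℝ w (ZZ X u)) (ZZ (X + (0 : ℝ) • V) u) := by
      simp only [zero_smul, add_zero]
      exact ((hw.smooth.differentiable (by simp)) _).hasFDerivAt
    have h3 := (hw1.comp_hasDerivAt (0 : ℝ) hZ).const_mul (g u)
    have h4 := h2.unique h3
    rw [ContinuousLinearMap.comp_apply, ContinuousLinearMap.inl_apply, h4]
    simp only [map_add, map_smul, smul_eq_mul]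
    rw [show fderiv ℝ w (ZZ X u) (nn X u) = aa w X u from rfl,
      show fderiv ℝ w (ZZ X u) (jd X u) = -bb w X u by rw [bb, neg_neg], mm, SS]
    ring
  have e2' : (fun u => (fderiv ℝ (fun q : E3 × ℝ => g q.2 * w (ZZ q.1 q.2)) (X, u)).comp
        (ContinuousLinearMap.inl ℝ E3 ℝ) V) = _ := funext e2
  rw [e2']
  have ca := continuous_aa hw hXU
  have cb := continuous_bb hw hXU
  have cS := continuous_SS X
  have cd := continuous_dd X
  have cj := continuous_jd X
  have ct := continuous_tau X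
  have ct' := continuous_tau' X
  have cg := hg.continuous
  have cwZ : Continuous fun u => w (ZZ X u) := hw.smooth.continuous.comp (continuous_ZZ_u hXU)
  have cc : Continuous fun u => nu * tau' X u * aa w X u - Real.cos (nu * tau X u) * bb w X u := by
    fun_prop
  rw [intervalIntegral.integral_add (Continuous.intervalIntegrable (by fun_prop) _ _)
    (Continuous.intervalIntegrable (by fun_prop) _ _), intervalIntegral.integral_const_mul]
  -- integration by parts
  have hdw : ∀ u, HasDerivAt (fun u => w (ZZ X u))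
      (nu * tau' X u * aa w X u - Real.cos (nu * tau X u) * bb w X u) u := by
    intro u
    have h5 := (((hw.smooth.differentiable (by simp)) (ZZ X u)).hasFDerivAt).comp_hasDerivAt u
      (hasDerivAt_ZZ_u X u)
    refine h5.congr_deriv ?_
    simp only [map_add, map_smul, smul_eq_mul]
    rw [show fderiv ℝ w (ZZ X u) (nn X u) = aa w X u from rfl,
      show fderiv ℝ w (ZZ X u) (jd X u) = -bb w X u by rw [bb, neg_neg]]
    ring
  have hibp := intervalIntegral.integral_mul_deriv_eq_deriv_mul (a := 0) (b := 2 * Real.pi)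
    (u := g) (v := fun u => w (ZZ X u)) (fun u _ => hgd u) (fun u _ => hdw u)
    (hgc.intervalIntegrable _ _) (cc.intervalIntegrable _ _)
  have hper : ZZ X (2 * Real.pi) = ZZ X 0 := by
    have := ZZ_periodic X 0
    rwa [zero_add] at this
  rw [hper, hgp, sub_self, zero_sub] at hibp
  rw [hibp]
  ring

end

end Pool.Agent.H18.Col
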