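import Pool.Agent.H18.Col.Deriv

open MeasureTheory Set
open scoped Topology ContDiff

noncomputable section

namespace Pool.Agent.H18.Col

/-- the components of a tangent vector in the frame -/
def d1 (X V : E3) : ℝ := inner ℝ (dd X 0) V
def d2 (X V : E3) : ℝ := inner ℝ (jd X 0) V

lemma dd_eq (X : E3) (u : ℝ) : dd X u = Real.cos u • dd X 0 + Real.sin u • jd X 0 := by
  apply ext3
  all_goals
    simp only [dd, jd, tau, tau', PiLp.add_apply, PiLp.smul_apply, smul_eq_mul, v3_zero, v3_one,
      v3_two, Real.cos_zero, Real.sin_zero]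
    ring

lemma jd_eq (X : E3) (u : ℝ) : jd X u = (-Real.sin u) • dd X 0 + Real.cos u • jd X 0 := by
  apply ext3
  all_goals
    simp only [dd, jd, tau, tau', PiLp.add_apply, PiLp.smul_apply, smul_eq_mul, v3_zero, v3_one,
      v3_two, Real.cos_zero, Real.sin_zero]
    ring

lemma inner_dd_eq (X V : E3) (u : ℝ) :
    inner ℝ (dd X u) V = Real.cos u * d1 X V + Real.sin u * d2 X V := by
  rw [dd_eq, inner_add_left, real_inner_smul_left, real_inner_smul_left, d1, d2]

lemma inner_jd_eq (X V : E3) (u : ℝ) :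
    inner ℝ (jd X u) V = -Real.sin u * d1 X V + Real.cos u * d2 X V := by
  rw [jd_eq, inner_add_left, real_inner_smul_left, real_inner_smul_left, d1, d2]

section
variable {X V : E3} (hX : X 0 ^ 2 + X 1 ^ 2 + X 2 ^ 2 = 1) (hp : 0 < 1 + X 2)
    (hV : X 0 * V 0 + X 1 * V 1 + X 2 * V 2 = 0)
include hX hp hV

lemma V0_eq : V 0 = X 2 * d1 X V + om X V * X 1 := by
  have := tau_dot hX hp 0 hV
  simp only [Real.cos_zero, Real.sin_zero, one_mul, zero_mul, add_zero, tau', mul_zero,
    mul_one] at this
  rw [d1]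
  linarith

lemma V1_eq : V 1 = X 2 * d2 X V - om X V * X 0 := by
  have := tau_dot hX hp (Real.pi / 2) hV
  rw [inner_dd_eq] at this
  simp only [Real.cos_pi_div_two, Real.sin_pi_div_two, zero_mul, one_mul, zero_add, tau',
    mul_zero, mul_one, add_zero] at this
  linarith

/-- Parseval -/
lemma norm_V_sq : ‖V‖ ^ 2 = d1 X V ^ 2 + d2 X V ^ 2 := by
  have h := V_decomp hX hp 0 hV
  rw [← real_inner_self_eq_norm_sq]
  conv_lhs => rw [h]
  rw [show (inner ℝ (dd X 0) V : ℝ) = d1 X V from rfl, show (inner ℝ (jd X 0) V : ℝ) = d2 X V from rfl]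
  simp only [inner_add_left, inner_add_right, real_inner_smul_left, real_inner_smul_right]
  rw [real_inner_comm (dd X 0) (jd X 0), inner_dd_dd hX hp, inner_dd_jd hX hp, inner_jd_jd hX hp]
  ring

end

section
variable {w : E3 → ℝ} (hw : Adm w) {X V : E3} (hX : X 0 ^ 2 + X 1 ^ 2 + X 2 ^ 2 = 1)
  (hp : 0 < 1 + X 2)
include hw hX hp

lemma contDiff_F : DifferentiableAt ℝ (Fc w) X ∧ DifferentiableAt ℝ (Fs w) X := by
  have hV : X 0 * (0 : E3) 0 + X 1 * (0 : E3) 1 + X 2 * (0 : E3) 2 = 0 := by simp
  have h1 := (fderiv_int hw (g := Real.cos) (g' := fun u => -Real.sin u) Real.contDiff_cos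
    Real.hasDerivAt_cos (by fun_prop) (by simp) hX hp hV).1
  have h2 := (fderiv_int hw (g := Real.sin) (g' := fun u => Real.cos u) Real.contDiff_sin
    Real.hasDerivAt_sin (by fun_prop) (by simp) hX hp hV).1
  have hc : ∀ i : Fin 3, DifferentiableAt ℝ (fun X : E3 => X i) X := fun i =>
    (contDiff_coord3 i).differentiable (by simp) X
  exact ⟨(h1.const_mul _).sub ((hc 0).const_mul _), (h2.const_mul _).sub ((hc 1).const_mul _)⟩

variable (hV : X 0 * V 0 + X 1 * V 1 + X 2 * V 2 = 0)
include hV

omit hw hX hp hV in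
lemma fderiv_coord (i : Fin 3) : fderiv ℝ (fun X : E3 => X i) X V = V i := by
  have : HasFDerivAt (fun X : E3 => X i) (EuclideanSpace.proj (𝕜 := ℝ) i : E3 →L[ℝ] ℝ) X :=
    (EuclideanSpace.proj (𝕜 := ℝ) i : E3 →L[ℝ] ℝ).hasFDerivAt
  rw [this.fderiv]
  rfl

lemma fderiv_Fc : fderiv ℝ (Fc w) X V
    = -(A11 w X * d1 X V + A12 w X * d2 X V) + om X V * Fs w X := by
  have hpi := Real.pi_pos
  have hXU : X ∈ UU := hp
  obtain ⟨h1, h2⟩ := fderiv_int hw (g := Real.cos) (g' := fun u => -Real.sin u) Real.contDiff_cos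
    Real.hasDerivAt_cos (by fun_prop) (by simp) hX hp hV
  have hc : ∀ i : Fin 3, DifferentiableAt ℝ (fun X : E3 => X i) X := fun i =>
    (contDiff_coord3 i).differentiable (by simp) X
  have e : fderiv ℝ (Fc w) X V = 1 / Real.pi * fderiv ℝ (fun X => ∫ u in (0 : ℝ)..(2 * Real.pi),
      Real.cos u * w (ZZ X u)) X V - nu * V 0 := by
    have := (h1.hasFDerivAt.const_mul (1 / Real.pi)).sub ((hc 0).hasFDerivAt.const_mul nu)
    have h3 : HasFDerivAt (Fc w) _ X := this
    rw [h3.fderiv]
    simp only [_root_.sub_apply, _root_.smul_apply, smul_eq_mul]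
    rw [fderiv_coord]
  rw [e, h2, V0_eq hX hp hV]
  have ca := continuous_aa hw hXU
  have cb := continuous_bb hw hXU
  have cS := continuous_SS X
  have hav : 1 / Real.pi * (∫ u in (0 : ℝ)..(2 * Real.pi), Real.cos u *
        (mm X * inner ℝ (dd X u) V * aa w X u - inner ℝ (jd X u) V * SS X u * bb w X u))
      = -(A11 w X * d1 X V + A12 w X * d2 X V) + (1 + mm X) * d1 X V := by
    have e1 : ∀ u, Real.cos u * (mm X * inner ℝ (dd X u) V * aa w X u
          - inner ℝ (jd X u) V * SS X u * bb w X u)
        = (-(d1 X V)) * (Real.cos u * ((1 + mm X * (1 - aa w X u)) * Real.cos u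
            - bb w X u * SS X u * Real.sin u))
          + (-(d2 X V)) * (Real.cos u * ((1 + mm X * (1 - aa w X u)) * Real.sin u
            + bb w X u * SS X u * Real.cos u))
          + ((1 + mm X) * d1 X V / 2) * (1 + Real.cos (2 * u))
          + ((1 + mm X) * d2 X V / 2) * Real.sin (2 * u) := by
      intro u
      rw [inner_dd_eq, inner_jd_eq, Real.cos_two_mul, Real.sin_two_mul]
      ring
    simp_rw [e1]
    rw [intervalIntegral.integral_add (Continuous.intervalIntegrable (by fun_prop) _ _)
        (Continuous.intervalIntegrable (by fun_prop) _ _),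
      intervalIntegral.integral_add (Continuous.intervalIntegrable (by fun_prop) _ _)
        (Continuous.intervalIntegrable (by fun_prop) _ _),
      intervalIntegral.integral_add (Continuous.intervalIntegrable (by fun_prop) _ _)
        (Continuous.intervalIntegrable (by fun_prop) _ _),
      intervalIntegral.integral_const_mul, intervalIntegral.integral_const_mul,
      intervalIntegral.integral_const_mul, intervalIntegral.integral_const_mul,
      intervalIntegral.integral_add (Continuous.intervalIntegrable (by fun_prop) _ _)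
        (Continuous.intervalIntegrable (by fun_prop) _ _), int_cos_two, int_sin_two, hc1,
      A11, A12]
    field_simp
    ring
  rw [mul_sub, hav]
  have hs : ∫ u in (0 : ℝ)..(2 * Real.pi), -Real.sin u * w (ZZ X u)
      = - ∫ u in (0 : ℝ)..(2 * Real.pi), Real.sin u * w (ZZ X u) := by
    rw [← intervalIntegral.integral_neg]
    simp only [neg_mul]
  rw [hs, Fs, mm]
  ring

lemma fderiv_Fs : fderiv ℝ (Fs w) X V
    = -(A21 w X * d1 X V + A22 w X * d2 X V) - om X V * Fc w X := by
  have hpi := Real.pi_pos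
  have hXU : X ∈ UU := hp
  obtain ⟨h1, h2⟩ := fderiv_int hw (g := Real.sin) (g' := fun u => Real.cos u) Real.contDiff_sin
    Real.hasDerivAt_sin (by fun_prop) (by simp) hX hp hV
  have hc : ∀ i : Fin 3, DifferentiableAt ℝ (fun X : E3 => X i) X := fun i =>
    (contDiff_coord3 i).differentiable (by simp) X
  have e : fderiv ℝ (Fs w) X V = 1 / Real.pi * fderiv ℝ (fun X => ∫ u in (0 : ℝ)..(2 * Real.pi),
      Real.sin u * w (ZZ X u)) X V - nu * V 1 := by
    have := (h1.hasFDerivAt.const_mul (1 / Real.pi)).sub ((hc 1).hasFDerivAt.const_mul nu)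
    have h3 : HasFDerivAt (Fs w) _ X := this
    rw [h3.fderiv]
    simp only [_root_.sub_apply, _root_.smul_apply, smul_eq_mul]
    rw [fderiv_coord]
  rw [e, h2, V1_eq hX hp hV]
  have ca := continuous_aa hw hXU
  have cb := continuous_bb hw hXU
  have cS := continuous_SS X
  have hav : 1 / Real.pi * (∫ u in (0 : ℝ)..(2 * Real.pi), Real.sin u *
        (mm X * inner ℝ (dd X u) V * aa w X u - inner ℝ (jd X u) V * SS X u * bb w X u))
      = -(A21 w X * d1 X V + A22 w X * d2 X V) + (1 + mm X) * d2 X V := by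
    have e1 : ∀ u, Real.sin u * (mm X * inner ℝ (dd X u) V * aa w X u
          - inner ℝ (jd X u) V * SS X u * bb w X u)
        = (-(d1 X V)) * (Real.sin u * ((1 + mm X * (1 - aa w X u)) * Real.cos u
            - bb w X u * SS X u * Real.sin u))
          + (-(d2 X V)) * (Real.sin u * ((1 + mm X * (1 - aa w X u)) * Real.sin u
            + bb w X u * SS X u * Real.cos u))
          + ((1 + mm X) * d2 X V / 2) * (1 + (-1) * Real.cos (2 * u))
          + ((1 + mm X) * d1 X V / 2) * Real.sin (2 * u) := by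
      intro u
      have h2 := Real.sin_sq_add_cos_sq u
      rw [inner_dd_eq, inner_jd_eq, Real.cos_two_mul, Real.sin_two_mul]
      linear_combination ((1 + mm X) * d2 X V) * h2
    simp_rw [e1]
    rw [intervalIntegral.integral_add (Continuous.intervalIntegrable (by fun_prop) _ _)
        (Continuous.intervalIntegrable (by fun_prop) _ _),
      intervalIntegral.integral_add (Continuous.intervalIntegrable (by fun_prop) _ _)
        (Continuous.intervalIntegrable (by fun_prop) _ _),
      intervalIntegral.integral_add (Continuous.intervalIntegrable (by fun_prop) _ _)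
        (Continuous.intervalIntegrable (by fun_prop) _ _),
      intervalIntegral.integral_const_mul, intervalIntegral.integral_const_mul,
      intervalIntegral.integral_const_mul, intervalIntegral.integral_const_mul,
      intervalIntegral.integral_add (Continuous.intervalIntegrable (by fun_prop) _ _)
        (Continuous.intervalIntegrable (by fun_prop) _ _), intervalIntegral.integral_const_mul,
      int_cos_two, int_sin_two, hc1, A21, A22]
    field_simp
    ring
  rw [mul_sub, hav, Fc, mm]
  ring

end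

/-- the estimates for the matrix -/
lemma entries_F {w : E3 → ℝ} (hw : Adm w) {X : E3} (hX : X 0 ^ 2 + X 1 ^ 2 + X 2 ^ 2 = 1)
    (h0 : 0 ≤ X 2) (hh : 1 / 2 ≤ X 2 ^ 2) :
    ∃ x P R B, Entries (A11 w X) (A12 w X) (A21 w X) (A22 w X) x P R B := by
  have hp : 0 < 1 + X 2 := by linarith
  have hXU : X ∈ UU := hp
  have hm0 : 0 < mm X := by
    have : (242 / 100 : ℝ) ≤ (nu * X 2) ^ 2 := by rw [nu, mul_pow]; nlinarith
    have h1 : 0 ≤ nu * X 2 := by rw [nu]; positivity
    rw [mm]
    nlinarith
  have hm2 : mm X ≤ 3 / 2 := by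
    have : X 2 ≤ 1 := by nlinarith [sq_nonneg (X 0), sq_nonneg (X 1)]
    rw [mm, nu]; linarith
  refine entries_of (continuous_aa hw hXU) (continuous_bb hw hXU) (continuous_SS X)
    (aabb_le hw hX hp) (fun u => Real.abs_sin_le_one _) hm0 hm2 (fun γ => ?_)
  exact K_le hX hh h0 γ

end Pool.Agent.H18.Col
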