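import Pool.Agent.H18.Col.Mono
import Pool.Agent.H74.FAC.Chg

open MeasureTheory Set
open scoped Topology ContDiff ENNReal

noncomputable section

namespace Pool.Agent.H18.Col

open Pool.Agent.H74.FAC (E2 bv pt det_E2 pt_zero pt_one pt_eq)

/-- the Lambert map (area preserving) -/
def ss (x : E2) : ℝ := Real.sqrt (1 - (x 0 ^ 2 + x 1 ^ 2) / 4)
def XX (x : E2) : E3 := v3 (ss x * x 0) (ss x * x 1) (1 - (x 0 ^ 2 + x 1 ^ 2) / 2)

/-- the disc corresponding to the cap of radius `π/4` -/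
def Dsc : Set E2 := {x | x 0 ^ 2 + x 1 ^ 2 ≤ 2 - Real.sqrt 2}

lemma sqrt2_bounds : 141 / 100 ≤ Real.sqrt 2 ∧ Real.sqrt 2 ≤ 142 / 100 := by
  constructor
  · apply Real.le_sqrt_of_sq_le; norm_num
  · rw [Real.sqrt_le_left (by norm_num)]; norm_num

lemma ss_sq {x : E2} (hx : x 0 ^ 2 + x 1 ^ 2 < 4) : ss x ^ 2 = 1 - (x 0 ^ 2 + x 1 ^ 2) / 4 :=
  Real.sq_sqrt (by linarith)

lemma ss_pos {x : E2} (hx : x 0 ^ 2 + x 1 ^ 2 < 4) : 0 < ss x := Real.sqrt_pos.2 (by linarith)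

lemma Dsc_lt {x : E2} (hx : x ∈ Dsc) : x 0 ^ 2 + x 1 ^ 2 < 4 := by
  have h1 : x 0 ^ 2 + x 1 ^ 2 ≤ 2 - Real.sqrt 2 := hx
  have := sqrt2_bounds.1
  linarith

lemma XX_unit {x : E2} (hx : x 0 ^ 2 + x 1 ^ 2 < 4) :
    XX x 0 ^ 2 + XX x 1 ^ 2 + XX x 2 ^ 2 = 1 := by
  have h := ss_sq hx
  simp only [XX, v3_zero, v3_one, v3_two]
  linear_combination (x 0 ^ 2 + x 1 ^ 2) * h

lemma XX_cap {x : E2} (hx : x ∈ Dsc) : InCap (XX x) := by
  have h1 : x 0 ^ 2 + x 1 ^ 2 ≤ 2 - Real.sqrt 2 := hx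
  have h2 := sqrt2_bounds.1
  have h3 : Real.sqrt 2 ^ 2 = 2 := Real.sq_sqrt (by norm_num)
  refine ⟨XX_unit (Dsc_lt hx), ?_, ?_⟩
  · simp only [XX, v3_two]; linarith
  · simp only [XX, v3_two]
    have : Real.sqrt 2 / 2 ≤ 1 - (x 0 ^ 2 + x 1 ^ 2) / 2 := by linarith
    have := pow_le_pow_left₀ (by positivity) this 2
    linarith

lemma XX_inj {x y : E2} (hy : y 0 ^ 2 + y 1 ^ 2 < 4)
    (h : XX x = XX y) : x = y := by
  have h2 : XX x 2 = XX y 2 := by rw [h]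
  have h0 : XX x 0 = XX y 0 := by rw [h]
  have h1 : XX x 1 = XX y 1 := by rw [h]
  simp only [XX, v3_zero, v3_one, v3_two] at h0 h1 h2
  have e : x 0 ^ 2 + x 1 ^ 2 = y 0 ^ 2 + y 1 ^ 2 := by linarith
  have es : ss x = ss y := by rw [ss, ss, e]
  have hp := ss_pos hy
  rw [es] at h0 h1
  ext i
  fin_cases i
  · exact mul_left_cancel₀ hp.ne' h0
  · exact mul_left_cancel₀ hp.ne' h1

/-- the derivative of the Lambert map -/
def DX (x η : E2) : E3 := v3 (ss x * η 0 - x 0 * (x 0 * η 0 + x 1 * η 1) / (4 * ss x))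
  (ss x * η 1 - x 1 * (x 0 * η 0 + x 1 * η 1) / (4 * ss x)) (-(x 0 * η 0 + x 1 * η 1))

section
variable {x : E2} (hx : x 0 ^ 2 + x 1 ^ 2 < 4) (η : E2)
include hx

lemma differentiableAt_ss : DifferentiableAt ℝ ss x := by
  have h0 : Differentiable ℝ (fun x : E2 => x 0) :=
    (EuclideanSpace.proj (𝕜 := ℝ) 0 : E2 →L[ℝ] ℝ).differentiable
  have h1 : Differentiable ℝ (fun x : E2 => x 1) :=
    (EuclideanSpace.proj (𝕜 := ℝ) 1 : E2 →L[ℝ] ℝ).differentiable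
  have h2 : DifferentiableAt ℝ (fun x : E2 => 1 - (x 0 ^ 2 + x 1 ^ 2) / 4) x := by fun_prop
  exact h2.sqrt (by linarith)

lemma differentiableAt_XX : DifferentiableAt ℝ XX x := by
  have h0 : Differentiable ℝ (fun x : E2 => x 0) :=
    (EuclideanSpace.proj (𝕜 := ℝ) 0 : E2 →L[ℝ] ℝ).differentiable
  have h1 : Differentiable ℝ (fun x : E2 => x 1) :=
    (EuclideanSpace.proj (𝕜 := ℝ) 1 : E2 →L[ℝ] ℝ).differentiable
  have hs := differentiableAt_ss hx
  have e : XX = fun x : E2 => (ss x * x 0) • v3 1 0 0 + (ss x * x 1) • v3 0 1 0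
      + (1 - (x 0 ^ 2 + x 1 ^ 2) / 2) • v3 0 0 1 := by
    funext x
    rw [XX, v3_eq]
  rw [e]
  fun_prop

lemma fderiv_XX : fderiv ℝ XX x η = DX x η := by
  have hd := differentiableAt_XX hx
  have hcurve : HasDerivAt (fun t : ℝ => x + t • η) η 0 := by
    have := ((hasDerivAt_id (0 : ℝ)).smul_const η).const_add x
    simpa using this
  have hX0 : HasFDerivAt XX (fderiv ℝ XX x) (x + (0 : ℝ) • η) := by
    simpa using hd.hasFDerivAt
  have h1 := hX0.comp_hasDerivAt (0 : ℝ) hcurve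
  have hsp := ss_pos hx
  have hsq := ss_sq hx
  have hc : ∀ i : Fin 2, HasDerivAt (fun t : ℝ => (x + t • η) i) (η i) 0 := by
    intro i
    exact (EuclideanSpace.proj (𝕜 := ℝ) i : E2 →L[ℝ] ℝ).hasFDerivAt.comp_hasDerivAt (0 : ℝ) hcurve
  have hx0 : (x + (0 : ℝ) • η) = x := by simp
  have hq : HasDerivAt (fun t : ℝ => (x + t • η) 0 ^ 2 + (x + t • η) 1 ^ 2)
      (2 * (x 0 * η 0 + x 1 * η 1)) 0 := by
    have := ((hc 0).fun_pow 2).add ((hc 1).fun_pow 2)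
    refine this.congr_deriv ?_
    rw [hx0]; push_cast; ring
  have hs : HasDerivAt (fun t : ℝ => ss (x + t • η)) (-(x 0 * η 0 + x 1 * η 1) / (4 * ss x)) 0 := by
    have h3 := ((hq.div_const 4).const_sub 1).sqrt (by
      simp only [hx0]; linarith)
    refine h3.congr_deriv ?_
    simp only [hx0]
    rw [← ss]
    field_simp
  have h2 : HasDerivAt (fun t : ℝ => XX (x + t • η)) (DX x η) 0 := by
    have a0 := hs.fun_mul (hc 0)
    have a1 := hs.fun_mul (hc 1)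
    have a2 := (hq.div_const 2).const_sub 1
    have := hasDerivAt_v3 a0 a1 a2
    refine this.congr_deriv ?_
    rw [hx0, DX]
    congr 1
    · ring
    · ring
    · ring
  exact h1.unique h2

lemma tangent_DX : XX x 0 * DX x η 0 + XX x 1 * DX x η 1 + XX x 2 * DX x η 2 = 0 := by
  have hsp := ss_pos hx
  have hsq := ss_sq hx
  simp only [XX, DX, v3_zero, v3_one, v3_two]
  field_simp
  linear_combination 8 * (x 0 * η 0 + x 1 * η 1) * hsq

lemma one_add_XX2 : 1 + XX x 2 = 2 * ss x ^ 2 := by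
  rw [ss_sq hx]
  simp only [XX, v3_two]
  ring

lemma XX_pos : 0 < 1 + XX x 2 := by
  rw [one_add_XX2 hx]
  have := ss_pos hx
  positivity

lemma d1_DX : d1 (XX x) (DX x η) = ss x * η 0 + x 0 * (x 0 * η 0 + x 1 * η 1) / (4 * ss x) := by
  have hsp := ss_pos hx
  rw [d1, inner_dd_V (XX_pos hx) 0 (tangent_DX hx η), one_add_XX2 hx]
  simp only [tau, XX, DX, v3_zero, v3_one, v3_two, Real.cos_zero, Real.sin_zero]
  field_simp
  ring

lemma d2_DX : d2 (XX x) (DX x η) = ss x * η 1 + x 1 * (x 0 * η 0 + x 1 * η 1) / (4 * ss x) := by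
  have hsp := ss_pos hx
  rw [d2, inner_jd_V (XX_pos hx) 0 (tangent_DX hx η), one_add_XX2 hx]
  simp only [tau', XX, DX, v3_zero, v3_one, v3_two, Real.cos_zero, Real.sin_zero]
  field_simp
  ring

lemma om_DX : om (XX x) (DX x η) = (x 1 * η 0 - x 0 * η 1) / 2 := by
  have hsp := ss_pos hx
  rw [om, one_add_XX2 hx]
  simp only [XX, DX, v3_zero, v3_one]
  field_simp
  ring

end

/-- the map `F` in the Lambert chart -/
def FF (w : E3 → ℝ) (x : E2) : E2 := pt (Fc w (XX x)) (Fs w (XX x))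

lemma norm_pt_sq (a b : ℝ) : ‖pt a b‖ ^ 2 = a ^ 2 + b ^ 2 := by
  rw [EuclideanSpace.norm_sq_eq, Fin.sum_univ_two]
  simp

section
variable {w : E3 → ℝ} (hw : Adm w) {x : E2} (hx : x ∈ Dsc)
include hw hx

lemma differentiableAt_FF : DifferentiableAt ℝ (FF w) x := by
  have hX := XX_cap hx
  obtain ⟨h1, h2⟩ := contDiff_F hw hX.unit hX.pos
  have hd := differentiableAt_XX (Dsc_lt hx)
  have e : FF w = fun x => Fc w (XX x) • bv 0 + Fs w (XX x) • bv 1 := by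
    funext x; rw [FF, pt_eq]
  rw [e]
  have a1 : DifferentiableAt ℝ (fun x => Fc w (XX x)) x := h1.comp x hd
  have a2 : DifferentiableAt ℝ (fun x => Fs w (XX x)) x := h2.comp x hd
  fun_prop

lemma fderiv_FF (η : E2) : fderiv ℝ (FF w) x η
    = pt (-(A11 w (XX x) * d1 (XX x) (DX x η) + A12 w (XX x) * d2 (XX x) (DX x η))
        + om (XX x) (DX x η) * Fs w (XX x))
      (-(A21 w (XX x) * d1 (XX x) (DX x η) + A22 w (XX x) * d2 (XX x) (DX x η))
        - om (XX x) (DX x η) * Fc w (XX x)) := by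
  have hX := XX_cap hx
  obtain ⟨h1, h2⟩ := contDiff_F hw hX.unit hX.pos
  have hd := differentiableAt_XX (Dsc_lt hx)
  have e : FF w = fun x => Fc w (XX x) • bv 0 + Fs w (XX x) • bv 1 := by
    funext x; rw [FF, pt_eq]
  have a1 : HasFDerivAt (fun x => Fc w (XX x)) ((fderiv ℝ (Fc w) (XX x)).comp (fderiv ℝ XX x)) x :=
    h1.hasFDerivAt.comp x hd.hasFDerivAt
  have a2 : HasFDerivAt (fun x => Fs w (XX x)) ((fderiv ℝ (Fs w) (XX x)).comp (fderiv ℝ XX x)) x :=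
    h2.hasFDerivAt.comp x hd.hasFDerivAt
  have a3 := (a1.smul_const (bv 0)).add (a2.smul_const (bv 1))
  rw [e]
  have a4 : HasFDerivAt (fun x => Fc w (XX x) • bv 0 + Fs w (XX x) • bv 1) _ x := a3
  rw [a4.fderiv]
  simp only [_root_.add_apply, ContinuousLinearMap.smulRight_apply, ContinuousLinearMap.comp_apply]
  rw [fderiv_XX (Dsc_lt hx), fderiv_Fc hw hX.unit hX.pos (tangent_DX (Dsc_lt hx) η),
    fderiv_Fs hw hX.unit hX.pos (tangent_DX (Dsc_lt hx) η), pt_eq]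

omit hw hx in
/-- the algebra of the determinant -/
lemma det_alg {a b c d f g p q s ε : ℝ} (hs9 : 9 / 10 ≤ s) (hs1 : s ≤ 1)
    (hsq : s ^ 2 = 1 - (p ^ 2 + q ^ 2) / 4) (hp1 : |p| ≤ 1) (hq1 : |q| ≤ 1)
    (ba : |a| ≤ 10) (bb : |b| ≤ 10) (bc : |c| ≤ 10) (bd : |d| ≤ 10) (hf : |f| ≤ ε) (hg : |g| ≤ ε)
    (hdet : 1 ≤ a * d - b * c) :
    1 - 100 * ε ≤
      (-(a * (s + p * p / (4 * s)) + b * (q * p / (4 * s))) + q / 2 * g)
        * (-(c * (p * q / (4 * s)) + d * (s + q * q / (4 * s))) - -p / 2 * f)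
      - (-(a * (p * q / (4 * s)) + b * (s + q * q / (4 * s))) + -p / 2 * g)
        * (-(c * (s + p * p / (4 * s)) + d * (q * p / (4 * s))) - q / 2 * f) := by
  have hsp : 0 < s := by linarith
  have hdiv : ∀ a b : ℝ, |a| ≤ 1 → |b| ≤ 1 → |a * b / (4 * s)| ≤ 3 / 10 := by
    intro a b ha hb
    rw [abs_div, abs_mul, abs_of_pos (by positivity : (0:ℝ) < 4 * s), div_le_iff₀ (by positivity)]
    have : |a| * |b| ≤ 1 * 1 := mul_le_mul ha hb (abs_nonneg _) zero_le_one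
    nlinarith
  have hDdet : (s + p * p / (4 * s)) * (s + q * q / (4 * s)) - p * q / (4 * s) * (q * p / (4 * s))
      = 1 := by
    have : (s + p * p / (4 * s)) * (s + q * q / (4 * s)) - p * q / (4 * s) * (q * p / (4 * s))
      = s ^ 2 + (p ^ 2 + q ^ 2) / 4 := by field_simp; ring
    rw [this, hsq]; ring
  have e00 : |s + p * p / (4 * s)| ≤ 13 / 10 := by
    have := abs_le.1 (hdiv p p hp1 hp1)
    rw [abs_le]; constructor <;> linarith [this.1, this.2]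
  have e11 : |s + q * q / (4 * s)| ≤ 13 / 10 := by
    have := abs_le.1 (hdiv q q hq1 hq1)
    rw [abs_le]; constructor <;> linarith [this.1, this.2]
  have e01 : |p * q / (4 * s)| ≤ 13 / 10 := (hdiv p q hp1 hq1).trans (by norm_num)
  have e10 : |q * p / (4 * s)| ≤ 13 / 10 := (hdiv q p hq1 hp1).trans (by norm_num)
  generalize s + p * p / (4 * s) = D00 at *
  generalize s + q * q / (4 * s) = D11 at *
  generalize p * q / (4 * s) = D01 at *
  generalize q * p / (4 * s) = D10 at *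
  have bd' : ∀ (u v y z : ℝ), |u| ≤ 10 → |v| ≤ 10 → |y| ≤ 13 / 10 → |z| ≤ 13 / 10 →
      |u * y + v * z| ≤ 26 := by
    intro u v y z hu hv hy hz
    refine (abs_add_le _ _).trans ?_
    rw [abs_mul, abs_mul]
    have := mul_le_mul hu hy (abs_nonneg _) (by norm_num)
    have := mul_le_mul hv hz (abs_nonneg _) (by norm_num)
    linarith
  have p00 := bd' a b D00 D10 ba bb e00 e10
  have p01 := bd' a b D01 D11 ba bb e01 e11
  have p10 := bd' c d D00 D10 bc bd e00 e10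
  have p11 := bd' c d D01 D11 bc bd e01 e11
  have key : (-(a * D00 + b * D10) + q / 2 * g) * (-(c * D01 + d * D11) - -p / 2 * f)
      - (-(a * D01 + b * D11) + -p / 2 * g) * (-(c * D00 + d * D10) - q / 2 * f)
      = (a * d - b * c) * (D00 * D11 - D01 * D10)
        + (-(p / 2 * f * (a * D00 + b * D10)) - q / 2 * g * (c * D01 + d * D11)
          - q / 2 * f * (a * D01 + b * D11) - p / 2 * g * (c * D00 + d * D10)) := by ring
  have hε0 : 0 ≤ ε := (abs_nonneg _).trans hf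
  have bm : ∀ (u v y : ℝ), |u| ≤ 1 → |v| ≤ ε → |y| ≤ 26 → |u / 2 * v * y| ≤ 13 * ε := by
    intro u v y hu hv hy
    rw [abs_mul, abs_mul, abs_div, abs_two]
    have h1 : |u| / 2 * |v| ≤ 1 / 2 * ε :=
      mul_le_mul (by linarith) hv (abs_nonneg _) (by norm_num)
    calc |u| / 2 * |v| * |y| ≤ 1 / 2 * ε * 26 := mul_le_mul h1 hy (abs_nonneg _) (by positivity)
      _ = 13 * ε := by ring
  have m1 := abs_le.1 (bm p f _ hp1 hf p00)
  have m2 := abs_le.1 (bm q g _ hq1 hg p11)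
  have m3 := abs_le.1 (bm q f _ hq1 hf p01)
  have m4 := abs_le.1 (bm p g _ hp1 hg p10)
  rw [key, hDdet, mul_one]
  linarith [m1.1, m1.2, m2.1, m2.2, m3.1, m3.2, m4.1, m4.2]

/-- the Jacobian of `F` is at least `1 - O(|F|)` -/
lemma det_FF {ε : ℝ} (hε : ‖FF w x‖ ≤ ε) : 1 - 100 * ε ≤ (fderiv ℝ (FF w) x).det := by
  have hX := XX_cap hx
  have hx4 := Dsc_lt hx
  have hsq := ss_sq hx4
  obtain ⟨X, P, R, B, hE⟩ := entries_F hw hX.unit hX.nonneg hX.half
  have hdet := hE.det_ge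
  obtain ⟨b11, b12, b21, b22⟩ := hE.bound
  have hε0 : 0 ≤ ε := (norm_nonneg _).trans hε
  have hF : Fc w (XX x) ^ 2 + Fs w (XX x) ^ 2 ≤ ε ^ 2 := by
    rw [← norm_pt_sq]
    exact pow_le_pow_left₀ (norm_nonneg _) hε 2
  have hFc : |Fc w (XX x)| ≤ ε := abs_le_of_sq_le_sq (by nlinarith [sq_nonneg (Fs w (XX x))]) hε0
  have hFs : |Fs w (XX x)| ≤ ε := abs_le_of_sq_le_sq (by nlinarith [sq_nonneg (Fc w (XX x))]) hε0
  have hxD : x 0 ^ 2 + x 1 ^ 2 ≤ 2 - Real.sqrt 2 := hx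
  have h2 := sqrt2_bounds.1
  have hsp := ss_pos hx4
  have hs9 : 9 / 10 ≤ ss x := by nlinarith
  have hs1 : ss x ≤ 1 := by nlinarith [sq_nonneg (x 0), sq_nonneg (x 1)]
  have hp1 : |x 0| ≤ 1 := abs_le_of_sq_le_sq (by nlinarith [sq_nonneg (x 1)]) (by norm_num)
  have hq1 : |x 1| ≤ 1 := abs_le_of_sq_le_sq (by nlinarith [sq_nonneg (x 0)]) (by norm_num)
  have hb00 : bv 0 0 = 1 := by simp [bv]
  have hb01 : bv 0 1 = 0 := by simp [bv]
  have hb10 : bv 1 0 = 0 := by simp [bv]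
  have hb11 : bv 1 1 = 1 := by simp [bv]
  have h := det_alg hs9 hs1 hsq hp1 hq1 b11 b12 b21 b22 hFc hFs hdet
  rw [det_E2, fderiv_FF hw hx, fderiv_FF hw hx]
  simp only [pt_zero, pt_one]
  rw [d1_DX hx4, d2_DX hx4, om_DX hx4, d1_DX hx4, d2_DX hx4, om_DX hx4]
  rw [hb00, hb01, hb10, hb11]
  simp only [mul_one, mul_zero, add_zero, zero_add, sub_zero, zero_sub]
  exact h

end

end Pool.Agent.H18.Col
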