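import Pool.Agent.H18.Col.Deriv

open MeasureTheory Set InnerProductGeometry
open scoped Topology ContDiff ENNReal Convolution

noncomputable section

namespace Pool.Agent.H18.Col

/-- one-Lipschitz functions on the unit sphere with its angular distance -/
def LipS (w : E3 → ℝ) : Prop := ∀ Z Z' : E3, ‖Z‖ = 1 → ‖Z'‖ = 1 → |w Z - w Z'| ≤ angle Z Z'

lemma chord_angle {a b : E3} (ha : ‖a‖ = 1) (hb : ‖b‖ = 1) :
    ‖a - b‖ = 2 * Real.sin (angle a b / 2) := by
  have h1 : ‖a - b‖ ^ 2 = (2 * Real.sin (angle a b / 2)) ^ 2 := by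
    have h3 : Real.cos (angle a b) = inner ℝ a b := by
      rw [cos_angle, ha, hb]; simp
    have h4 : Real.cos (angle a b) = 1 - 2 * Real.sin (angle a b / 2) ^ 2 := by
      have := Real.cos_sq' (angle a b / 2)
      have h5 := Real.cos_two_mul (angle a b / 2)
      rw [show 2 * (angle a b / 2) = angle a b by ring] at h5
      rw [h5, this]; ring
    rw [norm_sub_sq_real, ha, hb, mul_pow, ← h3, h4]
    ring
  have h2 : 0 ≤ 2 * Real.sin (angle a b / 2) := by
    have := angle_nonneg a b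
    have := angle_le_pi a b
    have := Real.sin_nonneg_of_nonneg_of_le_pi (x := angle a b / 2) (by linarith) (by linarith)
    linarith
  exact (pow_left_inj₀ (norm_nonneg _) h2 (by norm_num)).1 h1

lemma angle_le_two_chord {a b : E3} (ha : ‖a‖ = 1) (hb : ‖b‖ = 1) :
    angle a b ≤ 2 * ‖a - b‖ := by
  rw [chord_angle ha hb]
  have h0 := angle_nonneg a b
  have h1 := angle_le_pi a b
  have hpi := Real.pi_pos
  have h2 := Real.mul_le_sin (x := angle a b / 2) (by linarith) (by linarith)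
  have h3 : angle a b / 4 ≤ 2 / Real.pi * (angle a b / 2) := by
    have hpi4 : Real.pi ≤ 4 := Real.pi_le_four
    rw [div_mul_eq_mul_div, le_div_iff₀ hpi]
    nlinarith
  linarith

lemma angle_chord {a b : E3} (ha : ‖a‖ = 1) (hb : ‖b‖ = 1) :
    angle a b * (1 - ‖a - b‖ ^ 2) ≤ ‖a - b‖ := by
  have h0 := angle_nonneg a b
  have h2 := angle_le_two_chord ha hb
  have h3 := Real.sin_ge_sub_cube (x := angle a b / 2) (by linarith)
  have h4 := chord_angle ha hb
  set t := angle a b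
  set c := ‖a - b‖
  have h5 : t - t ^ 3 / 24 ≤ c := by rw [h4]; nlinarith
  have h6 : t ^ 2 ≤ 4 * c ^ 2 := by nlinarith
  have h7 : t * (t ^ 2 / 24) ≤ t * c ^ 2 := mul_le_mul_of_nonneg_left (by nlinarith [sq_nonneg c]) h0
  nlinarith

lemma norm_normalize {z : E3} (hz : z ≠ 0) : ‖‖z‖⁻¹ • z‖ = 1 := by
  rw [norm_smul, norm_inv, norm_norm, inv_mul_cancel₀ (norm_ne_zero_iff.2 hz)]

/-- normalisation is Lipschitz away from the origin -/
lemma normalize_lip {z z' : E3} {ρ : ℝ} (hρ : 0 < ρ) (hz : ρ ≤ ‖z‖) (hz' : ρ ≤ ‖z'‖) :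
    ‖‖z‖⁻¹ • z - ‖z'‖⁻¹ • z'‖ ≤ ‖z - z'‖ / ρ := by
  have h1 : 0 < ‖z‖ := hρ.trans_le hz
  have h2 : 0 < ‖z'‖ := hρ.trans_le hz'
  have hz0 : z ≠ 0 := norm_pos_iff.1 h1
  have hz0' : z' ≠ 0 := norm_pos_iff.1 h2
  rw [le_div_iff₀ hρ]
  rw [← sq_le_sq₀ (by positivity) (norm_nonneg _)]
  rw [mul_pow, norm_sub_sq_real, norm_sub_sq_real, norm_normalize hz0, norm_normalize hz0',
    real_inner_smul_left, real_inner_smul_right]
  have h3 : inner ℝ z z' ≤ ‖z‖ * ‖z'‖ := real_inner_le_norm z z'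
  set p := ‖z‖
  set q := ‖z'‖
  set i : ℝ := inner ℝ z z'
  have h4 : ρ ^ 2 ≤ p * q := by nlinarith
  have h5 : 0 ≤ 1 ^ 2 - 2 * (p⁻¹ * (q⁻¹ * i)) + 1 ^ 2 := by
    have : p⁻¹ * (q⁻¹ * i) ≤ 1 := by
      rw [← mul_assoc, ← mul_inv, inv_mul_le_iff₀ (by positivity), mul_one]
      exact h3
    linarith
  calc (1 ^ 2 - 2 * (p⁻¹ * (q⁻¹ * i)) + 1 ^ 2) * ρ ^ 2
      ≤ (1 ^ 2 - 2 * (p⁻¹ * (q⁻¹ * i)) + 1 ^ 2) * (p * q) := mul_le_mul_of_nonneg_left h4 h5
    _ = 2 * (p * q) - 2 * i := by field_simp; ring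
    _ ≤ p ^ 2 - 2 * i + q ^ 2 := by nlinarith [sq_nonneg (p - q)]

/-- extension to the whole space -/
def gext (w : E3 → ℝ) (z : E3) : ℝ := min 1 (2 * ‖z‖) * w (‖z‖⁻¹ • z)

lemma gext_eq (w : E3 → ℝ) {z : E3} (hz : 1 / 2 ≤ ‖z‖) : gext w z = w (‖z‖⁻¹ • z) := by
  rw [gext, min_eq_left (by linarith), one_mul]

lemma gext_unit (w : E3 → ℝ) {z : E3} (hz : ‖z‖ = 1) : gext w z = w z := by
  rw [gext_eq w (by rw [hz]; norm_num), hz, inv_one, one_smul]

section
variable {w : E3 → ℝ} (hw : LipS w)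
include hw

lemma LipS.bound : ∃ C : ℝ, 0 ≤ C ∧ ∀ Z : E3, ‖Z‖ = 1 → |w Z| ≤ C := by
  set e : E3 := v3 1 0 0
  have he : ‖e‖ = 1 := by
    have := norm3_sq e
    simp only [e, v3_zero, v3_one, v3_two] at this
    have h2 : ‖v3 1 0 0‖ ^ 2 = 1 := by rw [this]; norm_num
    nlinarith [norm_nonneg (v3 1 0 0)]
  refine ⟨|w e| + Real.pi, by have := Real.pi_pos; positivity, fun Z hZ => ?_⟩
  have h1 := hw Z e hZ he
  have h2 := angle_le_pi Z e
  have h3 : |w Z| ≤ |w Z - w e| + |w e| := by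
    have := abs_add_le (w Z - w e) (w e)
    rwa [sub_add_cancel] at this
  linarith

/-- a coarse Lipschitz bound away from the origin -/
lemma LipS.coarse {z z' : E3} {ρ : ℝ} (hρ : 0 < ρ) (hz : ρ ≤ ‖z‖) (hz' : ρ ≤ ‖z'‖) :
    |w (‖z‖⁻¹ • z) - w (‖z'‖⁻¹ • z')| ≤ 2 * (‖z - z'‖ / ρ) := by
  have hz0 : z ≠ 0 := norm_pos_iff.1 (hρ.trans_le hz)
  have hz0' : z' ≠ 0 := norm_pos_iff.1 (hρ.trans_le hz')
  refine (hw _ _ (norm_normalize hz0) (norm_normalize hz0')).trans ?_
  refine (angle_le_two_chord (norm_normalize hz0) (norm_normalize hz0')).trans ?_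
  exact mul_le_mul_of_nonneg_left (normalize_lip hρ hz hz') (by norm_num)

lemma continuous_gext : Continuous (gext w) := by
  obtain ⟨C, hC0, hC⟩ := hw.bound
  rw [continuous_iff_continuousAt]
  intro z0
  by_cases h0 : z0 = 0
  · subst h0
    have e0 : gext w 0 = 0 := by simp [gext]
    rw [ContinuousAt, e0]
    apply squeeze_zero_norm (a := fun z : E3 => 2 * ‖z‖ * C)
    · intro z
      by_cases hz : z = 0
      · subst hz; simp [gext]
      · rw [gext, norm_mul, Real.norm_eq_abs, Real.norm_eq_abs]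
        have h1 : |min 1 (2 * ‖z‖)| ≤ 2 * ‖z‖ := by
          rw [abs_of_nonneg (by positivity)]
          exact min_le_right _ _
        exact mul_le_mul h1 (hC _ (norm_normalize hz)) (abs_nonneg _) (by positivity)
    · have : Continuous fun z : E3 => 2 * ‖z‖ * C := by fun_prop
      have h2 := this.tendsto 0
      simpa using h2
  · have hpos : 0 < ‖z0‖ := norm_pos_iff.2 h0
    have h1 : ContinuousAt (fun z : E3 => w (‖z‖⁻¹ • z)) z0 := by
      rw [ContinuousAt, tendsto_iff_norm_sub_tendsto_zero]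
      apply squeeze_zero' (g := fun z => 2 * (‖z - z0‖ / (‖z0‖ / 2)))
      · exact Filter.Eventually.of_forall fun z => norm_nonneg _
      · have hopen : ∀ᶠ z in 𝓝 z0, ‖z0‖ / 2 < ‖z‖ :=
          (continuous_norm.tendsto z0).eventually (lt_mem_nhds (by linarith))
        filter_upwards [hopen] with z hz
        exact hw.coarse (by positivity) hz.le (by linarith)
      · have : Continuous fun z : E3 => 2 * (‖z - z0‖ / (‖z0‖ / 2)) := by fun_prop
        have h2 := this.tendsto z0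
        simpa using h2
    have h2 : ContinuousAt (fun z : E3 => min 1 (2 * ‖z‖)) z0 := by
      apply Continuous.continuousAt; fun_prop
    exact h2.mul h1

/-- fine Lipschitz bound near the sphere -/
lemma LipS.fine {z z' : E3} {ρ : ℝ} (hρ : 0 < ρ) (hz : ρ ≤ ‖z‖) (hz' : ρ ≤ ‖z'‖)
    (hs : ‖z - z'‖ < ρ) :
    |w (‖z‖⁻¹ • z) - w (‖z'‖⁻¹ • z')| * (1 - (‖z - z'‖ / ρ) ^ 2) ≤ ‖z - z'‖ / ρ := by
  have hz0 : z ≠ 0 := norm_pos_iff.1 (hρ.trans_le hz)
  have hz0' : z' ≠ 0 := norm_pos_iff.1 (hρ.trans_le hz')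
  have h1 := hw _ _ (norm_normalize hz0) (norm_normalize hz0')
  have h2 := angle_chord (norm_normalize hz0) (norm_normalize hz0')
  have h3 := normalize_lip hρ hz hz'
  set c := ‖‖z‖⁻¹ • z - ‖z'‖⁻¹ • z'‖
  set t := angle (‖z‖⁻¹ • z) (‖z'‖⁻¹ • z')
  set d := ‖z - z'‖ / ρ with hd
  have hd1 : d < 1 := by rw [hd, div_lt_one hρ]; exact hs
  have hc0 : 0 ≤ c := norm_nonneg _
  have ht0 : 0 ≤ t := angle_nonneg _ _
  have h4 : 0 ≤ 1 - d ^ 2 := by nlinarith
  calc _ ≤ t * (1 - d ^ 2) := mul_le_mul_of_nonneg_right h1 h4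
    _ ≤ t * (1 - c ^ 2) := mul_le_mul_of_nonneg_left (by nlinarith) ht0
    _ ≤ c := h2
    _ ≤ d := h3

/-- **Smoothing.** -/
theorem exists_smooth {η : ℝ} (hη : 0 < η) :
    ∃ w' : E3 → ℝ, Adm w' ∧ ∀ Z : E3, ‖Z‖ = 1 → |w' Z - w Z| ≤ η := by
  obtain ⟨C, hC0, hC⟩ := hw.bound
  -- the scale
  obtain ⟨σ, hσ0, hσ1, hσ2⟩ : ∃ σ : ℝ, 0 < σ ∧ σ ≤ 1 / 8 ∧ σ * (4 + 3 * (C + 1)) ≤ η := by
    refine ⟨min (1 / 8) (η / (4 + 3 * (C + 1))), by positivity, min_le_left _ _, ?_⟩
    calc min (1 / 8) (η / (4 + 3 * (C + 1))) * (4 + 3 * (C + 1))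
        ≤ η / (4 + 3 * (C + 1)) * (4 + 3 * (C + 1)) :=
          mul_le_mul_of_nonneg_right (min_le_right _ _) (by positivity)
      _ = η := by field_simp
  let φ : ContDiffBump (0 : E3) := ⟨σ / 2, σ, by linarith, by linarith⟩
  set g := gext w with hg
  have hgc : Continuous g := continuous_gext hw
  set W : E3 → ℝ := (φ.normed volume ⋆[ContinuousLinearMap.lsmul ℝ ℝ, volume] g) with hW
  have hWs : ContDiff ℝ 1 W := by
    have h1 : HasCompactSupport (φ.normed (volume : Measure E3)) := φ.hasCompactSupport_normed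
    have h2 : ContDiff ℝ ((1 : ℕ∞) : WithTop ℕ∞) (φ.normed (volume : Measure E3)) :=
      φ.contDiff_normed
    exact h1.contDiff_convolution_left (n := 1) (μ := (volume : Measure E3))
      (ContinuousLinearMap.lsmul ℝ ℝ) h2 (hgc.locallyIntegrable (μ := volume))
  have hWe : ∀ x, W x = ∫ t, φ.normed volume t • g (x - t) := fun x => rfl
  have hint : ∀ x, Integrable (fun t => φ.normed volume t • g (x - t)) := by
    intro x
    apply Continuous.integrable_of_hasCompactSupport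
    · exact φ.continuous_normed.smul (hgc.comp (by fun_prop))
    · exact φ.hasCompactSupport_normed.smul_right
  -- pointwise estimate
  have hest : ∀ x y : E3, ∀ B : ℝ, (∀ t : E3, ‖t‖ ≤ σ → |g (x - t) - g (y - t)| ≤ B) →
      |W x - W y| ≤ B := by
    intro x y B hB
    rw [hWe, hWe, ← integral_sub (hint x) (hint y)]
    have h1 : ‖∫ t, (φ.normed volume t • g (x - t) - φ.normed volume t • g (y - t))‖
        ≤ ∫ t, φ.normed volume t * B := by
      apply norm_integral_le_of_norm_le ((φ.integrable_normed).mul_const B)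
      refine Filter.Eventually.of_forall fun t => ?_
      rw [← smul_sub, norm_smul, Real.norm_eq_abs, Real.norm_eq_abs,
        abs_of_nonneg (φ.nonneg_normed t)]
      by_cases ht : ‖t‖ ≤ σ
      · exact mul_le_mul_of_nonneg_left (hB t ht) (φ.nonneg_normed t)
      · have : φ.normed volume t = 0 := by
          by_contra hne
          have h2 : t ∈ Function.support (φ.normed (volume : Measure E3)) := hne
          rw [φ.support_normed_eq] at h2
          simp only [Metric.mem_ball, dist_zero_right] at h2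
          exact ht (le_of_lt h2)
        rw [this]; simp
    rw [integral_mul_const, φ.integral_normed, one_mul] at h1
    exact h1
  -- closeness
  have hclose : ∀ Z : E3, ‖Z‖ = 1 → |W Z - w Z| ≤ 4 * σ := by
    intro Z hZ
    have e1 : w Z = ∫ t, φ.normed volume t • (w Z) := by
      rw [integral_smul_const, φ.integral_normed, one_smul]
    rw [e1, hWe, ← integral_sub (hint Z) ((φ.integrable_normed).smul_const _)]
    have h1 : ‖∫ t, (φ.normed volume t • g (Z - t) - φ.normed volume t • w Z)‖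
        ≤ ∫ t, φ.normed volume t * (4 * σ) := by
      apply norm_integral_le_of_norm_le ((φ.integrable_normed).mul_const _)
      refine Filter.Eventually.of_forall fun t => ?_
      rw [← smul_sub, norm_smul, Real.norm_eq_abs, Real.norm_eq_abs,
        abs_of_nonneg (φ.nonneg_normed t)]
      by_cases ht : ‖t‖ ≤ σ
      · apply mul_le_mul_of_nonneg_left _ (φ.nonneg_normed t)
        have h2 : 1 / 2 ≤ ‖Z - t‖ := by
          have := norm_sub_norm_le Z t
          linarith
        have h3 := hw.coarse (z := Z - t) (z' := Z) (ρ := 1 / 2) (by norm_num) h2 (by linarith)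
        rw [hZ, inv_one, one_smul, ← gext_eq w h2] at h3
        refine h3.trans ?_
        have : ‖Z - t - Z‖ = ‖t‖ := by rw [sub_sub_cancel_left, norm_neg]
        rw [this]; linarith
      · have : φ.normed volume t = 0 := by
          by_contra hne
          have h2 : t ∈ Function.support (φ.normed (volume : Measure E3)) := hne
          rw [φ.support_normed_eq] at h2
          simp only [Metric.mem_ball, dist_zero_right] at h2
          exact ht (le_of_lt h2)
        rw [this]; simp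
    rw [integral_mul_const, φ.integral_normed, one_mul] at h1
    exact h1
  -- the gradient
  have hgrad : ∀ Z : E3, ‖Z‖ = 1 → ‖fderiv ℝ W Z‖ ≤ 1 / (1 - 3 * σ) := by
    intro Z hZ
    have hd : HasFDerivAt W (fderiv ℝ W Z) Z := ((hWs.differentiable (by simp)) Z).hasFDerivAt
    apply hd.le_of_lip' (by apply div_nonneg zero_le_one; linarith)
    -- small displacement
    have hsmall : ∀ᶠ x in 𝓝 Z, ‖x - Z‖ < σ := by
      have : Continuous fun x : E3 => ‖x - Z‖ := by fun_prop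
      have h2 := (this.tendsto Z).eventually (gt_mem_nhds (show ‖Z - Z‖ < σ by simpa using hσ0))
      exact h2
    filter_upwards [hsmall] with x hx
    rw [Real.norm_eq_abs]
    apply hest
    intro t ht
    set ρ := 1 - 2 * σ with hρ
    have hρ0 : 0 < ρ := by rw [hρ]; linarith
    have hz : ρ ≤ ‖x - t‖ := by
      have h1 := norm_sub_norm_le x t
      have h2 := norm_sub_norm_le Z (Z - x)
      rw [sub_sub_cancel] at h2
      rw [norm_sub_rev Z x] at h2
      rw [hρ]; linarith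
    have hz' : ρ ≤ ‖Z - t‖ := by
      have h1 := norm_sub_norm_le Z t
      rw [hρ]; linarith
    have e3 : ‖x - t - (Z - t)‖ = ‖x - Z‖ := by congr 1; abel
    have hf := hw.fine hρ0 hz hz' (by rw [e3]; linarith)
    rw [e3, ← gext_eq w (by linarith : 1 / 2 ≤ ‖x - t‖), ← gext_eq w (by linarith : 1 / 2 ≤ ‖Z - t‖)] at hf
    have h5 : (‖x - Z‖ / ρ) ^ 2 ≤ σ / ρ := by
      have h6 : ‖x - Z‖ / ρ ≤ σ / ρ := by gcongr
      have h7 : σ / ρ ≤ 1 := by rw [div_le_one hρ0]; linarith
      have h8 : 0 ≤ ‖x - Z‖ / ρ := by positivity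
      nlinarith
    have h9 : 1 - σ / ρ = (1 - 3 * σ) / ρ := by
      rw [eq_div_iff hρ0.ne', sub_mul, div_mul_cancel₀ _ hρ0.ne', hρ]; ring
    have h10 : |g (x - t) - g (Z - t)| * ((1 - 3 * σ) / ρ) ≤ ‖x - Z‖ / ρ := by
      rw [← h9]
      refine le_trans (mul_le_mul_of_nonneg_left ?_ (abs_nonneg _)) hf
      linarith
    rw [mul_div_assoc', div_le_div_iff_of_pos_right hρ0] at h10
    rw [one_div, ← div_eq_inv_mul, le_div_iff₀ (by linarith)]
    exact h10
  refine ⟨fun Z => (1 - 3 * σ) * W Z, ⟨contDiff_const.mul hWs, ?_⟩, ?_⟩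
  · intro Z hZ ζ
    have hd : HasFDerivAt (fun Z => (1 - 3 * σ) * W Z) ((1 - 3 * σ) • fderiv ℝ W Z) Z :=
      (((hWs.differentiable (by simp)) Z).hasFDerivAt).const_mul _
    rw [hd.fderiv, _root_.smul_apply, smul_eq_mul, abs_mul, abs_of_nonneg (by linarith)]
    have h1 := (fderiv ℝ W Z).le_opNorm ζ
    have h2 := hgrad Z hZ
    rw [Real.norm_eq_abs] at h1
    calc (1 - 3 * σ) * |fderiv ℝ W Z ζ| ≤ (1 - 3 * σ) * (1 / (1 - 3 * σ) * ‖ζ‖) := by
          apply mul_le_mul_of_nonneg_left _ (by linarith)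
          exact h1.trans (mul_le_mul_of_nonneg_right h2 (norm_nonneg _))
      _ = ‖ζ‖ := by
          have : 1 - 3 * σ ≠ 0 := by linarith
          field_simp
  · intro Z hZ
    have h1 := hclose Z hZ
    have h2 : |W Z| ≤ C + 1 := by
      have h3 := hC Z hZ
      have : |W Z| ≤ |W Z - w Z| + |w Z| := by
        have := abs_add_le (W Z - w Z) (w Z)
        rwa [sub_add_cancel] at this
      linarith
    have e : (1 - 3 * σ) * W Z - w Z = (W Z - w Z) - 3 * σ * W Z := by ring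
    rw [e]
    refine (abs_sub _ _).trans ?_
    rw [abs_mul, abs_of_pos (by linarith : 0 < 3 * σ)]
    nlinarith

end

end Pool.Agent.H18.Col
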