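import Pool.Agent.H18.Col.Area
import Pool.Agent.H18.Col.Moll

open MeasureTheory Set InnerProductGeometry Filter
open scoped Topology ContDiff ENNReal

noncomputable section

namespace Pool.Agent.H18.Col

open Pool.Agent.H74.FAC (E2 bv pt det_E2 pt_zero pt_one pt_eq norm_bv)

lemma continuous_wZZ {w : E3 → ℝ} (hw : LipS w) {X : E3} (hX : X 0 ^ 2 + X 1 ^ 2 + X 2 ^ 2 = 1)
    (hp : 0 < 1 + X 2) : Continuous fun u => w (ZZ X u) := by
  have e : (fun u => w (ZZ X u)) = fun u => gext w (ZZ X u) := by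
    funext u
    rw [gext_unit w (norm_ZZ hX hp u)]
  rw [e]
  exact (continuous_gext hw).comp (continuous_ZZ_u hp)

/-- comparison of weighted integrals -/
lemma int_close {w w' : E3 → ℝ} {X : E3} (hX : X 0 ^ 2 + X 1 ^ 2 + X 2 ^ 2 = 1)
    (hp : 0 < 1 + X 2) (hc : Continuous fun u => w (ZZ X u))
    (hc' : Continuous fun u => w' (ZZ X u)) {η : ℝ}
    (h : ∀ Z : E3, ‖Z‖ = 1 → |w' Z - w Z| ≤ η) {g : ℝ → ℝ} (hg : Continuous g)
    (hg1 : ∀ u, |g u| ≤ 1) :
    |1 / Real.pi * (∫ u in (0 : ℝ)..(2 * Real.pi), g u * w' (ZZ X u))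
      - 1 / Real.pi * (∫ u in (0 : ℝ)..(2 * Real.pi), g u * w (ZZ X u))| ≤ 2 * η := by
  have hpi := Real.pi_pos
  have i1 : IntervalIntegrable (fun u => g u * w' (ZZ X u)) volume 0 (2 * Real.pi) :=
    (hg.mul hc').intervalIntegrable _ _
  have i2 : IntervalIntegrable (fun u => g u * w (ZZ X u)) volume 0 (2 * Real.pi) :=
    (hg.mul hc).intervalIntegrable _ _
  rw [← mul_sub, ← intervalIntegral.integral_sub i1 i2, abs_mul, abs_of_pos (by positivity)]
  have h1 : ‖∫ u in (0 : ℝ)..(2 * Real.pi), (g u * w' (ZZ X u) - g u * w (ZZ X u))‖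
      ≤ η * |2 * Real.pi - 0| := by
    apply intervalIntegral.norm_integral_le_of_norm_le_const
    intro u _
    rw [← mul_sub, norm_mul, Real.norm_eq_abs, Real.norm_eq_abs]
    have h2 := h _ (norm_ZZ hX hp u)
    calc |g u| * |w' (ZZ X u) - w (ZZ X u)| ≤ 1 * η :=
          mul_le_mul (hg1 u) h2 (abs_nonneg _) zero_le_one
      _ = η := one_mul _
  rw [Real.norm_eq_abs, sub_zero, abs_of_pos (by positivity : 0 < 2 * Real.pi)] at h1
  calc 1 / Real.pi * _ ≤ 1 / Real.pi * (η * (2 * Real.pi)) :=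
        mul_le_mul_of_nonneg_left h1 (by positivity)
    _ = 2 * η := by field_simp

lemma F_close {w w' : E3 → ℝ} {X : E3} (hX : X 0 ^ 2 + X 1 ^ 2 + X 2 ^ 2 = 1)
    (hp : 0 < 1 + X 2) (hc : Continuous fun u => w (ZZ X u))
    (hc' : Continuous fun u => w' (ZZ X u)) {η : ℝ}
    (h : ∀ Z : E3, ‖Z‖ = 1 → |w' Z - w Z| ≤ η) :
    |Fc w' X - Fc w X| ≤ 2 * η ∧ |Fs w' X - Fs w X| ≤ 2 * η := by
  have h1 := int_close hX hp hc hc' h Real.continuous_cos Real.abs_cos_le_one
  have h2 := int_close hX hp hc hc' h Real.continuous_sin Real.abs_sin_le_one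
  constructor
  · rw [Fc, Fc]
    convert h1 using 2
    ring
  · rw [Fs, Fs]
    convert h2 using 2
    ring

lemma norm_pt_le (a b : ℝ) : ‖pt a b‖ ≤ |a| + |b| := by
  rw [pt_eq]
  refine (norm_add_le _ _).trans ?_
  rw [norm_smul, norm_smul, norm_bv, norm_bv, mul_one, mul_one]
  rfl

lemma FF_close {w w' : E3 → ℝ} {x : E2} (hx : x ∈ Dsc) (hc : Continuous fun u => w (ZZ (XX x) u))
    (hc' : Continuous fun u => w' (ZZ (XX x) u)) {η : ℝ}
    (h : ∀ Z : E3, ‖Z‖ = 1 → |w' Z - w Z| ≤ η) : ‖FF w' x - FF w x‖ ≤ 4 * η := by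
  have hX := XX_cap hx
  obtain ⟨h1, h2⟩ := F_close hX.unit hX.pos hc hc' h
  have e : FF w' x - FF w x = pt (Fc w' (XX x) - Fc w (XX x)) (Fs w' (XX x) - Fs w (XX x)) := by
    rw [FF, FF]
    ext i
    fin_cases i <;> simp
  rw [e]
  refine (norm_pt_le _ _).trans ?_
  linarith

lemma continuous_admZZ {w : E3 → ℝ} (hw : Adm w) {X : E3} (hp : 0 < 1 + X 2) :
    Continuous fun u => w (ZZ X u) := hw.smooth.continuous.comp (continuous_ZZ_u hp)

/-- continuity of `F` for Lipschitz functions -/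
lemma continuousOn_FF_lip {w : E3 → ℝ} (hw : LipS w) : ContinuousOn (FF w) Dsc := by
  apply continuousOn_of_uniform_approx_of_continuousOn
  intro u hu
  obtain ⟨ε, hε, hεu⟩ := Metric.mem_uniformity_dist.1 hu
  obtain ⟨w', hw', hcl⟩ := exists_smooth hw (η := ε / 8) (by positivity)
  refine ⟨FF w', continuousOn_FF hw', fun x hx => hεu ?_⟩
  have hX := XX_cap hx
  have := FF_close hx (continuous_wZZ hw hX.unit hX.pos) (continuous_admZZ hw' hX.pos) hcl
  rw [dist_comm, dist_eq_norm]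
  linarith

/-- **Monotonicity** for Lipschitz functions. -/
theorem mono_lip {w : E3 → ℝ} (hw : LipS w) {X Y : E3} (hX : InCap X) (hY : InCap Y) :
    1 / 2 * (1 - inner ℝ X Y ^ 2) ≤
      (Fc w X * inner ℝ (dd X 0) Y + Fs w X * inner ℝ (jd X 0) Y)
      + (Fc w Y * inner ℝ (dd Y 0) X + Fs w Y * inner ℝ (jd Y 0) X) := by
  apply le_of_forall_pos_le_add
  intro e he
  set K := |(inner ℝ (dd X 0) Y : ℝ)| + |(inner ℝ (jd X 0) Y : ℝ)| + |(inner ℝ (dd Y 0) X : ℝ)|
    + |(inner ℝ (jd Y 0) X : ℝ)| with hK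
  have hK0 : 0 ≤ K := by positivity
  obtain ⟨w', hw', hcl⟩ := exists_smooth hw (η := e / (2 * (K + 1))) (by positivity)
  have h1 := F_close hX.unit hX.pos (continuous_wZZ hw hX.unit hX.pos)
    (continuous_admZZ hw' hX.pos) hcl
  have h2 := F_close hY.unit hY.pos (continuous_wZZ hw hY.unit hY.pos)
    (continuous_admZZ hw' hY.pos) hcl
  have hm := mono_smooth hw' (f1 := 0) (f2 := 0) (r := 0) le_rfl (by norm_num) (by norm_num) hX hY
  simp only [sub_zero] at hm
  have hη : 2 * (e / (2 * (K + 1))) = e / (K + 1) := by field_simp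
  rw [hη] at h1 h2
  have b : ∀ a a' c : ℝ, |a' - a| ≤ e / (K + 1) → a' * c ≤ a * c + e / (K + 1) * |c| := by
    intro a a' c h
    have h3 : (a' - a) * c ≤ |a' - a| * |c| := by rw [← abs_mul]; exact le_abs_self _
    have h4 := mul_le_mul_of_nonneg_right h (abs_nonneg c)
    linarith
  have b1 := b _ _ (inner ℝ (dd X 0) Y : ℝ) h1.1
  have b2 := b _ _ (inner ℝ (jd X 0) Y : ℝ) h1.2
  have b3 := b _ _ (inner ℝ (dd Y 0) X : ℝ) h2.1
  have b4 := b _ _ (inner ℝ (jd Y 0) X : ℝ) h2.2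
  have hsum : e / (K + 1) * |(inner ℝ (dd X 0) Y : ℝ)| + e / (K + 1) * |(inner ℝ (jd X 0) Y : ℝ)|
      + e / (K + 1) * |(inner ℝ (dd Y 0) X : ℝ)| + e / (K + 1) * |(inner ℝ (jd Y 0) X : ℝ)| ≤ e := by
    have : e / (K + 1) * |(inner ℝ (dd X 0) Y : ℝ)| + e / (K + 1) * |(inner ℝ (jd X 0) Y : ℝ)|
      + e / (K + 1) * |(inner ℝ (dd Y 0) X : ℝ)| + e / (K + 1) * |(inner ℝ (jd Y 0) X : ℝ)|
      = e / (K + 1) * K := by rw [hK]; ring
    rw [this, div_mul_eq_mul_div, div_le_iff₀ (by positivity)]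
    nlinarith
  linarith

/-- the area estimate for Lipschitz functions -/
theorem area_lip {w : E3 → ℝ} (hw : LipS w) {ε : ℝ} (hε : 0 < ε) (hε1 : ε ≤ 1 / 100) :
    ENNReal.ofReal (1 - 100 * ε) * ∫⁻ x in Dsc, ENNReal.ofReal (bet ε (FF w x)) ≤ 1 := by
  choose v hv hcl using fun n : ℕ => exists_smooth hw (η := 1 / ((n : ℝ) + 1)) (by positivity)
  have hlim : ∀ x ∈ Dsc, Tendsto (fun n => FF (v n) x) atTop (𝓝 (FF w x)) := by
    intro x hx
    have hX := XX_cap hx
    rw [tendsto_iff_norm_sub_tendsto_zero]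
    apply squeeze_zero (g := fun n : ℕ => 4 * (1 / ((n : ℝ) + 1))) (fun n => norm_nonneg _)
    · intro n
      exact FF_close hx (continuous_wZZ hw hX.unit hX.pos) (continuous_admZZ (hv n) hX.pos) (hcl n)
    · have := tendsto_one_div_add_atTop_nhds_zero_nat (𝕜 := ℝ)
      have := this.const_mul 4
      rwa [mul_zero] at this
  have hmeas : ∀ n, AEMeasurable (fun x => ENNReal.ofReal (1 - 100 * ε) *
      ENNReal.ofReal (bet ε (FF (v n) x))) (volume.restrict Dsc) := by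
    intro n
    have h1 : ContinuousOn (fun x => bet ε (FF (v n) x)) Dsc :=
      (continuous_bet ε).comp_continuousOn (continuousOn_FF (hv n))
    exact ((h1.aemeasurable isClosed_Dsc.measurableSet).ennreal_ofReal).const_mul _
  rw [← lintegral_const_mul' _ _ ENNReal.ofReal_ne_top]
  calc ∫⁻ x in Dsc, ENNReal.ofReal (1 - 100 * ε) * ENNReal.ofReal (bet ε (FF w x))
      ≤ ∫⁻ x in Dsc, liminf (fun n => ENNReal.ofReal (1 - 100 * ε) *
          ENNReal.ofReal (bet ε (FF (v n) x))) atTop := by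
        apply setLIntegral_mono_ae' isClosed_Dsc.measurableSet
        refine Eventually.of_forall fun x hx => ?_
        have h2 : Tendsto (fun n => ENNReal.ofReal (1 - 100 * ε) *
            ENNReal.ofReal (bet ε (FF (v n) x))) atTop
            (𝓝 (ENNReal.ofReal (1 - 100 * ε) * ENNReal.ofReal (bet ε (FF w x)))) := by
          apply ENNReal.Tendsto.const_mul
          · apply ENNReal.tendsto_ofReal
            exact ((continuous_bet ε).tendsto _).comp (hlim x hx)
          · right; exact ENNReal.ofReal_ne_top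
        rw [h2.liminf_eq]
    _ ≤ liminf (fun n => ∫⁻ x in Dsc, ENNReal.ofReal (1 - 100 * ε) *
          ENNReal.ofReal (bet ε (FF (v n) x))) atTop := lintegral_liminf_le' hmeas
    _ ≤ 1 := by
        apply liminf_le_of_le (by isBoundedDefault)
        intro b hb
        obtain ⟨n, hn⟩ := hb.exists
        refine hn.trans ?_
        rw [lintegral_const_mul' _ _ ENNReal.ofReal_ne_top]
        exact area_smooth (hv n) hε hε1

end Pool.Agent.H18.Col
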