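import Pool.Agent.H74.FAC.Geo2

open MeasureTheory Set Filter Measure Manifold Bundle
open scoped ContDiff Topology ENNReal NNReal

set_option linter.unusedSectionVars false
set_option linter.style.haveILetI false

noncomputable section

namespace Pool.Agent.H18.Col

open Pool.Agent.H74.FAC

variable {M : Type} [MetricSpace M] [ChartedSpace HP M] [IsManifold (𝓡∂ 2) ∞ M] [CompactSpace M]
  [RiemannianBundle (fun x : M => TangentSpace (𝓡∂ 2) x)]
  [IsContMDiffRiemannianBundle (𝓡∂ 2) ∞ E2 (fun x : M => TangentSpace (𝓡∂ 2) x)]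
  [IsRiemannianManifold (𝓡∂ 2) M] [MeasurableSpace M] [BorelSpace M]

lemma meas_S (A : Cov M) (k : Fin A.n) : MeasurableSet (A.S k) := by
  have := A.S_meas k
  rwa [← BorelSpace.measurable_eq (α := M)] at this

lemma meas_image' {e : OpenPartialHomeomorph M HP} {S : Set M} (hS : MeasurableSet S)
    (hsub : S ⊆ e.source) : MeasurableSet (e.extend (𝓡∂ 2) '' S) := by
  rw [BorelSpace.measurable_eq (α := M)] at hS
  exact meas_image hS hsub

/-- the area density in the chart -/
def dens (e : OpenPartialHomeomorph M HP) (z : E2) : ℝ≥0∞ :=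
  ENNReal.ofReal (Real.sqrt (gram e z).det)

/-- the image of the disjointed pieces in the charts -/
def EE (A : Cov M) (k : Fin A.n) : Set E2 := (A.P k).e.extend (𝓡∂ 2) '' (A.S k)

lemma EE_meas (A : Cov M) (k : Fin A.n) : MeasurableSet (EE A k) :=
  meas_image' (meas_S A k) ((A.S_sub k).trans (A.P k).V_sub)

lemma EE_sub_D (A : Cov M) (k : Fin A.n) : EE A k ⊆ (A.P k).D := by
  rintro z ⟨x, hx, rfl⟩
  exact (A.P k).mem_D_of_V (A.S_sub k hx)

lemma EE_sub_target (A : Cov M) (k : Fin A.n) : EE A k ⊆ ((A.P k).e.extend (𝓡∂ 2)).target :=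
  (EE_sub_D A k).trans (A.P k).sub

lemma aemeas_dens (A : Cov M) (k : Fin A.n) :
    AEMeasurable (dens (A.P k).e) (volume.restrict (EE A k)) := by
  have h1 : ContinuousOn (fun z => (gram (A.P k).e z).det) (EE A k) := by
    have h := fun v w => (continuousOn_inner_dv (A.P k).he v w).mono (EE_sub_target A k)
    have : (fun z => (gram (A.P k).e z).det) = fun z =>
      inner ℝ (dv (A.P k).e z (bv 0)) (dv (A.P k).e z (bv 0))
        * inner ℝ (dv (A.P k).e z (bv 1)) (dv (A.P k).e z (bv 1))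
      - inner ℝ (dv (A.P k).e z (bv 0)) (dv (A.P k).e z (bv 1))
        * inner ℝ (dv (A.P k).e z (bv 0)) (dv (A.P k).e z (bv 1)) := funext fun z => gram_det _ z
    rw [this]
    exact ((h _ _).mul (h _ _)).sub ((h _ _).mul (h _ _))
  have h2 : AEMeasurable (fun z => (gram (A.P k).e z).det) (volume.restrict (EE A k)) :=
    h1.aemeasurable (EE_meas A k)
  exact (Real.continuous_sqrt.measurable.comp_aemeasurable h2).ennreal_ofReal

lemma aemeas_symm (A : Cov M) (k : Fin A.n) :
    AEMeasurable ((A.P k).e.extend (𝓡∂ 2)).symm (volume.restrict (EE A k)) := by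
  have h1 : ContinuousOn ((A.P k).e.extend (𝓡∂ 2)).symm (EE A k) :=
    ((A.P k).lip.continuousOn).mono (EE_sub_D A k)
  exact h1.aemeasurable (EE_meas A k)

/-- the Riemannian measure -/
def mu (A : Cov M) : Measure M :=
  ∑ k, Measure.map ((A.P k).e.extend (𝓡∂ 2)).symm
    ((volume.restrict (EE A k)).withDensity (dens (A.P k).e))

lemma lintegral_mu (A : Cov M) {h : M → ℝ≥0∞} (hh : Measurable h) :
    ∫⁻ x, h x ∂(mu A) = ∑ k, ∫⁻ z in EE A k,
      dens (A.P k).e z * h (((A.P k).e.extend (𝓡∂ 2)).symm z) := by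
  rw [mu, lintegral_finsetSum_measure]
  apply Finset.sum_congr rfl
  intro k _
  have hac : (volume.restrict (EE A k)).withDensity (dens (A.P k).e) ≪ volume.restrict (EE A k) :=
    withDensity_absolutelyContinuous _ _
  rw [lintegral_map' hh.aemeasurable ((aemeas_symm A k).mono_ac hac)]
  exact lintegral_withDensity_eq_lintegral_mul₀ (aemeas_dens A k)
    (hh.comp_aemeasurable (aemeas_symm A k))

lemma mu_univ_le (A : Cov M) : mu A univ ≤ area M := by
  have h := lintegral_mu A (h := fun _ => 1) measurable_const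
  simp only [lintegral_one, mul_one] at h
  rw [h]
  unfold area
  exact le_iSup_of_le A.n (le_iSup_of_le (fun k => (A.P k).e) (le_iSup_of_le A.S
          (le_iSup_of_le ⟨fun k => (A.P k).he, A.S_meas, fun k => (A.S_sub k).trans (A.P k).V_sub,
            A.S_disj⟩ le_rfl)))

/-- the image of a set under a pair of 1-Lipschitz functions -/
lemma image_le_mu (A : Cov M) {f g : M → ℝ} (hf : LipschitzWith 1 f) (hg : LipschitzWith 1 g)
    {S : Set M} (hS : MeasurableSet S) :
    volume ((fun x => pt (f x) (g x)) '' S) ≤ mu A S := by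
  set T : M → E2 := fun x => pt (f x) (g x) with hT
  have hTl : LipschitzWith 2 T := by
    apply LipschitzWith.of_dist_le_mul
    intro x y
    have h1 : dist (T x) (T y) ≤ dist (pt (f x) (g x)) (pt (f y) (g x))
        + dist (pt (f y) (g x)) (pt (f y) (g y)) := dist_triangle _ _ _
    rw [dist_pt_fst, dist_pt_snd] at h1
    have h2 := hf.dist_le_mul x y
    have h3 := hg.dist_le_mul x y
    rw [Real.dist_eq] at h2 h3
    simp only [NNReal.coe_one, one_mul] at h2 h3
    push_cast
    linarith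
  have e1 : mu A S = ∑ k, ∫⁻ z in (A.P k).e.extend (𝓡∂ 2) '' (A.S k ∩ S), dens (A.P k).e z := by
    have h := lintegral_mu A (h := S.indicator 1) (measurable_one.indicator hS)
    rw [lintegral_indicator_one hS] at h
    rw [h]
    apply Finset.sum_congr rfl
    intro k _
    have hsub : A.S k ⊆ (A.P k).e.source := (A.S_sub k).trans (A.P k).V_sub
    have hm : MeasurableSet ((A.P k).e.extend (𝓡∂ 2) '' (A.S k ∩ S)) :=
      meas_image' ((meas_S A k).inter hS) (inter_subset_left.trans hsub)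
    rw [← lintegral_indicator hm, ← lintegral_indicator (EE_meas A k)]
    congr 1
    funext z
    by_cases hz : z ∈ EE A k
    · rw [indicator_of_mem hz]
      obtain ⟨x, hx, rfl⟩ := hz
      rw [ext_left_inv (hsub hx)]
      by_cases hxS : x ∈ S
      · have hmem : (A.P k).e.extend (𝓡∂ 2) x ∈ (A.P k).e.extend (𝓡∂ 2) '' (A.S k ∩ S) :=
          ⟨x, ⟨hx, hxS⟩, rfl⟩
        rw [indicator_of_mem hxS, indicator_of_mem hmem]
        simp
      · rw [indicator_of_notMem hxS, mul_zero, indicator_of_notMem]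
        rintro ⟨y, hy, hyx⟩
        have hinj := ((A.P k).e.extend (𝓡∂ 2)).injOn
        rw [OpenPartialHomeomorph.extend_source] at hinj
        have := hinj (hsub hy.1) (hsub hx) hyx
        rw [this] at hy
        exact hxS hy.2
    · rw [indicator_of_notMem hz, indicator_of_notMem]
      intro hz'
      exact hz (image_mono inter_subset_left hz')
  rw [e1]
  have e2 : T '' S ⊆ ⋃ k, T '' (A.S k ∩ S) := by
    rintro _ ⟨x, hx, rfl⟩
    obtain ⟨k, hk⟩ := A.S_cover x
    exact mem_iUnion.2 ⟨k, x, ⟨hk, hx⟩, rfl⟩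
  refine (measure_mono e2).trans ((measure_iUnion_fintype_le _ _).trans ?_)
  apply Finset.sum_le_sum
  intro k _
  set P := A.P k with hP
  have hsub : A.S k ⊆ P.e.source := (A.S_sub k).trans P.V_sub
  set E' := P.e.extend (𝓡∂ 2) '' (A.S k ∩ S) with hE'
  have hm : MeasurableSet E' := meas_image' ((meas_S A k).inter hS) (inter_subset_left.trans hsub)
  set G : E2 → E2 := fun z => T ((P.e.extend (𝓡∂ 2)).symm z) with hG
  have e3 : T '' (A.S k ∩ S) = G '' E' := by
    ext y
    constructor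
    · rintro ⟨x, hx, rfl⟩
      exact ⟨P.e.extend (𝓡∂ 2) x, ⟨x, hx, rfl⟩, by rw [hG]; simp only; rw [ext_left_inv (hsub hx.1)]⟩
    · rintro ⟨_, ⟨x, hx, rfl⟩, rfl⟩
      refine ⟨x, hx, ?_⟩
      rw [hG]; simp only; rw [ext_left_inv (hsub hx.1)]
  rw [e3]
  have hED : E' ⊆ P.D := (image_mono inter_subset_left).trans (EE_sub_D A k)
  have hGl : LipschitzOnWith (2 * P.K) G E' := (hTl.comp_lipschitzOnWith P.lip).mono hED
  -- the good part
  set N : Set E2 := {z | z ∈ E' ∧ ¬ (z ∈ P.O ∧
      DifferentiableAt ℝ (fun y => f ((P.e.extend (𝓡∂ 2)).symm y)) z ∧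
      DifferentiableAt ℝ (fun y => g ((P.e.extend (𝓡∂ 2)).symm y)) z)} with hN
  have hN0 : volume N = 0 := by
    have h1 := (P.cut hf).diff
    have h2 := (P.cut hg).diff
    have h3 := Patch.image_ae (P := P) (S := A.S k ∩ S) (inter_subset_left.trans (A.S_sub k))
    have h4 : ∀ᵐ z, z ∉ N := by
      filter_upwards [h1, h2, h3] with z a1 a2 a3 hz
      have hO := a3 hz.1
      exact hz.2 ⟨hO, a1 hO, a2 hO⟩
    rw [ae_iff] at h4
    simpa using h4
  set N' : Set E2 := toMeasurable volume N ∩ E' with hN'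
  have hN'0 : volume N' = 0 := by
    apply measure_mono_null inter_subset_left
    rw [measure_toMeasurable, hN0]
  have hN'm : MeasurableSet N' := (measurableSet_toMeasurable _ _).inter hm
  have hN'E : N' ⊆ E' := inter_subset_right
  have hNN' : N ⊆ N' := fun z hz => ⟨subset_toMeasurable _ _ hz, hz.1⟩
  have hGN : volume (G '' N') = 0 := by
    have h5 : LipschitzOnWith (2 * P.K) G N' := hGl.mono hN'E
    have h6 := h5.hausdorffMeasure_image_le (d := (Module.finrank ℝ E2 : ℝ)) (by positivity)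
    have h7 : (Measure.hausdorffMeasure (Module.finrank ℝ E2 : ℝ) : Measure E2) ≪ volume :=
      absolutelyContinuous_isAddHaarMeasure _ _
    have h8 : (volume : Measure E2) ≪ Measure.hausdorffMeasure (Module.finrank ℝ E2 : ℝ) :=
      absolutelyContinuous_isAddHaarMeasure _ _
    rw [h7 hN'0, mul_zero] at h6
    exact h8 (le_antisymm h6 bot_le)
  have e4 : G '' E' ⊆ G '' (E' \ N') ∪ G '' N' := by
    rw [← image_union, sdiff_union_of_subset hN'E]
  refine (measure_mono e4).trans ((measure_union_le _ _).trans ?_)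
  rw [hGN, add_zero]
  have hgood : ∀ z ∈ E' \ N', z ∈ P.O ∧
      DifferentiableAt ℝ (fun y => f ((P.e.extend (𝓡∂ 2)).symm y)) z ∧
      DifferentiableAt ℝ (fun y => g ((P.e.extend (𝓡∂ 2)).symm y)) z := by
    intro z hz
    by_contra hcon
    exact hz.2 (hNN' ⟨hz.1, hcon⟩)
  -- the derivative
  set G' : E2 → E2 →L[ℝ] E2 := fun z =>
    (fderiv ℝ (fun y => f ((P.e.extend (𝓡∂ 2)).symm y)) z).smulRight (bv 0)
      + (fderiv ℝ (fun y => g ((P.e.extend (𝓡∂ 2)).symm y)) z).smulRight (bv 1) with hG'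
  have hGd : ∀ z ∈ E' \ N', HasFDerivWithinAt G (G' z) (E' \ N') z := by
    intro z hz
    obtain ⟨_, h1, h2⟩ := hgood z hz
    have e5 : G = fun z => f ((P.e.extend (𝓡∂ 2)).symm z) • bv 0
        + g ((P.e.extend (𝓡∂ 2)).symm z) • bv 1 := by
      funext z
      rw [hG, hT]
      simp only
      rw [pt_eq]
    rw [e5]
    exact ((h1.hasFDerivAt.smul_const (bv 0)).add (h2.hasFDerivAt.smul_const (bv 1))).hasFDerivWithinAt
  have hdet : ∀ z, (G' z).det = Jc P.e f g z := by
    intro z
    have hb00 : bv 0 0 = 1 := by simp [bv]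
    have hb01 : bv 0 1 = 0 := by simp [bv]
    have hb10 : bv 1 0 = 0 := by simp [bv]
    have hb11 : bv 1 1 = 1 := by simp [bv]
    rw [det_E2, hG', Jc]
    simp only [_root_.add_apply, ContinuousLinearMap.smulRight_apply, PiLp.add_apply,
      PiLp.smul_apply, smul_eq_mul, hb00, hb01, hb10, hb11]
    ring
  refine (addHaar_image_le_lintegral_abs_det_fderiv volume (hm.diff hN'm) hGd).trans ?_
  refine (setLIntegral_mono_ae' (hm.diff hN'm) (Eventually.of_forall fun z hz => ?_)).trans
    (lintegral_mono_set sdiff_subset)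
  · rw [hdet]
    unfold dens
    apply ENNReal.ofReal_le_ofReal
    obtain ⟨hO, _, _⟩ := hgood z hz
    have htar : z ∈ (P.e.extend (𝓡∂ 2)).target := P.sub (P.O_sub_D hO)
    obtain ⟨X, Y, hXY, hJ⟩ := pointwise P.he (ι := Bool) (f := fun b => if b then f else g)
      (by intro b; cases b <;> simp [hf, hg]) htar hO.2
    have h9 := hJ false true
    simp only [if_true, Bool.false_eq_true, if_false] at h9
    rw [h9, abs_mul, abs_of_nonneg (Real.sqrt_nonneg _)]
    apply mul_le_of_le_one_right (Real.sqrt_nonneg _)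
    have h10 := hXY true
    have h11 := hXY false
    apply abs_le_of_sq_le_sq _ zero_le_one
    nlinarith [sq_nonneg (X true * X false + Y true * Y false),
      mul_le_mul h10 h11 (by positivity) zero_le_one]

instance (A : Cov M) : SFinite (mu A) := by
  unfold mu
  rw [← Measure.sum_fintype]
  infer_instance

/-- **The calibration inequality** with variable comass. -/
theorem calib (A : Cov M) {φ : S1 → M} (hφ : IsometricFilling φ) {N : ℕ}
    {f : Fin N → M → ℝ} (hf : ∀ i, LipschitzWith 1 (f i))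
    {b : Fin N → (Fin N → ℝ) → ℝ} (hb : ∀ i, ContDiff ℝ 1 (b i)) {c : M → ℝ} (hc : Continuous c)
    (hcomass : ∀ x : M, ∀ X Y : Fin N → ℝ, (∀ i, X i ^ 2 + Y i ^ 2 ≤ 1) →
      |∑ i, ∑ j, fderiv ℝ (b i) (fun k => f k x) (Pi.single j 1) * (X j * Y i - Y j * X i)| ≤ c x) :
    ENNReal.ofReal |∑ i, bint φ (fun x => b i (fun k => f k x)) (f i)|
      ≤ ∫⁻ x, ENNReal.ofReal (c x) ∂(mu A) := by
  obtain ⟨m, hm, hst⟩ := A.stokes hφ
  choose C hC using fun i => lip_comp hf (hb i)
  have h1 : |∑ i, bint φ (fun x => b i (fun k => f k x)) (f i)|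
      = |∑ i, A.B (fun x => b i (fun k => f k x)) (f i)| := by
    have : ∑ i, A.B (fun x => b i (fun k => f k x)) (f i)
        = m * ∑ i, bint φ (fun x => b i (fun k => f k x)) (f i) := by
      rw [Finset.mul_sum]
      apply Finset.sum_congr rfl
      intro i _
      exact hst _ _ (C i) 1 (hC i) (hf i)
    rw [this, abs_mul]
    have : |m| = 1 := by
      rcases hm with h | h <;> rw [h] <;> simp
    rw [this, one_mul]
  rw [h1]
  -- the integrand
  set g : Fin A.n → E2 → ℝ := fun k z =>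
    ∑ i, Jc (A.P k).e (fun x => b i (fun k => f k x)) (f i) z with hg
  have hI : ∀ k, ∀ i, IntegrableOn (Jc (A.P k).e (fun x => b i (fun k => f k x)) (f i))
      ((A.P k).e.extend (𝓡∂ 2) '' (A.S k)) := fun k i =>
    Patch.integrableOn_Jc (hC i) (hf i) (A.S_meas k) (A.S_sub k)
  have h2 : ∑ i, A.B (fun x => b i (fun k => f k x)) (f i)
      = ∑ k, ∫ z in (A.P k).e.extend (𝓡∂ 2) '' (A.S k), g k z := by
    unfold Cov.B
    rw [Finset.sum_comm]
    apply Finset.sum_congr rfl
    intro k _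
    rw [← integral_finsetSum]
    intro i _
    exact hI k i
  have hms : ∀ k, MeasurableSet ((A.P k).e.extend (𝓡∂ 2) '' (A.S k)) := fun k => EE_meas A k
  have h3 : ∀ k, ENNReal.ofReal |∫ z in (A.P k).e.extend (𝓡∂ 2) '' (A.S k), g k z|
      ≤ ∫⁻ z in (A.P k).e.extend (𝓡∂ 2) '' (A.S k),
        dens (A.P k).e z * ENNReal.ofReal (c (((A.P k).e.extend (𝓡∂ 2)).symm z)) := by
    intro k
    have hle : ENNReal.ofReal |∫ z in (A.P k).e.extend (𝓡∂ 2) '' (A.S k), g k z|
        ≤ ∫⁻ z in (A.P k).e.extend (𝓡∂ 2) '' (A.S k), ENNReal.ofReal |g k z| := by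
      have := enorm_integral_le_lintegral_enorm (μ := volume.restrict ((A.P k).e.extend (𝓡∂ 2) '' (A.S k))) (g k)
      simpa only [← ofReal_norm, Real.norm_eq_abs] using this
    refine hle.trans ?_
    apply setLIntegral_mono_ae' (hms k)
    have hae : ∀ᵐ z, ∀ i, z ∈ (A.P k).O →
        DifferentiableAt ℝ (fun y => f i (((A.P k).e.extend (𝓡∂ 2)).symm y)) z :=
      ae_all_iff.2 fun i => ((A.P k).cut (hf i)).diff
    filter_upwards [hae, Patch.image_ae (P := A.P k) (A.S_sub k)] with z h4 h5 h6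
    have hO := h5 h6
    have hd := fun i => h4 i hO
    unfold dens
    rw [← ENNReal.ofReal_mul (Real.sqrt_nonneg _)]
    apply ENNReal.ofReal_le_ofReal
    have htar : z ∈ ((A.P k).e.extend (𝓡∂ 2)).target := (A.P k).sub ((A.P k).O_sub_D hO)
    obtain ⟨X, Y, hXY, hJ⟩ := pointwise (A.P k).he hf htar hO.2
    have hgz : g k z = Real.sqrt (gram (A.P k).e z).det *
        ∑ i, ∑ j, fderiv ℝ (b i) (fun l => f l (((A.P k).e.extend (𝓡∂ 2)).symm z)) (Pi.single j 1) *
          (X j * Y i - Y j * X i) := by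
      simp only [hg]
      rw [Finset.mul_sum]
      apply Finset.sum_congr rfl
      intro i _
      rw [Jc_comp (hb i) (f i) hd, Finset.mul_sum]
      apply Finset.sum_congr rfl
      intro j _
      rw [hJ i j]
      ring
    rw [hgz, abs_mul, abs_of_nonneg (Real.sqrt_nonneg _)]
    exact mul_le_mul_of_nonneg_left (hcomass _ X Y hXY) (Real.sqrt_nonneg _)
  rw [h2]
  calc ENNReal.ofReal |∑ k, ∫ z in (A.P k).e.extend (𝓡∂ 2) '' (A.S k), g k z|
      ≤ ENNReal.ofReal (∑ k, |∫ z in (A.P k).e.extend (𝓡∂ 2) '' (A.S k), g k z|) :=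
        ENNReal.ofReal_le_ofReal (Finset.abs_sum_le_sum_abs _ _)
    _ = ∑ k, ENNReal.ofReal |∫ z in (A.P k).e.extend (𝓡∂ 2) '' (A.S k), g k z| :=
        ENNReal.ofReal_sum_of_nonneg (fun _ _ => abs_nonneg _)
    _ ≤ ∑ k, ∫⁻ z in (A.P k).e.extend (𝓡∂ 2) '' (A.S k),
        dens (A.P k).e z * ENNReal.ofReal (c (((A.P k).e.extend (𝓡∂ 2)).symm z)) :=
        Finset.sum_le_sum fun k _ => h3 k
    _ = ∫⁻ x, ENNReal.ofReal (c x) ∂(mu A) :=
        (lintegral_mu A (hc.measurable.ennreal_ofReal)).symm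

end Pool.Agent.H18.Col
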