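import Pool.Agent.H18.Col.Deriv2

open MeasureTheory Set
open scoped Topology ContDiff

noncomputable section

namespace Pool.Agent.H18.Col

/-- the closed spherical cap of radius `π/4` -/
structure InCap (X : E3) : Prop where
  unit : X 0 ^ 2 + X 1 ^ 2 + X 2 ^ 2 = 1
  nonneg : 0 ≤ X 2
  half : 1 / 2 ≤ X 2 ^ 2

lemma InCap.pos {X : E3} (h : InCap X) : 0 < 1 + X 2 := by linarith [h.nonneg]

lemma InCap.le {X : E3} (h : InCap X) : Real.sqrt (1 / 2) ≤ X 2 := by
  rw [← Real.sqrt_sq h.nonneg]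
  exact Real.sqrt_le_sqrt h.half

lemma InCap.of_le {X : E3} (hX : X 0 ^ 2 + X 1 ^ 2 + X 2 ^ 2 = 1) (h : Real.sqrt (1 / 2) ≤ X 2) :
    InCap X := by
  have h0 := Real.sqrt_nonneg (1 / 2 : ℝ)
  refine ⟨hX, h0.trans h, ?_⟩
  have := pow_le_pow_left₀ h0 h 2
  rwa [Real.sq_sqrt (by norm_num)] at this

lemma dd_half_pi (X : E3) : dd X (Real.pi / 2) = jd X 0 := by
  rw [dd_eq]; simp

lemma jd_half_pi (X : E3) : jd X (Real.pi / 2) = -dd X 0 := by
  rw [jd_eq]; simp

/-- the connection form is small in the cap -/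
lemma om_le {X V : E3} (h : InCap X) (hV : ‖V‖ ≤ 1) : |om X V| ≤ 1 / 2 := by
  have hp := h.pos
  have h1 := h.unit
  have h2 := h.half
  have h3 := h.nonneg
  have hX2 : 7 / 10 ≤ X 2 := by nlinarith
  have hV2 : V 0 ^ 2 + V 1 ^ 2 + V 2 ^ 2 ≤ 1 := by
    rw [← norm3_sq]; nlinarith [norm_nonneg V]
  rw [om, abs_div, abs_of_pos hp, div_le_iff₀ hp]
  apply abs_le_of_sq_le_sq _ (by positivity)
  have e : (X 1 * V 0 - X 0 * V 1) ^ 2 ≤ (X 0 ^ 2 + X 1 ^ 2) * (V 0 ^ 2 + V 1 ^ 2) := by
    nlinarith [sq_nonneg (X 0 * V 0 + X 1 * V 1)]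
  have e2 : (X 0 ^ 2 + X 1 ^ 2) * (V 0 ^ 2 + V 1 ^ 2) ≤ 1 / 2 * 1 := by
    apply mul_le_mul (by linarith) (by nlinarith [sq_nonneg (V 2)]) (by positivity) (by norm_num)
  nlinarith

section
variable {w : E3 → ℝ} (hw : Adm w) {f1 f2 r : ℝ} (hr : 0 ≤ r) (hf : f1 ^ 2 + f2 ^ 2 ≤ r ^ 2)
include hw hr hf

/-- the derivative of the frame component of `F - f` along a geodesic -/
lemma deriv_Psi {γ γ' : ℝ → E3} {t : ℝ} (hγ : HasDerivAt γ (γ' t) t)
    (hγ' : HasDerivAt γ' (-(γ t)) t) (hc : InCap (γ t)) (hn : ‖γ' t‖ = 1)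
    (ho : γ t 0 * γ' t 0 + γ t 1 * γ' t 1 + γ t 2 * γ' t 2 = 0) :
    ∃ D, HasDerivAt (fun t => (Fc w (γ t) - f1) * d1 (γ t) (γ' t)
      + (Fs w (γ t) - f2) * d2 (γ t) (γ' t)) D t ∧ D ≤ -((1 - r) / 2) := by
  obtain ⟨hFc, hFs⟩ := contDiff_F hw hc.unit hc.pos
  have h1 : HasDerivAt (fun t => Fc w (γ t)) (fderiv ℝ (Fc w) (γ t) (γ' t)) t :=
    hFc.hasFDerivAt.comp_hasDerivAt t hγ
  have h2 : HasDerivAt (fun t => Fs w (γ t)) (fderiv ℝ (Fs w) (γ t) (γ' t)) t :=
    hFs.hasFDerivAt.comp_hasDerivAt t hγ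
  have hX := hc.unit
  have hp := hc.pos
  -- derivatives of the components
  have hdd : HasDerivAt (fun t => d1 (γ t) (γ' t)) (om (γ t) (γ' t) * d2 (γ t) (γ' t)) t := by
    have a := (hasDerivAt_dd hγ hX hp ho 0).inner ℝ hγ'
    refine a.congr_deriv ?_
    rw [inner_neg_right, real_inner_comm (γ t) (dd (γ t) 0), inner_X_dd hX hp, inner_add_left,
      real_inner_smul_left, real_inner_smul_left, inner3 (γ t) (γ' t), ho, d2]
    ring
  have hjd : HasDerivAt (fun t => d2 (γ t) (γ' t)) (-(om (γ t) (γ' t) * d1 (γ t) (γ' t))) t := by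
    have a := (hasDerivAt_dd hγ hX hp ho (Real.pi / 2)).inner ℝ hγ'
    simp only [dd_half_pi, jd_half_pi] at a
    refine a.congr_deriv ?_
    rw [inner_neg_right, real_inner_comm (γ t) (jd (γ t) 0), inner_X_jd hX hp, inner_add_left,
      real_inner_smul_left, real_inner_smul_left, inner3 (γ t) (γ' t), ho, inner_neg_left, d1]
    ring
  refine ⟨_, ((h1.sub_const f1).mul hdd).add ((h2.sub_const f2).mul hjd), ?_⟩
  rw [fderiv_Fc hw hX hp ho, fderiv_Fs hw hX hp ho]
  obtain ⟨x, P, R, B, hE⟩ := entries_F hw hX hc.nonneg hc.half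
  have hq := hE.quad_ge (d1 (γ t) (γ' t)) (d2 (γ t) (γ' t))
  have hN := norm_V_sq hX hp ho
  rw [hn] at hN
  have hom := om_le hc hn.le
  set a := d1 (γ t) (γ' t)
  set b := d2 (γ t) (γ' t)
  set o := om (γ t) (γ' t)
  have hfo : |o * (f2 * a - f1 * b)| ≤ 1 / 2 * r := by
    rw [abs_mul]
    have : |f2 * a - f1 * b| ≤ r := by
      apply abs_le_of_sq_le_sq _ hr
      nlinarith [sq_nonneg (f1 * a + f2 * b)]
    exact mul_le_mul hom this (abs_nonneg _) (by norm_num)
  have := (abs_le.1 hfo).2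
  nlinarith

/-- **Monotonicity** of `F` along geodesics of the cap. -/
theorem mono_smooth (hr1 : r ≤ 1) {X Y : E3} (hX : InCap X) (hY : InCap Y) :
    (1 - r) / 2 * (1 - inner ℝ X Y ^ 2) ≤
      ((Fc w X - f1) * inner ℝ (dd X 0) Y + (Fs w X - f2) * inner ℝ (jd X 0) Y)
      + ((Fc w Y - f1) * inner ℝ (dd Y 0) X + (Fs w Y - f2) * inner ℝ (jd Y 0) X) := by
  set c : ℝ := inner ℝ X Y with hc
  have hXn : ‖X‖ = 1 := by
    have := norm3_sq X; rw [hX.unit] at this
    nlinarith [norm_nonneg X]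
  have hYn : ‖Y‖ = 1 := by
    have := norm3_sq Y; rw [hY.unit] at this
    nlinarith [norm_nonneg Y]
  have hc1 : c ≤ 1 := by
    have := real_inner_le_norm X Y
    rwa [hXn, hYn, one_mul] at this
  have hc0 : 0 ≤ c := by
    rw [hc, inner3]
    have h1 := hX.unit; have h2 := hY.unit
    have h3 := hX.half; have h4 := hY.half
    have h5 : 1 / 2 ≤ X 2 * Y 2 := by
      have := mul_le_mul hX.le hY.le (Real.sqrt_nonneg _) hX.nonneg
      rwa [Real.mul_self_sqrt (by norm_num)] at this
    nlinarith [sq_nonneg (X 0 + Y 0), sq_nonneg (X 1 + Y 1)]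
  rcases hc1.lt_or_eq with hlt | heq
  · -- the geodesic
    set L := Real.arccos c with hL
    have hcos : Real.cos L = c := Real.cos_arccos (by linarith) hc1
    have hL0 : 0 < L := Real.arccos_pos.2 hlt
    have hLpi : L ≤ Real.pi / 2 := Real.arccos_le_pi_div_two.2 hc0
    have hpi := Real.pi_pos
    have hsL : 0 < Real.sin L := Real.sin_pos_of_pos_of_lt_pi hL0 (by linarith)
    have hsc := Real.sin_sq_add_cos_sq L
    set T : E3 := (Real.sin L)⁻¹ • (Y - c • X) with hT
    set γ : ℝ → E3 := fun t => Real.cos t • X + Real.sin t • T with hγ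
    set γ' : ℝ → E3 := fun t => (-Real.sin t) • X + Real.cos t • T with hγ'
    have hXX : inner ℝ X X = (1 : ℝ) := inner_X_X hX.unit
    have hYY : inner ℝ Y Y = (1 : ℝ) := inner_X_X hY.unit
    have hXT : inner ℝ X T = (0 : ℝ) := by
      rw [hT, real_inner_smul_right, inner_sub_right, real_inner_smul_right, hXX, ← hc]
      ring
    have hTT : inner ℝ T T = (1 : ℝ) := by
      rw [hT, real_inner_smul_left, real_inner_smul_right]
      simp only [inner_sub_left, inner_sub_right, real_inner_smul_left, real_inner_smul_right]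
      rw [hXX, hYY, real_inner_comm X Y, ← hc]
      rw [hcos] at hsc
      field_simp
      linear_combination -hsc
    have hd : ∀ t, HasDerivAt γ (γ' t) t := fun t =>
      ((Real.hasDerivAt_cos t).smul_const X).add ((Real.hasDerivAt_sin t).smul_const T)
    have hd' : ∀ t, HasDerivAt γ' (-(γ t)) t := fun t => by
      have := ((Real.hasDerivAt_sin t).neg.smul_const X).add ((Real.hasDerivAt_cos t).smul_const T)
      refine this.congr_deriv ?_
      simp only [hγ]
      module
    have hγγ : ∀ t, inner ℝ (γ t) (γ t) = (1 : ℝ) := by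
      intro t
      simp only [hγ, inner_add_left, inner_add_right, real_inner_smul_left, real_inner_smul_right]
      rw [hXX, hTT, real_inner_comm X T, hXT]
      have := Real.sin_sq_add_cos_sq t
      linear_combination this
    have hγ'γ' : ∀ t, inner ℝ (γ' t) (γ' t) = (1 : ℝ) := by
      intro t
      simp only [hγ', inner_add_left, inner_add_right, real_inner_smul_left, real_inner_smul_right]
      rw [hXX, hTT, real_inner_comm X T, hXT]
      have := Real.sin_sq_add_cos_sq t
      linear_combination this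
    have hγγ' : ∀ t, inner ℝ (γ t) (γ' t) = (0 : ℝ) := by
      intro t
      simp only [hγ, hγ', inner_add_left, inner_add_right, real_inner_smul_left,
        real_inner_smul_right]
      rw [hXX, hTT, real_inner_comm X T, hXT]
      ring
    have hcap : ∀ t ∈ Icc 0 L, InCap (γ t) := by
      intro t ht
      refine InCap.of_le ?_ ?_
      · have := hγγ t
        rw [inner3] at this
        linarith
      · have e : γ t 2 = (Real.sin (L - t) * X 2 + Real.sin t * Y 2) / Real.sin L := by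
          simp only [hγ, hT, PiLp.add_apply, PiLp.smul_apply, smul_eq_mul, PiLp.sub_apply]
          rw [Real.sin_sub, hcos]
          field_simp
          ring
        rw [e, le_div_iff₀ hsL]
        have hs1 : 0 ≤ Real.sin (L - t) :=
          Real.sin_nonneg_of_nonneg_of_le_pi (by linarith [ht.2]) (by linarith [ht.1])
        have hs2 : 0 ≤ Real.sin t :=
          Real.sin_nonneg_of_nonneg_of_le_pi ht.1 (by linarith [ht.2])
        have h5 : Real.sin L ≤ Real.sin (L - t) + Real.sin t := by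
          have : Real.sin L = Real.sin (L - t) * Real.cos t + Real.cos (L - t) * Real.sin t := by
            rw [← Real.sin_add]; ring_nf
          rw [this]
          nlinarith [Real.cos_le_one t, Real.cos_le_one (L - t)]
        have h6 := Real.sqrt_nonneg (1 / 2 : ℝ)
        calc Real.sqrt (1 / 2) * Real.sin L
            ≤ Real.sqrt (1 / 2) * (Real.sin (L - t) + Real.sin t) :=
              mul_le_mul_of_nonneg_left h5 h6
          _ ≤ _ := by nlinarith [mul_le_mul_of_nonneg_left hX.le hs1, mul_le_mul_of_nonneg_left hY.le hs2]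
    have hn : ∀ t, ‖γ' t‖ = 1 := by
      intro t
      have := hγ'γ' t
      rw [real_inner_self_eq_norm_sq] at this
      nlinarith [norm_nonneg (γ' t)]
    have ho : ∀ t, γ t 0 * γ' t 0 + γ t 1 * γ' t 1 + γ t 2 * γ' t 2 = 0 := by
      intro t
      rw [← inner3]; exact hγγ' t
    have key : ∀ t ∈ Icc 0 L, ∃ D, HasDerivAt (fun t => (Fc w (γ t) - f1) * d1 (γ t) (γ' t)
      + (Fs w (γ t) - f2) * d2 (γ t) (γ' t)) D t ∧ D ≤ -((1 - r) / 2) := fun t ht =>
      deriv_Psi hw hr hf (hd t) (hd' t) (hcap t ht) (hn t) (ho t)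
    set Ψ : ℝ → ℝ := fun t => (Fc w (γ t) - f1) * d1 (γ t) (γ' t)
      + (Fs w (γ t) - f2) * d2 (γ t) (γ' t) with hΨ
    have hmv : Ψ L - Ψ 0 ≤ -((1 - r) / 2) * (L - 0) := by
      apply (convex_Icc (0 : ℝ) L).image_sub_le_mul_sub_of_deriv_le
      · intro t ht
        obtain ⟨D, hD, _⟩ := key t ht
        exact hD.continuousAt.continuousWithinAt
      · intro t ht
        rw [interior_Icc] at ht
        obtain ⟨D, hD, _⟩ := key t (Ioo_subset_Icc_self ht)
        exact hD.differentiableAt.differentiableWithinAt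
      · intro t ht
        rw [interior_Icc] at ht
        obtain ⟨D, hD, hle⟩ := key t (Ioo_subset_Icc_self ht)
        rw [hD.deriv]
        exact hle
      · exact ⟨le_rfl, hL0.le⟩
      · exact ⟨hL0.le, le_rfl⟩
      · exact hL0.le
    have eγ0 : γ 0 = X := by simp [hγ]
    have eγ'0 : γ' 0 = T := by simp [hγ']
    have eγL : γ L = Y := by
      simp only [hγ, hT, smul_smul, hcos]
      rw [mul_inv_cancel₀ hsL.ne', one_smul]
      abel
    have eγ'L : γ' L = (Real.sin L)⁻¹ • (c • Y - X) := by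
      simp only [hγ', hT, hcos]
      rw [smul_smul, smul_sub, smul_sub, smul_smul, smul_smul]
      have h7 : -Real.sin L = -(Real.sin L)⁻¹ + c * (Real.sin L)⁻¹ * c := by
        rw [hcos] at hsc
        field_simp
        linarith
      rw [h7]
      module
    have e0 : Ψ 0 = (Real.sin L)⁻¹ * ((Fc w X - f1) * inner ℝ (dd X 0) Y
        + (Fs w X - f2) * inner ℝ (jd X 0) Y) := by
      simp only [hΨ]
      rw [eγ0, eγ'0, d1, d2, hT, real_inner_smul_right, real_inner_smul_right, inner_sub_right,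
        inner_sub_right, real_inner_smul_right, real_inner_smul_right,
        real_inner_comm X (dd X 0), real_inner_comm X (jd X 0), inner_X_dd hX.unit hX.pos,
        inner_X_jd hX.unit hX.pos]
      ring
    have eL : Ψ L = -((Real.sin L)⁻¹ * ((Fc w Y - f1) * inner ℝ (dd Y 0) X
        + (Fs w Y - f2) * inner ℝ (jd Y 0) X)) := by
      simp only [hΨ]
      rw [eγL, eγ'L, d1, d2, real_inner_smul_right, real_inner_smul_right, inner_sub_right,
        inner_sub_right, real_inner_smul_right, real_inner_smul_right,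
        real_inner_comm Y (dd Y 0), real_inner_comm Y (jd Y 0), inner_X_dd hY.unit hY.pos,
        inner_X_jd hY.unit hY.pos]
      ring
    rw [e0, eL, sub_zero] at hmv
    have hsinle : Real.sin L ≤ L := Real.sin_le hL0.le
    have h8 : (1 - r) / 2 * (Real.sin L * Real.sin L) ≤ (1 - r) / 2 * (L * Real.sin L) :=
      mul_le_mul_of_nonneg_left (mul_le_mul_of_nonneg_right hsinle hsL.le) (by linarith)
    have h9 : 1 - c ^ 2 = Real.sin L * Real.sin L := by rw [hcos] at hsc; linarith
    rw [h9]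
    refine h8.trans ?_
    set G1 := (Fc w X - f1) * inner ℝ (dd X 0) Y + (Fs w X - f2) * inner ℝ (jd X 0) Y
    set G2 := (Fc w Y - f1) * inner ℝ (dd Y 0) X + (Fs w Y - f2) * inner ℝ (jd Y 0) X
    have h10 : (1 - r) / 2 * L ≤ (Real.sin L)⁻¹ * (G1 + G2) := by linarith
    have h11 := mul_le_mul_of_nonneg_right h10 hsL.le
    have h12 : (Real.sin L)⁻¹ * (G1 + G2) * Real.sin L = G1 + G2 := by
      field_simp
    rw [h12] at h11
    linarith
  · -- `X = Y`
    have hXY : X = Y := by
      rw [inner_eq_one_iff_of_norm_eq_one hXn hYn] at heq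
      exact heq
    subst hXY
    rw [heq, real_inner_comm X (dd X 0), real_inner_comm X (jd X 0), inner_X_dd hX.unit hX.pos,
        inner_X_jd hX.unit hX.pos]
    simp

end

end Pool.Agent.H18.Col
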