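import Pool.Agent.H18.Col.PartII

open MeasureTheory Set Filter Measure Manifold Bundle InnerProductGeometry
open scoped ContDiff Topology ENNReal NNReal

set_option linter.unusedSectionVars false
set_option linter.style.haveILetI false

noncomputable section

namespace Pool.Agent.H18.Col

open Pool.Agent.H74.FAC

/-- latitude and longitude -/
def yy (l θ : ℝ) : E3 := v3 (Real.cos l * Real.cos θ) (Real.cos l * Real.sin θ) (Real.sin l)

lemma norm_yy (l θ : ℝ) : ‖yy l θ‖ = 1 := by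
  apply norm_of_unit
  simp only [yy, v3_zero, v3_one, v3_two]
  linear_combination Real.sin_sq_add_cos_sq l + Real.cos l ^ 2 * Real.sin_sq_add_cos_sq θ

lemma yy_mem {l : ℝ} (h0 : 0 ≤ l) (h1 : l ≤ Real.pi / 4) (θ : ℝ) : yy l θ ∈ collar := by
  have hpi := Real.pi_pos
  refine ⟨norm_yy l θ, ?_, ?_⟩
  · simp only [yy, v3_two]
    exact Real.sin_nonneg_of_nonneg_of_le_pi h0 (by linarith)
  · simp only [yy, v3_two]
    rw [← Real.sin_pi_div_four]
    exact Real.sin_le_sin_of_le_of_le_pi_div_two (by linarith) (by linarith) h1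

/-- the sectors of the collar -/
def Sec (δ θ0 : ℝ) : Set collar :=
  {y | ∃ l θ : ℝ, 0 ≤ l ∧ l ≤ Real.pi / 4 ∧ |θ - θ0| ≤ δ ∧ (y : E3) = yy l θ}

/-- the planar region covered by the image of a sector -/
def Reg (δ : ℝ) : Set E2 :=
  {x | 0 ≤ x 0 ∧ x 0 ≤ Real.pi / 4 ∧ |x 1| ≤ Real.cos (x 0) * Real.sin δ}

lemma vol_Reg {δ : ℝ} (h0 : 0 ≤ Real.sin δ) :
    ENNReal.ofReal (Real.sqrt 2 * Real.sin δ) ≤ volume (Reg δ) := by
  have hpi := Real.pi_pos
  set f : ℝ → ℝ := fun l => -(Real.cos l * Real.sin δ) with hf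
  set g : ℝ → ℝ := fun l => Real.cos l * Real.sin δ with hg
  have hfc : Continuous f := by rw [hf]; fun_prop
  have hgc : Continuous g := by rw [hg]; fun_prop
  have h1 := volume_regionBetween_eq_integral (μ := volume) (f := f) (g := g)
    (s := Icc 0 (Real.pi / 4))
    (hfc.continuousOn.integrableOn_Icc)
    (hgc.continuousOn.integrableOn_Icc) measurableSet_Icc
    (by
      intro l hl
      have : 0 ≤ Real.cos l := Real.cos_nonneg_of_neg_pi_div_two_le_of_le (by linarith [hl.1])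
        (by linarith [hl.2])
      simp only [hf, hg]
      nlinarith [mul_nonneg this h0])
  have h2 : ∫ y in Icc 0 (Real.pi / 4), (g - f) y = Real.sqrt 2 * Real.sin δ := by
    rw [integral_Icc_eq_integral_Ioc, ← intervalIntegral.integral_of_le (by positivity)]
    have e : ∀ y, (g - f) y = 2 * Real.sin δ * Real.cos y := by
      intro y
      simp only [hf, hg, Pi.sub_apply]
      ring
    simp only [e]
    rw [intervalIntegral.integral_const_mul, integral_cos, Real.sin_zero, Real.sin_pi_div_four]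
    ring
  rw [h2] at h1
  rw [← h1, ← Measure.volume_eq_prod, ← ptE_mp.measure_preimage_equiv (Reg δ)]
  apply measure_mono
  rintro ⟨l, s⟩ ⟨hl, hs⟩
  show ptE (l, s) ∈ Reg δ
  rw [ptE_apply]
  refine ⟨?_, ?_, ?_⟩
  · exact hl.1
  · exact hl.2
  · simp only [pt_one, pt_zero]
    exact (abs_lt.2 hs).le

section
variable {M : Type} [MetricSpace M] (Ψ : collar → M)

/-- the second family of functions -/
def W0 (p : M) (Z : E3) : ℝ := Wf (fun i : collar => (i : E3)) Ψ p Z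

lemma W0_lip (Z : E3) : LipschitzWith 1 (fun p => W0 Ψ p Z) := Wf_lip _ _ _

lemma W0_val (hΨ : ∀ y y' : collar, angle (y : E3) y' ≤ dist (Ψ y) (Ψ y')) (y : collar) (Z : E3) :
    W0 Ψ (Ψ y) Z = Real.pi / 2 - angle Z y :=
  Wf_val _ _ (fun i j => hΨ i j) y Z

lemma Reg_sub (hΨ : ∀ y y' : collar, angle (y : E3) y' ≤ dist (Ψ y) (Ψ y')) {δ : ℝ} (h0 : 0 ≤ δ)
    (h1 : δ ≤ 1) (θ0 : ℝ) :
    Reg δ ⊆ (fun p => pt (W0 Ψ p (v3 0 0 1)) (W0 Ψ p (v3 (-Real.sin θ0) (Real.cos θ0) 0))) ''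
      closure (Ψ '' Sec δ θ0) := by
  have hpi := Real.pi_gt_d2
  rintro x ⟨hx0, hx1, hx2⟩
  set l := x 0 with hl
  set s := x 1 with hs
  have hsin0 : 0 ≤ Real.sin δ := Real.sin_nonneg_of_nonneg_of_le_pi h0 (by linarith)
  have hcos : 0 < Real.cos l := Real.cos_pos_of_mem_Ioo ⟨by linarith, by linarith⟩
  have hs1 : |s| ≤ 1 := by
    refine hx2.trans ?_
    exact mul_le_one₀ (Real.cos_le_one _) hsin0 (Real.sin_le_one _)
  have hs1' := abs_le.1 hs1
  set q := Real.sin s / Real.cos l with hq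
  have hq1 : |q| ≤ Real.sin δ := by
    rw [hq, abs_div, abs_of_pos hcos, div_le_iff₀ hcos]
    refine (Real.abs_sin_le_abs).trans ?_
    rw [mul_comm]; exact hx2
  set θ := θ0 + Real.arcsin q with hθ
  have hq2 := abs_le.1 hq1
  have hsd : Real.sin δ ≤ 1 := Real.sin_le_one _
  have hθ1 : |θ - θ0| ≤ δ := by
    rw [hθ, add_sub_cancel_left, abs_le]
    have e1 : Real.arcsin (Real.sin δ) = δ := Real.arcsin_sin (by linarith) (by linarith)
    constructor
    · have := Real.monotone_arcsin hq2.1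
      rw [Real.arcsin_neg, e1] at this
      exact this
    · have := Real.monotone_arcsin hq2.2
      rw [e1] at this
      exact this
  have hmem := yy_mem hx0 hx1 θ
  have hN : ‖v3 0 0 1‖ = 1 := by apply norm_of_unit; simp
  have hZ : ‖v3 (-Real.sin θ0) (Real.cos θ0) 0‖ = 1 := by
    apply norm_of_unit
    simp only [v3_zero, v3_one, v3_two]
    linear_combination Real.sin_sq_add_cos_sq θ0
  refine ⟨Ψ ⟨yy l θ, hmem⟩, subset_closure ⟨_, ⟨l, θ, hx0, hx1, hθ1, rfl⟩, rfl⟩, ?_⟩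
  have v1 : W0 Ψ (Ψ ⟨yy l θ, hmem⟩) (v3 0 0 1) = l := by
    rw [W0_val Ψ hΨ, pi_sub_angle hN (norm_yy l θ), inner3]
    simp only [v3_zero, v3_one, v3_two, yy, zero_mul, zero_add, one_mul]
    exact Real.arcsin_sin (by linarith) (by linarith)
  have v2 : W0 Ψ (Ψ ⟨yy l θ, hmem⟩) (v3 (-Real.sin θ0) (Real.cos θ0) 0) = s := by
    rw [W0_val Ψ hΨ, pi_sub_angle hZ (norm_yy l θ), inner3]
    simp only [v3_zero, v3_one, v3_two, yy, zero_mul, add_zero]
    have e1 : -Real.sin θ0 * (Real.cos l * Real.cos θ) + Real.cos θ0 * (Real.cos l * Real.sin θ)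
        = Real.cos l * Real.sin (θ - θ0) := by
      rw [Real.sin_sub]; ring
    rw [e1, hθ, add_sub_cancel_left, Real.sin_arcsin (by linarith) (by linarith), hq,
      mul_div_cancel₀ _ hcos.ne']
    exact Real.arcsin_sin (by linarith) (by linarith)
  show pt _ _ = x
  rw [v1, v2]
  ext i
  fin_cases i
  · rfl
  · rfl

end

/-- points of different sectors are far apart -/
lemma sec_far {δ θ0 θ1 η : ℝ} (hη0 : 0 < η) (hη1 : η ≤ Real.pi)
    (h1 : η + 2 * δ ≤ |θ0 - θ1|) (h2 : |θ0 - θ1| ≤ 2 * Real.pi - η - 2 * δ) :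
    ∃ c : ℝ, 0 < c ∧ ∀ y ∈ Sec δ θ0, ∀ y' ∈ Sec δ θ1, c ≤ angle (y : E3) y' := by
  have hpi := Real.pi_pos
  have hcosη : Real.cos η < 1 := by
    rw [← Real.cos_zero]
    exact Real.cos_lt_cos_of_nonneg_of_le_pi le_rfl hη1 hη0
  set b := 1 - 1 / 2 * (1 - Real.cos η) with hb
  have hb1 : b < 1 := by rw [hb]; linarith
  refine ⟨Real.arccos b, Real.arccos_pos.2 hb1, ?_⟩
  rintro y ⟨l, θ, hl0, hl1, hθ, hy⟩ y' ⟨l', θ', hl0', hl1', hθ', hy'⟩
  rw [hy, hy', angle, norm_yy, norm_yy, mul_one, div_one]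
  apply Real.arccos_le_arccos
  rw [inner3]
  simp only [yy, v3_zero, v3_one, v3_two]
  have e1 : Real.cos l * Real.cos θ * (Real.cos l' * Real.cos θ')
      + Real.cos l * Real.sin θ * (Real.cos l' * Real.sin θ') + Real.sin l * Real.sin l'
      = Real.cos (l - l') - Real.cos l * Real.cos l' * (1 - Real.cos (θ - θ')) := by
    rw [Real.cos_sub, Real.cos_sub]; ring
  rw [e1]
  -- the difference of longitudes
  have hcos : Real.cos (θ - θ') ≤ Real.cos η := by
    rw [← Real.cos_abs (θ - θ')]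
    have a1 : |θ - θ'| ≤ |θ0 - θ1| + 2 * δ := by
      have : θ - θ' = (θ - θ0) + (θ0 - θ1) - (θ' - θ1) := by ring
      rw [this]
      refine (abs_sub _ _).trans ?_
      have := abs_add_le (θ - θ0) (θ0 - θ1)
      linarith
    have a2 : |θ0 - θ1| - 2 * δ ≤ |θ - θ'| := by
      have : θ0 - θ1 = (θ - θ') - (θ - θ0) + (θ' - θ1) := by ring
      have h3 := abs_add_le ((θ - θ') - (θ - θ0)) (θ' - θ1)
      have h4 := abs_sub (θ - θ') (θ - θ0)
      rw [← this] at h3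
      linarith
    rcases le_total |θ - θ'| Real.pi with h | h
    · exact Real.cos_le_cos_of_nonneg_of_le_pi hη0.le h (by linarith)
    · have e2 : Real.cos |θ - θ'| = Real.cos (2 * Real.pi - |θ - θ'|) := by
        rw [Real.cos_two_pi_sub]
      rw [e2]
      exact Real.cos_le_cos_of_nonneg_of_le_pi hη0.le (by linarith) (by linarith)
  have hhalf : ∀ l : ℝ, 0 ≤ l → l ≤ Real.pi / 4 → Real.sqrt 2 / 2 ≤ Real.cos l := by
    intro l h0 h1
    rw [← Real.cos_pi_div_four]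
    exact Real.cos_le_cos_of_nonneg_of_le_pi h0 (by linarith) h1
  have c1 := hhalf l hl0 hl1
  have c2 := hhalf l' hl0' hl1'
  have hs2 : Real.sqrt 2 ^ 2 = 2 := Real.sq_sqrt (by norm_num)
  have hs0 : 0 ≤ Real.sqrt 2 := Real.sqrt_nonneg _
  have c3 : 1 / 2 ≤ Real.cos l * Real.cos l' := by
    calc (1 : ℝ) / 2 = Real.sqrt 2 / 2 * (Real.sqrt 2 / 2) := by linear_combination (-1 / 4) * hs2
      _ ≤ Real.cos l * Real.cos l' := mul_le_mul c1 c2 (by positivity) (by linarith)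
  have c4 := Real.cos_le_one (l - l')
  have c5 : 1 / 2 * (1 - Real.cos η) ≤ Real.cos l * Real.cos l' * (1 - Real.cos (θ - θ')) :=
    mul_le_mul c3 (by linarith) (by linarith) (by linarith)
  linarith

variable {M : Type} [MetricSpace M] [ChartedSpace HP M] [IsManifold (𝓡∂ 2) ∞ M] [CompactSpace M]
  [RiemannianBundle (fun x : M => TangentSpace (𝓡∂ 2) x)]
  [IsContMDiffRiemannianBundle (𝓡∂ 2) ∞ E2 (fun x : M => TangentSpace (𝓡∂ 2) x)]
  [IsRiemannianManifold (𝓡∂ 2) M] [MeasurableSpace M] [BorelSpace M]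

lemma partI_aux (A : Cov M) {Ψ : collar → M}
    (hΨ : ∀ y y' : collar, angle (y : E3) y' ≤ dist (Ψ y) (Ψ y')) {n : ℕ} (hn : 4 ≤ n) :
    ENNReal.ofReal (n * (Real.sqrt 2 * Real.sin (Real.pi / n - 1 / n ^ 2)))
      ≤ mu A (closure (range Ψ)) := by
  have hpi := Real.pi_gt_d2
  have hpi4 := Real.pi_le_four
  have hn' : (4 : ℝ) ≤ n := by exact_mod_cast hn
  have hn0 : (0 : ℝ) < n := by linarith
  set δ := Real.pi / n - 1 / n ^ 2 with hδ
  have hinv : 1 / (n : ℝ) ≤ 1 / 4 := one_div_le_one_div_of_le (by norm_num) hn'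
  have hinv0 : 0 < 1 / (n : ℝ) := by positivity
  have e1 : δ = 1 / n * (Real.pi - 1 / n) := by rw [hδ]; field_simp
  have hδ0 : 0 < δ := by rw [e1]; apply mul_pos hinv0; linarith
  have hδ1 : δ ≤ 1 := by rw [e1]; nlinarith
  have hsin : 0 ≤ Real.sin δ := Real.sin_nonneg_of_nonneg_of_le_pi hδ0.le (by linarith)
  -- the sectors
  set θ : Fin n → ℝ := fun j => 2 * Real.pi * j / n with hθ
  set S : Fin n → Set M := fun j => closure (Ψ '' Sec δ (θ j)) with hS
  have hSm : ∀ j, MeasurableSet (S j) := fun j => isClosed_closure.measurableSet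
  have hSsub : ∀ j, S j ⊆ closure (range Ψ) := fun j => closure_mono (image_subset_range _ _)
  have hSvol : ∀ j, ENNReal.ofReal (Real.sqrt 2 * Real.sin δ) ≤ mu A (S j) := by
    intro j
    refine (vol_Reg hsin).trans ((measure_mono (Reg_sub Ψ hΨ hδ0.le hδ1 (θ j))).trans ?_)
    exact image_le_mu A (W0_lip Ψ _) (W0_lip Ψ _) (hSm j)
  have hdisj : Pairwise fun i j => Disjoint (S i) (S j) := by
    intro i j hij
    have hne : (i : ℕ) ≠ (j : ℕ) := fun h => hij (Fin.ext h)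
    have hi : (i : ℕ) < n := i.2
    have hj : (j : ℕ) < n := j.2
    have d1 : (1 : ℝ) ≤ |((i : ℕ) : ℝ) - ((j : ℕ) : ℝ)| := by
      have : (1 : ℤ) ≤ |((i : ℕ) : ℤ) - ((j : ℕ) : ℤ)| := by
        apply Int.one_le_abs
        omega
      exact_mod_cast this
    have d2 : |((i : ℕ) : ℝ) - ((j : ℕ) : ℝ)| ≤ n - 1 := by
      have : |((i : ℕ) : ℤ) - ((j : ℕ) : ℤ)| ≤ n - 1 := by
        rw [abs_le]; omega
      have h3 : ((|((i : ℕ) : ℤ) - ((j : ℕ) : ℤ)| : ℤ) : ℝ) ≤ ((n - 1 : ℤ) : ℝ) := by exact_mod_cast this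
      push_cast at h3
      exact h3
    have e2 : |θ i - θ j| = 2 * Real.pi / n * |((i : ℕ) : ℝ) - ((j : ℕ) : ℝ)| := by
      have : θ i - θ j = 2 * Real.pi / n * (((i : ℕ) : ℝ) - ((j : ℕ) : ℝ)) := by
        simp only [hθ]; field_simp
      rw [this, abs_mul, abs_of_pos (by positivity)]
    have hq : 0 < 2 * Real.pi / (n : ℝ) := by positivity
    have e3 : 2 / (n : ℝ) ^ 2 + 2 * δ = 2 * Real.pi / n := by rw [hδ]; ring
    have hsq : 2 / (n : ℝ) ^ 2 ≤ Real.pi := by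
      have : 2 / (n : ℝ) ^ 2 ≤ 2 / 4 ^ 2 := by gcongr
      linarith
    obtain ⟨c, hc0, hc⟩ := sec_far (δ := δ) (θ0 := θ i) (θ1 := θ j) (η := 2 / (n : ℝ) ^ 2)
      (by positivity) hsq (by rw [e2, e3]; nlinarith) (by
        have e4 : 2 * Real.pi - 2 / (n : ℝ) ^ 2 - 2 * δ = 2 * Real.pi / n * (n - 1) := by
          have : 2 * Real.pi - 2 / (n : ℝ) ^ 2 - 2 * δ = 2 * Real.pi - 2 * Real.pi / n := by
            linarith
          rw [this]; field_simp
        rw [e2, e4]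
        exact mul_le_mul_of_nonneg_left d2 hq.le)
    rw [Set.disjoint_left]
    intro p hp hp'
    obtain ⟨_, ⟨y, hy, rfl⟩, h4⟩ := Metric.mem_closure_iff.1 hp (c / 2) (by positivity)
    obtain ⟨_, ⟨y', hy', rfl⟩, h5⟩ := Metric.mem_closure_iff.1 hp' (c / 2) (by positivity)
    have h6 := hc y hy y' hy'
    have h7 := hΨ y y'
    have h8 := dist_triangle_left (Ψ y) (Ψ y') p
    linarith
  calc ENNReal.ofReal (n * (Real.sqrt 2 * Real.sin δ))
      = ∑ _j : Fin n, ENNReal.ofReal (Real.sqrt 2 * Real.sin δ) := by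
        rw [Finset.sum_const, Finset.card_univ, Fintype.card_fin, nsmul_eq_mul,
          ENNReal.ofReal_mul hn0.le, ENNReal.ofReal_natCast]
    _ ≤ ∑ j : Fin n, mu A (S j) := Finset.sum_le_sum fun j _ => hSvol j
    _ = mu A (⋃ j, S j) := by
        rw [measure_iUnion hdisj hSm, tsum_fintype]
    _ ≤ mu A (closure (range Ψ)) := measure_mono (iUnion_subset hSsub)

/-- **The outer part.** -/
theorem partI (A : Cov M) {Ψ : collar → M}
    (hΨ : ∀ y y' : collar, angle (y : E3) y' ≤ dist (Ψ y) (Ψ y')) :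
    ENNReal.ofReal (Real.sqrt 2 * Real.pi) ≤ mu A (closure (range Ψ)) := by
  have hpi := Real.pi_gt_d2
  have hpi4 := Real.pi_le_four
  have hlim : Tendsto (fun n : ℕ => Real.sqrt 2 * (Real.pi - 1 / n) - 16 * (1 / (n : ℝ)))
      atTop (𝓝 (Real.sqrt 2 * (Real.pi - 0) - 16 * 0)) := by
    have h := tendsto_one_div_atTop_nhds_zero_nat (𝕜 := ℝ)
    exact ((tendsto_const_nhds.sub h).const_mul _).sub (h.const_mul _)
  rw [sub_zero, mul_zero, sub_zero] at hlim
  apply le_of_tendsto (ENNReal.tendsto_ofReal hlim)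
  filter_upwards [eventually_ge_atTop 4] with n hn
  refine le_trans (ENNReal.ofReal_le_ofReal ?_) (partI_aux A hΨ hn)
  have hn' : (4 : ℝ) ≤ n := by exact_mod_cast hn
  have hn0 : (0 : ℝ) < n := by linarith
  set z := 1 / (n : ℝ) with hz
  have hz0 : 0 < z := by positivity
  have hz1 : z ≤ 1 / 4 := one_div_le_one_div_of_le (by norm_num) hn'
  have hnz : (n : ℝ) * z = 1 := by rw [hz]; field_simp
  have e1 : Real.pi / n - 1 / (n : ℝ) ^ 2 = z * (Real.pi - z) := by rw [hz]; field_simp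
  rw [e1]
  set δ := z * (Real.pi - z) with hδ
  have hδ0 : 0 ≤ δ := by rw [hδ]; apply mul_nonneg hz0.le; linarith
  have hδ4 : δ ≤ 4 * z := by rw [hδ]; nlinarith
  have h1 := Real.sin_ge_sub_cube hδ0
  have hs2 := sqrt2_bounds
  have h2 : δ ^ 3 ≤ 64 * z ^ 3 := by
    calc δ ^ 3 ≤ (4 * z) ^ 3 := pow_le_pow_left₀ hδ0 hδ4 3
      _ = 64 * z ^ 3 := by ring
  have h3 : (n : ℝ) * (Real.sqrt 2 * δ) = Real.sqrt 2 * (Real.pi - z) := by
    rw [hδ]
    linear_combination (Real.sqrt 2 * (Real.pi - z)) * hnz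
  have h4 : (n : ℝ) * (Real.sqrt 2 * (δ ^ 3 / 4)) ≤ 16 * z := by
    calc (n : ℝ) * (Real.sqrt 2 * (δ ^ 3 / 4)) ≤ n * (3 / 2 * (64 * z ^ 3 / 4)) := by
          gcongr
          linarith [hs2.2]
      _ = 24 * (n * z) * z ^ 2 := by ring
      _ = 24 * z * z := by rw [hnz]; ring
      _ ≤ 16 * z := by nlinarith
  have h6 : δ - δ ^ 3 / 4 ≤ Real.sin δ := by
    have : 0 ≤ δ ^ 3 := pow_nonneg hδ0 3
    linarith
  have h5 : (n : ℝ) * (Real.sqrt 2 * (δ - δ ^ 3 / 4)) ≤ n * (Real.sqrt 2 * Real.sin δ) := by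
    gcongr
  linarith

end Pool.Agent.H18.Col
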