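import Pool.Agent.H18.Col.DegF

open MeasureTheory Set Filter Measure Manifold Bundle InnerProductGeometry
open scoped ContDiff Topology ENNReal NNReal

set_option linter.unusedSectionVars false
set_option linter.style.haveILetI false

noncomputable section

namespace Pool.Agent.H18.Col

open Pool.Agent.H74.FAC

lemma sqrt_half : Real.sqrt (1 / 2) = Real.sqrt 2 / 2 := by
  have h : (Real.sqrt 2 / 2) ^ 2 = 1 / 2 := by
    rw [div_pow, Real.sq_sqrt (by norm_num)]; norm_num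
  rw [← h, Real.sqrt_sq (by positivity)]

/-- the smaller disc -/
def Dr (ρ : ℝ) : Set E2 := {x | x 0 ^ 2 + x 1 ^ 2 ≤ ρ}

lemma Dr_eq {ρ : ℝ} (hρ : 0 ≤ ρ) : Dr ρ = Metric.closedBall (0 : E2) (Real.sqrt ρ) := by
  ext x
  rw [Metric.mem_closedBall, dist_zero_right, Real.le_sqrt (norm_nonneg _) hρ,
    EuclideanSpace.norm_sq_eq, Fin.sum_univ_two, Real.norm_eq_abs, Real.norm_eq_abs, sq_abs, sq_abs]
  rfl

lemma vol_Dr {ρ : ℝ} (hρ : 0 ≤ ρ) : volume (Dr ρ) = ENNReal.ofReal (Real.pi * ρ) := by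
  rw [Dr_eq hρ, EuclideanSpace.volume_closedBall_fin_two, ← ENNReal.ofReal_pow (Real.sqrt_nonneg _),
    Real.sq_sqrt hρ, mul_comm Real.pi, ENNReal.ofReal_mul hρ]

lemma isClosed_Dr (ρ : ℝ) : IsClosed (Dr ρ) := by
  have h0 : Continuous (fun x : E2 => x 0) := by fun_prop
  have h1 : Continuous (fun x : E2 => x 1) := by fun_prop
  exact isClosed_le (by fun_prop) continuous_const

variable {M : Type} [MetricSpace M] [ChartedSpace HP M] [IsManifold (𝓡∂ 2) ∞ M] [CompactSpace M]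
  [RiemannianBundle (fun x : M => TangentSpace (𝓡∂ 2) x)]
  [IsContMDiffRiemannianBundle (𝓡∂ 2) ∞ E2 (fun x : M => TangentSpace (𝓡∂ 2) x)]
  [IsRiemannianManifold (𝓡∂ 2) M] [MeasurableSpace M] [BorelSpace M]

/-- joint continuity -/
lemma continuousOn_joint (Ψ : collar → M) :
    ContinuousOn (fun q : M × E2 => FF (WP Ψ q.1) q.2) (univ ×ˢ Dsc) := by
  have h1 : ∀ p ∈ (univ : Set M), ContinuousOn (fun y => FF (WP Ψ p) y) Dsc := by
    intro p _
    exact continuousOn_FF_lip (WP_lipS Ψ p)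
  have h2 : ∀ x ∈ Dsc, LipschitzOnWith 4 (fun p => FF (WP Ψ p) x) (univ : Set M) := by
    intro x hx
    apply LipschitzOnWith.of_dist_le_mul
    intro p _ q _
    have h := FM_lip Ψ (XX_cap hx) q p
    have e : ∀ p, FF (WP Ψ p) x = FM Ψ (XX x) p := fun p => by rw [FF, FM]
    rw [dist_eq_norm, dist_comm p q, NNReal.coe_ofNat, e, e]
    exact h
  exact continuousOn_prod_of_continuousOn_lipschitzOnWith
    (fun q : M × E2 => FF (WP Ψ q.1) q.2) 4 h1 h2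

lemma partII_aux (A : Cov M) {φ : S1 → M} (hφ : IsometricFilling φ) {Ψ : collar → M}
    (hΨ : ∀ y y' : collar, angle (y : E3) y' ≤ dist (Ψ y) (Ψ y'))
    (hb : ∀ t : ℝ, Ψ ⟨_, ring_mem t⟩ = φ (t : S1)) (hfin : mu A univ ≠ ⊤)
    {δ : ℝ} (hδ : 0 < δ) (hδ1 : δ ≤ 1 / 10) :
    ENNReal.ofReal ((1 - 100 * (δ ^ 2 / 40)) * (Real.pi * (2 - Real.sqrt 2 - δ)))
      ≤ mu A (closure (range Ψ))ᶜ := by
  have hpi := Real.pi_pos
  have hs2 := sqrt2_bounds
  set K := closure (range Ψ) with hK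
  have hKm : MeasurableSet K := isClosed_closure.measurableSet
  set ε := δ ^ 2 / 40 with hε
  have hε0 : 0 < ε := by positivity
  have hε1 : ε ≤ 1 / 100 := by rw [hε]; nlinarith
  set ρ := 2 - Real.sqrt 2 - δ with hρ
  have hρ0 : 0 ≤ ρ := by rw [hρ]; linarith [hs2.2]
  have hsub : Dr ρ ⊆ Dsc := by
    intro x hx
    have hx' : x 0 ^ 2 + x 1 ^ 2 ≤ ρ := hx
    show x 0 ^ 2 + x 1 ^ 2 ≤ 2 - Real.sqrt 2
    linarith
  have hgap : ∀ x ∈ Dr ρ, δ / 2 ≤ XX x 2 - Real.sqrt (1 / 2) := by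
    intro x hx
    have hx' : x 0 ^ 2 + x 1 ^ 2 ≤ ρ := hx
    rw [sqrt_half]
    simp only [XX, v3_two]
    linarith
  -- the degree inequality on the complement of the closure
  have hone : ∀ x ∈ Dr ρ, 1 ≤ ∫⁻ p in Kᶜ, ENNReal.ofReal (bet ε (FF (WP Ψ p) x)) ∂(mu A) := by
    intro x hx
    have hX := XX_cap (hsub hx)
    have hg := hgap x hx
    have hq : (δ / 2) ^ 2 ≤ (XX x 2 - Real.sqrt (1 / 2)) ^ 2 := pow_le_pow_left₀ (by positivity) hg 2
    have h1 := deg_F A hφ hΨ hb hfin hX (by linarith) hε0 (by rw [hε]; nlinarith)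
    rw [← lintegral_add_compl _ hKm] at h1
    have h2 : ∫⁻ p in K, ENNReal.ofReal (bet ε (FM Ψ (XX x) p)) ∂(mu A) = 0 := by
      rw [setLIntegral_congr_fun (g := fun _ => 0) hKm, lintegral_zero]
      intro p hp
      have h3 := FM_low Ψ hΨ hX hp
      have h4 : ε ≤ ‖FM Ψ (XX x) p‖ := le_trans (by rw [hε]; nlinarith) h3
      simp only
      rw [bet_zero hε0 h4, ENNReal.ofReal_zero]
    rw [h2, zero_add] at h1
    exact h1
  -- Tonelli
  have hswap : ∫⁻ x in Dr ρ, ∫⁻ p in Kᶜ, ENNReal.ofReal (bet ε (FF (WP Ψ p) x)) ∂(mu A)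
      = ∫⁻ p in Kᶜ, (∫⁻ x in Dr ρ, ENNReal.ofReal (bet ε (FF (WP Ψ p) x))) ∂(mu A) := by
    apply lintegral_lintegral_swap
    have hc : ContinuousOn (fun q : E2 × M => bet ε (FF (WP Ψ q.2) q.1)) (Dr ρ ×ˢ univ) := by
      apply (continuous_bet ε).comp_continuousOn
      apply (continuousOn_joint Ψ).comp (f := fun q : E2 × M => (q.2, q.1)) (by fun_prop)
      rintro ⟨x, p⟩ ⟨hx, _⟩
      exact ⟨mem_univ _, hsub hx⟩
    have hm : AEMeasurable (fun q : E2 × M => bet ε (FF (WP Ψ q.2) q.1))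
        ((volume.prod ((mu A).restrict Kᶜ)).restrict (Dr ρ ×ˢ univ)) :=
      hc.aemeasurable ((isClosed_Dr ρ).measurableSet.prod MeasurableSet.univ)
    rw [← Measure.prod_restrict, Measure.restrict_univ] at hm
    exact hm.ennreal_ofReal
  calc ENNReal.ofReal ((1 - 100 * ε) * (Real.pi * ρ))
      = ENNReal.ofReal (1 - 100 * ε) * volume (Dr ρ) := by
        rw [ENNReal.ofReal_mul (by linarith), vol_Dr hρ0]
    _ = ENNReal.ofReal (1 - 100 * ε) * ∫⁻ _x in Dr ρ, 1 := by rw [setLIntegral_one]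
    _ ≤ ENNReal.ofReal (1 - 100 * ε) * ∫⁻ x in Dr ρ, ∫⁻ p in Kᶜ,
          ENNReal.ofReal (bet ε (FF (WP Ψ p) x)) ∂(mu A) := by
        gcongr 1
        exact setLIntegral_mono' (isClosed_Dr ρ).measurableSet hone
    _ = ∫⁻ p in Kᶜ, (ENNReal.ofReal (1 - 100 * ε) *
          ∫⁻ x in Dr ρ, ENNReal.ofReal (bet ε (FF (WP Ψ p) x))) ∂(mu A) := by
        rw [hswap, lintegral_const_mul' _ _ ENNReal.ofReal_ne_top]
    _ ≤ ∫⁻ p in Kᶜ, 1 ∂(mu A) := by
        apply lintegral_mono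
        intro p
        exact le_trans (mul_le_mul' le_rfl (lintegral_mono_set hsub))
          (area_lip (WP_lipS Ψ p) hε0 hε1)
    _ = mu A Kᶜ := by rw [setLIntegral_one]

/-- **The inner part.** -/
theorem partII (A : Cov M) {φ : S1 → M} (hφ : IsometricFilling φ) {Ψ : collar → M}
    (hΨ : ∀ y y' : collar, angle (y : E3) y' ≤ dist (Ψ y) (Ψ y'))
    (hb : ∀ t : ℝ, Ψ ⟨_, ring_mem t⟩ = φ (t : S1)) (hfin : mu A univ ≠ ⊤) :
    ENNReal.ofReal (Real.pi * (2 - Real.sqrt 2)) ≤ mu A (closure (range Ψ))ᶜ := by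
  have hcont : Continuous fun δ : ℝ => (1 - 100 * (δ ^ 2 / 40)) * (Real.pi * (2 - Real.sqrt 2 - δ)) := by
    fun_prop
  have h1 := (hcont.tendsto 0).mono_left (nhdsWithin_le_nhds (s := Ioi (0 : ℝ)))
  have h2 := ENNReal.tendsto_ofReal h1
  have h3 : (1 - 100 * ((0 : ℝ) ^ 2 / 40)) * (Real.pi * (2 - Real.sqrt 2 - 0))
      = Real.pi * (2 - Real.sqrt 2) := by ring
  rw [h3] at h2
  apply le_of_tendsto h2
  have h4 : ∀ᶠ δ : ℝ in 𝓝[>] 0, δ < 1 / 10 :=
    nhdsWithin_le_nhds (gt_mem_nhds (by norm_num))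
  filter_upwards [h4, self_mem_nhdsWithin] with δ hδ1 hδ0
  exact partII_aux A hφ hΨ hb hfin hδ0 hδ1.le

end Pool.Agent.H18.Col
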