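import Pool.Agent.H18.Col.Deg
import Pool.Agent.H18.Col.Bd

open MeasureTheory Set InnerProductGeometry Filter
open scoped Topology ContDiff ENNReal NNReal

noncomputable section

namespace Pool.Agent.H18.Col

open Pool.Agent.H74.FAC (E2 bv pt det_E2 pt_zero pt_one pt_eq)

/-- Riemann sums of Lipschitz functions -/
lemma riemann {h : ℝ → ℝ} {L : ℝ} (hL0 : 0 ≤ L) (hL : ∀ s t, |h s - h t| ≤ L * |s - t|) {n : ℕ}
    (hn : 0 < n) :
    |(∫ u in (0 : ℝ)..(2 * Real.pi), h u) - 2 * Real.pi / n * ∑ k : Fin n, h (2 * Real.pi * k / n)|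
      ≤ L * (2 * Real.pi) ^ 2 / n := by
  have hpi := Real.pi_pos
  have hn' : (0 : ℝ) < n := by exact_mod_cast hn
  have hcont : Continuous h := by
    have : LipschitzWith L.toNNReal h := by
      apply LipschitzWith.of_dist_le_mul
      intro s t
      rw [Real.dist_eq, Real.dist_eq, Real.coe_toNNReal _ hL0]
      exact hL s t
    exact this.continuous
  set a : ℕ → ℝ := fun k => 2 * Real.pi * k / n with ha
  have hstep : ∀ k, a (k + 1) - a k = 2 * Real.pi / n := by
    intro k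
    simp only [ha]
    push_cast
    field_simp
    ring
  have hle : ∀ k, a k ≤ a (k + 1) := by
    intro k
    have h1 := hstep k
    have : 0 < 2 * Real.pi / n := by positivity
    linarith
  have h0 : a 0 = 0 := by simp [ha]
  have hnn : a n = 2 * Real.pi := by simp only [ha]; field_simp
  have h1 := intervalIntegral.sum_integral_adjacent_intervals (f := h) (μ := volume) (a := a) (n := n)
    (fun k _ => hcont.intervalIntegrable _ _)
  rw [h0, hnn] at h1
  have h2 : ∑ k : Fin n, h (2 * Real.pi * k / n) = ∑ k ∈ Finset.range n, h (a k) := by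
    rw [Finset.sum_range]
  rw [← h1, h2, Finset.mul_sum, ← Finset.sum_sub_distrib]
  have h3 : ∀ k ∈ Finset.range n, |(∫ u in a k..a (k + 1), h u) - 2 * Real.pi / n * h (a k)|
      ≤ L * (2 * Real.pi / n) * (2 * Real.pi / n) := by
    intro k _
    have e : (∫ u in a k..a (k + 1), h u) - 2 * Real.pi / n * h (a k)
        = ∫ u in a k..a (k + 1), (h u - h (a k)) := by
      rw [intervalIntegral.integral_sub (hcont.intervalIntegrable _ _)
        (continuous_const.intervalIntegrable _ _), intervalIntegral.integral_const, hstep,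
        smul_eq_mul]
    rw [e, ← Real.norm_eq_abs]
    have h4 := intervalIntegral.norm_integral_le_of_norm_le_const (a := a k) (b := a (k + 1))
      (f := fun u => h u - h (a k)) (C := L * (2 * Real.pi / n)) (by
        intro u hu
        rw [uIoc_of_le (hle k)] at hu
        rw [Real.norm_eq_abs]
        refine (hL u (a k)).trans (mul_le_mul_of_nonneg_left ?_ hL0)
        rw [abs_of_nonneg (by linarith [hu.1])]
        linarith [hstep k, hu.2])
    rw [hstep, abs_of_pos (by positivity : 0 < 2 * Real.pi / (n : ℝ))] at h4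
    exact h4
  refine (Finset.abs_sum_le_sum_abs _ _).trans ((Finset.sum_le_sum h3).trans ?_)
  rw [Finset.sum_const, Finset.card_range, nsmul_eq_mul]
  apply le_of_eq
  field_simp

lemma ZZ_lip {X : E3} (hX : X 0 ^ 2 + X 1 ^ 2 + X 2 ^ 2 = 1) (hp : 0 < 1 + X 2) (s t : ℝ) :
    ‖ZZ X s - ZZ X t‖ ≤ 3 * |s - t| := by
  have h : LipschitzWith 3 (fun u => ZZ X u) := by
    apply lipschitzWith_of_nnnorm_deriv_le (fun u => (hasDerivAt_ZZ_u X u).differentiableAt)
    intro u
    rw [(hasDerivAt_ZZ_u X u).deriv, ← NNReal.coe_le_coe, coe_nnnorm]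
    apply le_of_sq_le_sq _ (by norm_num)
    rw [norm_nn_jd hX hp]
    have h5 : tau X u ^ 2 + tau' X u ^ 2 = X 0 ^ 2 + X 1 ^ 2 := by
      simp only [tau, tau']
      linear_combination (X 0 ^ 2 + X 1 ^ 2) * (Real.sin_sq_add_cos_sq u)
    have h6 := Real.cos_sq_le_one (nu * tau X u)
    have h7 : tau' X u ^ 2 ≤ 1 := by nlinarith [sq_nonneg (tau X u), sq_nonneg (X 2)]
    have h8 : (nu * tau' X u) ^ 2 ≤ 484 / 100 := by
      rw [mul_pow, nu]; nlinarith
    push_cast
    linarith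
  have := h.dist_le_mul s t
  rw [dist_eq_norm, Real.dist_eq] at this
  exact_mod_cast this

/-- the discretised coefficients -/
def k1 (n : ℕ) (k : Fin n) : ℝ := 2 / n * Real.cos (2 * Real.pi * k / n)
def k2 (n : ℕ) (k : Fin n) : ℝ := 2 / n * Real.sin (2 * Real.pi * k / n)

lemma weighted_lip {w : E3 → ℝ} (hw : LipS w) {C0 : ℝ}
    (hb : ∀ Z : E3, ‖Z‖ = 1 → |w Z| ≤ C0) {X : E3} (hX : X 0 ^ 2 + X 1 ^ 2 + X 2 ^ 2 = 1)
    (hp : 0 < 1 + X 2) {g : ℝ → ℝ} (hg : ∀ s t, |g s - g t| ≤ |s - t|) (hg1 : ∀ s, |g s| ≤ 1)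
    (s t : ℝ) : |g s * w (ZZ X s) - g t * w (ZZ X t)| ≤ (C0 + 6) * |s - t| := by
  have e : g s * w (ZZ X s) - g t * w (ZZ X t)
      = (g s - g t) * w (ZZ X s) + g t * (w (ZZ X s) - w (ZZ X t)) := by ring
  have n1 := norm_ZZ hX hp s
  have n2 := norm_ZZ hX hp t
  have h1 : |w (ZZ X s) - w (ZZ X t)| ≤ 6 * |s - t| := by
    refine (hw _ _ n1 n2).trans ((angle_le_two_chord n1 n2).trans ?_)
    have := ZZ_lip hX hp s t
    linarith
  rw [e]
  refine (abs_add_le _ _).trans ?_
  rw [abs_mul, abs_mul, add_mul]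
  apply add_le_add
  · rw [mul_comm C0]
    exact mul_le_mul (hg s t) (hb _ n1) (abs_nonneg _) (abs_nonneg _)
  · calc |g t| * |w (ZZ X s) - w (ZZ X t)| ≤ 1 * (6 * |s - t|) :=
          mul_le_mul (hg1 t) h1 (abs_nonneg _) zero_le_one
      _ = 6 * |s - t| := one_mul _

/-- the discretisation error -/
lemma G_close {w : E3 → ℝ} (hw : LipS w) {C0 : ℝ} (hC0 : 0 ≤ C0)
    (hb : ∀ Z : E3, ‖Z‖ = 1 → |w Z| ≤ C0) {X : E3} (hX : X 0 ^ 2 + X 1 ^ 2 + X 2 ^ 2 = 1)
    (hp : 0 < 1 + X 2) {n : ℕ} (hn : 0 < n) :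
    |Gf (k1 n) (nu * X 0) (fun k => w (ZZ X (2 * Real.pi * k / n))) - Fc w X|
        ≤ 4 * Real.pi * (C0 + 6) / n ∧
    |Gf (k2 n) (nu * X 1) (fun k => w (ZZ X (2 * Real.pi * k / n))) - Fs w X|
        ≤ 4 * Real.pi * (C0 + 6) / n := by
  have hpi := Real.pi_pos
  have hn' : (0 : ℝ) < n := by exact_mod_cast hn
  have key : ∀ (g : ℝ → ℝ), (∀ s t, |g s - g t| ≤ |s - t|) → (∀ s, |g s| ≤ 1) →
      |1 / Real.pi * (2 * Real.pi / n * ∑ k : Fin n, g (2 * Real.pi * k / n)
          * w (ZZ X (2 * Real.pi * k / n)))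
        - 1 / Real.pi * ∫ u in (0 : ℝ)..(2 * Real.pi), g u * w (ZZ X u)|
        ≤ 4 * Real.pi * (C0 + 6) / n := by
    intro g hg hg1
    have h1 := riemann (h := fun u => g u * w (ZZ X u)) (L := C0 + 6) (by linarith)
      (fun s t => weighted_lip hw hb hX hp hg hg1 s t) hn
    rw [← mul_sub, abs_mul, abs_of_pos (by positivity : 0 < 1 / Real.pi), abs_sub_comm]
    calc 1 / Real.pi * _ ≤ 1 / Real.pi * ((C0 + 6) * (2 * Real.pi) ^ 2 / n) :=
          mul_le_mul_of_nonneg_left h1 (by positivity)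
      _ = 4 * Real.pi * (C0 + 6) / n := by field_simp; ring
  constructor
  · have h1 := key Real.cos Real.abs_cos_sub_cos_le Real.abs_cos_le_one
    have e : Gf (k1 n) (nu * X 0) (fun k => w (ZZ X (2 * Real.pi * k / n))) - Fc w X
        = 1 / Real.pi * (2 * Real.pi / n * ∑ k : Fin n, Real.cos (2 * Real.pi * k / n)
          * w (ZZ X (2 * Real.pi * k / n)))
        - 1 / Real.pi * ∫ u in (0 : ℝ)..(2 * Real.pi), Real.cos u * w (ZZ X u) := by
      rw [Gf, Fc]
      have : ∑ j : Fin n, k1 n j * w (ZZ X (2 * Real.pi * j / n))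
          = 1 / Real.pi * (2 * Real.pi / n * ∑ k : Fin n, Real.cos (2 * Real.pi * k / n)
          * w (ZZ X (2 * Real.pi * k / n))) := by
        rw [Finset.mul_sum, Finset.mul_sum]
        apply Finset.sum_congr rfl
        intro j _
        rw [k1]
        field_simp
      rw [this]
      ring
    rw [e]; exact h1
  · have h1 := key Real.sin Real.abs_sin_sub_sin_le Real.abs_sin_le_one
    have e : Gf (k2 n) (nu * X 1) (fun k => w (ZZ X (2 * Real.pi * k / n))) - Fs w X
        = 1 / Real.pi * (2 * Real.pi / n * ∑ k : Fin n, Real.sin (2 * Real.pi * k / n)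
          * w (ZZ X (2 * Real.pi * k / n)))
        - 1 / Real.pi * ∫ u in (0 : ℝ)..(2 * Real.pi), Real.sin u * w (ZZ X u) := by
      rw [Gf, Fs]
      have : ∑ j : Fin n, k2 n j * w (ZZ X (2 * Real.pi * j / n))
          = 1 / Real.pi * (2 * Real.pi / n * ∑ k : Fin n, Real.sin (2 * Real.pi * k / n)
          * w (ZZ X (2 * Real.pi * k / n))) := by
        rw [Finset.mul_sum, Finset.mul_sum]
        apply Finset.sum_congr rfl
        intro j _
        rw [k2]
        field_simp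
      rw [this]
      ring
    rw [e]; exact h1

/-- Lipschitz dependence of `F` on the function -/
lemma F_lip {w w' : E3 → ℝ} (hw : LipS w) (hw' : LipS w') {X : E3}
    (hX : X 0 ^ 2 + X 1 ^ 2 + X 2 ^ 2 = 1) (hp : 0 < 1 + X 2) {η : ℝ}
    (h : ∀ Z : E3, ‖Z‖ = 1 → |w' Z - w Z| ≤ η) :
    ‖pt (Fc w' X) (Fs w' X) - pt (Fc w X) (Fs w X)‖ ≤ 4 * η := by
  obtain ⟨h1, h2⟩ := F_close hX hp (continuous_wZZ hw hX hp) (continuous_wZZ hw' hX hp) h
  have e : pt (Fc w' X) (Fs w' X) - pt (Fc w X) (Fs w X)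
      = pt (Fc w' X - Fc w X) (Fs w' X - Fs w X) := by
    ext i
    fin_cases i <;> simp
  rw [e]
  refine (norm_pt_le _ _).trans ?_
  linarith

end Pool.Agent.H18.Col
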