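import Pool.Agent.H18.Col.Alg

open MeasureTheory Set
open scoped Topology

noncomputable section

namespace Pool.Agent.H18.Col

/-- Euclidean space of dimension three -/
abbrev E3 : Type := EuclideanSpace ℝ (Fin 3)

/-- the vector with given coordinates -/
def v3 (a b c : ℝ) : E3 := !₂[a, b, c]

@[simp] lemma v3_zero (a b c : ℝ) : v3 a b c 0 = a := rfl
@[simp] lemma v3_one (a b c : ℝ) : v3 a b c 1 = b := rfl
@[simp] lemma v3_two (a b c : ℝ) : v3 a b c 2 = c := rfl

lemma ext3 {x y : E3} (h0 : x 0 = y 0) (h1 : x 1 = y 1) (h2 : x 2 = y 2) : x = y := by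
  ext i
  fin_cases i
  · exact h0
  · exact h1
  · exact h2

lemma inner3 (x y : E3) : inner ℝ x y = x 0 * y 0 + x 1 * y 1 + x 2 * y 2 := by
  rw [PiLp.inner_apply, Fin.sum_univ_three]
  simp only [RCLike.inner_apply, conj_trivial]
  ring

lemma norm3_sq (x : E3) : ‖x‖ ^ 2 = x 0 ^ 2 + x 1 ^ 2 + x 2 ^ 2 := by
  rw [← real_inner_self_eq_norm_sq, inner3]; ring

lemma hasDerivAt_v3 {a b c : ℝ → ℝ} {a' b' c' t : ℝ} (ha : HasDerivAt a a' t)
    (hb : HasDerivAt b b' t) (hc : HasDerivAt c c' t) :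
    HasDerivAt (fun t => v3 (a t) (b t) (c t)) (v3 a' b' c') t := by
  have h : ∀ x y z : ℝ, v3 x y z = x • v3 1 0 0 + y • v3 0 1 0 + z • v3 0 0 1 := by
    intro x y z
    apply ext3 <;> simp [v3]
  rw [h a' b' c']
  have e : (fun t => v3 (a t) (b t) (c t)) = fun t => a t • v3 1 0 0 + b t • v3 0 1 0
      + c t • v3 0 0 1 := funext fun t => h _ _ _
  rw [e]
  exact ((ha.smul_const _).add (hb.smul_const _)).add (hc.smul_const _)

def tau (X : E3) (u : ℝ) : ℝ := X 0 * Real.cos u + X 1 * Real.sin u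
def tau' (X : E3) (u : ℝ) : ℝ := -X 0 * Real.sin u + X 1 * Real.cos u

/-- the unit tangent vector at `X` obtained from `(cos u, sin u, 0)` by parallel transport from the
north pole -/
def dd (X : E3) (u : ℝ) : E3 :=
  v3 (Real.cos u - tau X u * X 0 / (1 + X 2)) (Real.sin u - tau X u * X 1 / (1 + X 2)) (-tau X u)

/-- the rotated tangent vector -/
def jd (X : E3) (u : ℝ) : E3 :=
  v3 (-Real.sin u - tau' X u * X 0 / (1 + X 2)) (Real.cos u - tau' X u * X 1 / (1 + X 2)) (-tau' X u)

def ZZ (X : E3) (u : ℝ) : E3 := Real.sin (nu * tau X u) • X + Real.cos (nu * tau X u) • dd X u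
def nn (X : E3) (u : ℝ) : E3 := Real.cos (nu * tau X u) • X - Real.sin (nu * tau X u) • dd X u

/-- the connection form -/
def om (X V : E3) : ℝ := (X 1 * V 0 - X 0 * V 1) / (1 + X 2)

section
variable {X V : E3} (hX : X 0 ^ 2 + X 1 ^ 2 + X 2 ^ 2 = 1) (hp : 0 < 1 + X 2) (u : ℝ)
include hX hp

omit hp in
lemma inner_X_X : inner ℝ X X = (1 : ℝ) := by rw [inner3]; linarith

lemma inner_X_dd : inner ℝ X (dd X u) = (0 : ℝ) := by
  rw [inner3, dd]
  simp only [v3_zero, v3_one, v3_two, tau]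
  field_simp
  linear_combination (-(X 0 * Real.cos u + X 1 * Real.sin u)) * hX

lemma inner_X_jd : inner ℝ X (jd X u) = (0 : ℝ) := by
  rw [inner3, jd]
  simp only [v3_zero, v3_one, v3_two, tau']
  field_simp
  linear_combination (-(-X 0 * Real.sin u + X 1 * Real.cos u)) * hX

lemma inner_dd_dd : inner ℝ (dd X u) (dd X u) = (1 : ℝ) := by
  rw [inner3, dd]
  simp only [v3_zero, v3_one, v3_two, tau]
  have h2 := Real.sin_sq_add_cos_sq u
  field_simp
  linear_combination (1 + X 2) ^ 2 * h2 + (X 0 * Real.cos u + X 1 * Real.sin u) ^ 2 * hX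

lemma inner_jd_jd : inner ℝ (jd X u) (jd X u) = (1 : ℝ) := by
  rw [inner3, jd]
  simp only [v3_zero, v3_one, v3_two, tau']
  have h2 := Real.sin_sq_add_cos_sq u
  field_simp
  linear_combination (1 + X 2) ^ 2 * h2 + (-X 0 * Real.sin u + X 1 * Real.cos u) ^ 2 * hX

lemma inner_dd_jd : inner ℝ (dd X u) (jd X u) = (0 : ℝ) := by
  rw [inner3, dd, jd]
  simp only [v3_zero, v3_one, v3_two, tau, tau']
  field_simp
  linear_combination (X 0 * Real.cos u + X 1 * Real.sin u)
    * (-X 0 * Real.sin u + X 1 * Real.cos u) * hX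

/-- orthonormality of `ZZ, nn, jd` in the form needed later -/
lemma inner_ZZ_ZZ : inner ℝ (ZZ X u) (ZZ X u) = (1 : ℝ) := by
  rw [ZZ]
  simp only [inner_add_left, inner_add_right, real_inner_smul_left, real_inner_smul_right]
  rw [real_inner_comm X (dd X u), inner_X_X hX, inner_X_dd hX hp, inner_dd_dd hX hp]
  have := Real.sin_sq_add_cos_sq (nu * tau X u)
  linear_combination this

lemma norm_ZZ : ‖ZZ X u‖ = 1 := by
  have := inner_ZZ_ZZ hX hp u
  rw [real_inner_self_eq_norm_sq] at this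
  nlinarith [norm_nonneg (ZZ X u)]

lemma norm_nn_jd (α β : ℝ) : ‖α • nn X u + β • jd X u‖ ^ 2 = α ^ 2 + β ^ 2 := by
  rw [← real_inner_self_eq_norm_sq, nn]
  simp only [inner_add_left, inner_add_right, real_inner_smul_left, real_inner_smul_right,
    inner_sub_left, inner_sub_right]
  rw [real_inner_comm X (dd X u), real_inner_comm X (jd X u), real_inner_comm (dd X u) (jd X u),
    inner_X_X hX, inner_X_dd hX hp, inner_dd_dd hX hp, inner_X_jd hX hp,
    inner_dd_jd hX hp, inner_jd_jd hX hp]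
  have := Real.sin_sq_add_cos_sq (nu * tau X u)
  linear_combination α ^ 2 * this

variable (hV : X 0 * V 0 + X 1 * V 1 + X 2 * V 2 = 0)
include hV

omit hX in
lemma inner_dd_V : inner ℝ (dd X u) V
    = Real.cos u * V 0 + Real.sin u * V 1 - tau X u * V 2 / (1 + X 2) := by
  rw [inner3, dd]
  simp only [v3_zero, v3_one, v3_two]
  field_simp
  linear_combination (-(tau X u)) * hV

omit hX in
lemma inner_jd_V : inner ℝ (jd X u) V
    = -Real.sin u * V 0 + Real.cos u * V 1 - tau' X u * V 2 / (1 + X 2) := by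
  rw [inner3, jd]
  simp only [v3_zero, v3_one, v3_two]
  field_simp
  linear_combination (-(tau' X u)) * hV

/-- the derivative of `tau` -/
lemma tau_dot : Real.cos u * V 0 + Real.sin u * V 1
    = X 2 * inner ℝ (dd X u) V + om X V * tau' X u := by
  rw [inner_dd_V hp u hV, om]
  simp only [tau, tau']
  field_simp
  linear_combination (-(Real.cos u * V 0 + Real.sin u * V 1)) * hX
    + (X 0 * Real.cos u + X 1 * Real.sin u) * hV

/-- decomposition of a tangent vector -/
lemma V_decomp : V = inner ℝ (dd X u) V • dd X u + inner ℝ (jd X u) V • jd X u := by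
  have h2 := Real.sin_sq_add_cos_sq u
  rw [inner_dd_V hp u hV, inner_jd_V hp u hV]
  have k1 : Real.cos u * tau X u - Real.sin u * tau' X u = X 0 := by
    simp only [tau, tau']; linear_combination (X 0) * h2
  have k2 : Real.sin u * tau X u + Real.cos u * tau' X u = X 1 := by
    simp only [tau, tau']; linear_combination (X 1) * h2
  have k5 : (Real.cos u * V 0 + Real.sin u * V 1 - tau X u * V 2 / (1 + X 2)) * tau X u
      + (-Real.sin u * V 0 + Real.cos u * V 1 - tau' X u * V 2 / (1 + X 2)) * tau' X u = -V 2 := by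
    have e : (Real.cos u * V 0 + Real.sin u * V 1 - tau X u * V 2 / (1 + X 2)) * tau X u
      + (-Real.sin u * V 0 + Real.cos u * V 1 - tau' X u * V 2 / (1 + X 2)) * tau' X u
      = V 0 * (Real.cos u * tau X u - Real.sin u * tau' X u)
        + V 1 * (Real.sin u * tau X u + Real.cos u * tau' X u)
        - (tau X u ^ 2 + tau' X u ^ 2) * V 2 / (1 + X 2) := by ring
    have k3 : tau X u ^ 2 + tau' X u ^ 2 = X 0 ^ 2 + X 1 ^ 2 := by
      simp only [tau, tau']; linear_combination (X 0 ^ 2 + X 1 ^ 2) * h2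
    rw [e, k1, k2, k3]
    field_simp
    linear_combination (1 + X 2) * hV - V 2 * hX
  apply ext3
  · simp only [PiLp.add_apply, PiLp.smul_apply, smul_eq_mul, dd, jd, v3_zero]
    linear_combination (-(V 0)) * h2 + V 2 / (1 + X 2) * k1 + X 0 / (1 + X 2) * k5
  · simp only [PiLp.add_apply, PiLp.smul_apply, smul_eq_mul, dd, jd, v3_one]
    linear_combination (-(V 1)) * h2 + V 2 / (1 + X 2) * k2 + X 1 / (1 + X 2) * k5
  · simp only [PiLp.add_apply, PiLp.smul_apply, smul_eq_mul, dd, jd, v3_two]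
    linear_combination k5

/-- the derivative of `dd` -/
lemma dd_dot : v3 (-((Real.cos u * V 0 + Real.sin u * V 1) * X 0 + tau X u * V 0) / (1 + X 2)
      + tau X u * X 0 * V 2 / (1 + X 2) ^ 2)
    (-((Real.cos u * V 0 + Real.sin u * V 1) * X 1 + tau X u * V 1) / (1 + X 2)
      + tau X u * X 1 * V 2 / (1 + X 2) ^ 2)
    (-(Real.cos u * V 0 + Real.sin u * V 1))
    = (-(inner ℝ (dd X u) V : ℝ)) • X + om X V • jd X u := by
  have hc := tau_dot hX hp u hV
  have hom : om X V * (1 + X 2) = X 1 * V 0 - X 0 * V 1 := by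
    rw [om]; field_simp
  have hP := inner_dd_V hp u hV
  set P : ℝ := inner ℝ (dd X u) V with hPdef
  have hne : (1 + X 2) ≠ 0 := hp.ne'
  have hHi : (1 + X 2) * (1 + X 2)⁻¹ = 1 := mul_inv_cancel₀ hne
  apply ext3
  · simp only [PiLp.add_apply, PiLp.smul_apply, smul_eq_mul, jd, v3_zero]
    have hid : (Real.cos u * V 0 + Real.sin u * V 1) * X 0 - tau X u * V 0
        = -Real.sin u * (om X V * (1 + X 2)) := by rw [hom, tau]; ring
    simp only [div_eq_mul_inv, ← inv_pow] at *
    linear_combination X 0 * (1 + X 2)⁻¹ * hP - X 0 * (1 + X 2)⁻¹ * hc + (1 + X 2)⁻¹ * hid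
      - (om X V * Real.sin u + P * X 0) * hHi
  · simp only [PiLp.add_apply, PiLp.smul_apply, smul_eq_mul, jd, v3_one]
    have hid : (Real.cos u * V 0 + Real.sin u * V 1) * X 1 - tau X u * V 1
        = Real.cos u * (om X V * (1 + X 2)) := by rw [hom, tau]; ring
    simp only [div_eq_mul_inv, ← inv_pow] at *
    linear_combination X 1 * (1 + X 2)⁻¹ * hP - X 1 * (1 + X 2)⁻¹ * hc + (1 + X 2)⁻¹ * hid
      + (om X V * Real.cos u - P * X 1) * hHi
  · simp only [PiLp.add_apply, PiLp.smul_apply, smul_eq_mul, jd, v3_two]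
    linear_combination -hc

end

/-- coordinates of a differentiable curve -/
lemma hasDerivAt_coord {X : ℝ → E3} {V : E3} {t : ℝ} (h : HasDerivAt X V t) (i : Fin 3) :
    HasDerivAt (fun t => X t i) (V i) t := by
  exact (EuclideanSpace.proj (𝕜 := ℝ) i : E3 →L[ℝ] ℝ).hasFDerivAt.comp_hasDerivAt t h

/-- the derivative of `dd` along a curve in the sphere -/
lemma hasDerivAt_dd {X : ℝ → E3} {V : E3} {t : ℝ} (h : HasDerivAt X V t)
    (hX : X t 0 ^ 2 + X t 1 ^ 2 + X t 2 ^ 2 = 1) (hp : 0 < 1 + X t 2)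
    (hV : X t 0 * V 0 + X t 1 * V 1 + X t 2 * V 2 = 0) (u : ℝ) :
    HasDerivAt (fun t => dd (X t) u)
      ((-(inner ℝ (dd (X t) u) V : ℝ)) • X t + om (X t) V • jd (X t) u) t := by
  have h0 := hasDerivAt_coord h 0
  have h1 := hasDerivAt_coord h 1
  have h2 := hasDerivAt_coord h 2
  have hne : 1 + X t 2 ≠ 0 := hp.ne'
  have hτ : HasDerivAt (fun t => tau (X t) u) (Real.cos u * V 0 + Real.sin u * V 1) t := by
    have := (h0.mul_const (Real.cos u)).add (h1.mul_const (Real.sin u))
    exact this.congr_deriv (by ring)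
  have hH : HasDerivAt (fun t => 1 + X t 2) (V 2) t := h2.const_add 1
  have hd0 : HasDerivAt (fun t => Real.cos u - tau (X t) u * X t 0 / (1 + X t 2))
      (-((Real.cos u * V 0 + Real.sin u * V 1) * X t 0 + tau (X t) u * V 0) / (1 + X t 2)
      + tau (X t) u * X t 0 * V 2 / (1 + X t 2) ^ 2) t := by
    have := ((hτ.fun_mul h0).fun_div hH hne).const_sub (Real.cos u)
    exact this.congr_deriv (by field_simp; ring)
  have hd1 : HasDerivAt (fun t => Real.sin u - tau (X t) u * X t 1 / (1 + X t 2))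
      (-((Real.cos u * V 0 + Real.sin u * V 1) * X t 1 + tau (X t) u * V 1) / (1 + X t 2)
      + tau (X t) u * X t 1 * V 2 / (1 + X t 2) ^ 2) t := by
    have := ((hτ.fun_mul h1).fun_div hH hne).const_sub (Real.sin u)
    exact this.congr_deriv (by field_simp; ring)
  rw [← dd_dot hX hp u hV]
  exact hasDerivAt_v3 hd0 hd1 hτ.neg

/-- the derivative of `ZZ` along a curve in the sphere -/
lemma hasDerivAt_ZZ {X : ℝ → E3} {V : E3} {t : ℝ} (h : HasDerivAt X V t)
    (hX : X t 0 ^ 2 + X t 1 ^ 2 + X t 2 ^ 2 = 1) (hp : 0 < 1 + X t 2)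
    (hV : X t 0 * V 0 + X t 1 * V 1 + X t 2 * V 2 = 0) (u : ℝ) :
    HasDerivAt (fun t => ZZ (X t) u)
      ((((nu * X t 2 - 1) * inner ℝ (dd (X t) u) V) • nn (X t) u
        + (inner ℝ (jd (X t) u) V * Real.sin (nu * tau (X t) u)) • jd (X t) u)
        + om (X t) V • ((nu * tau' (X t) u) • nn (X t) u
          + Real.cos (nu * tau (X t) u) • jd (X t) u)) t := by
  have h0 := hasDerivAt_coord h 0
  have h1 := hasDerivAt_coord h 1
  have hτ : HasDerivAt (fun t => tau (X t) u) (Real.cos u * V 0 + Real.sin u * V 1) t := by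
    have := (h0.mul_const (Real.cos u)).add (h1.mul_const (Real.sin u))
    exact this.congr_deriv (by ring)
  have hdd := hasDerivAt_dd h hX hp hV u
  have hA : HasDerivAt (fun t => nu * tau (X t) u) (nu * (Real.cos u * V 0 + Real.sin u * V 1)) t :=
    hτ.const_mul nu
  have hZ := (hA.sin.smul h).add (hA.cos.smul hdd)
  refine hZ.congr_deriv ?_
  rw [tau_dot hX hp u hV]
  conv_lhs => enter [1, 1, 2]; rw [V_decomp hX hp u hV]
  rw [nn]
  module

/-- the derivative of `ZZ` in `u` -/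
lemma hasDerivAt_ZZ_u (X : E3) (u : ℝ) :
    HasDerivAt (fun u => ZZ X u) ((nu * tau' X u) • nn X u
      + Real.cos (nu * tau X u) • jd X u) u := by
  have hτ : HasDerivAt (fun u => tau X u) (tau' X u) u := by
    have := ((Real.hasDerivAt_cos u).const_mul (X 0)).add ((Real.hasDerivAt_sin u).const_mul (X 1))
    exact this.congr_deriv (by rw [tau']; ring)
  have hdd : HasDerivAt (fun u => dd X u) (jd X u) u := by
    have e0 := (Real.hasDerivAt_cos u).sub ((hτ.mul_const (X 0)).div_const (1 + X 2))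
    have e1 := (Real.hasDerivAt_sin u).sub ((hτ.mul_const (X 1)).div_const (1 + X 2))
    exact hasDerivAt_v3 e0 e1 hτ.neg
  have hA : HasDerivAt (fun u => nu * tau X u) (nu * tau' X u) u := hτ.const_mul nu
  have hZ := (hA.sin.smul_const X).add (hA.cos.smul hdd)
  refine hZ.congr_deriv ?_
  rw [nn]
  module

end Pool.Agent.H18.Col
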